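import Pool.Agent.Helper8.CO.Win
import Pool.Agent.Helper28.POSB.Basins

/-!
# CO-EQV: the conjecture and gaps

`T` for `r : ℤ → ℤ` admissible (`d = 2`, `m = 3`) is `T` for the constant function `ρ = r 1`, which is odd (`T_eq`: `x % 2 = 1` for odd `x`).

* `good_point` (the common core): let `A` be a set of integers with `cN A x / x → a > 0`, `0 < c < 1 / 2`, `0 ≤ B`, `N₀ : ℝ`. Then there are
  `n ∈ A`, `n ≥ N₀`, `n ≥ 3` and `k` with `2 ^ k (|ρ| + B + 1) ≤ n` and `MM ρ k 0 n (n + h)` for all `h` with `ρ ∣ h`, `|h| ≤ (log n) ^ c`.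
  Proof: `win` with `ε = a / 4` and large `x`, `k = kk x`: at most `a / 4 x` of the `0 < n ≤ x` are bad, at most
  `√x (|ρ| + B + 1) + N₀ + 3 ≤ a / 4 x` of them are `< 2 ^ k (|ρ| + B + 1)` or `< max N₀ 3` (`two_pow_kk_le`), and at least `3 / 4 a x` of them are in `A`;
  `(log n) ^ c ≤ (log x) ^ c`.
* `exc_iff`, `⇒`: `PRE.stay_empty`: some `B` is `≥` an element of every orbit; take `h = 0`, `N = 3` (`(log n) ^ c ≥ 0`).
  `⇐`: we may assume `0 < c` (if `c ≤ 0` then the hypothesis holds also for `c = 1 / 4`, as `(log n) ^ c ≤ 1 ≤ (log n) ^ (1 / 4)` for `n ≥ 3`)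
  and `B ≥ 0`. Suppose that `E` is infinite. `POSB.above`: `cN (Above 2 3 r B) x / x → β B`, `β B ≠ 0`, so `β B > 0`. `good_point` for
  `A = Above 2 3 r B`: `n`, `k`; the hypothesis gives `h ∈ [0, (log n) ^ c]`, `ρ ∣ h`, and `t` with `T^[t] (n + h) ≤ B`. If `t ≤ k`: contradiction
  to `orb_gt` (`n + h ≥ n`). If `t ≥ k`: `T^[t] (n + h) = T^[t - k] (T^[k] (n + h)) = T^[t] n > B`.
* `three_iff`, `⇒`: `h = 0`. `⇐`: if not all `n > 0` reach `1` then `p < 1` in `POSB.three` (`p ≤ 1` always, `p ≠ 1`), so the complement `A` of the set of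
  the integers which reach `1` has the density `1 - p > 0` (`cN_univ_tendsto`, `cN_union`). `good_point` with `B = 1`, `ρ = -1`: the hypothesis
  gives `h` and `t` with `T^[t] (n + h) = 1`; `t ≤ k` contradicts `orb_gt`, and `t ≥ k` gives `T^[t] n = 1`, `n ∉ A`.
-/

set_option autoImplicit false

namespace Pool.Agent.Helper8.CO

open Pool.Agent.Helper68.Moeller Finset Filter Topology Pool.Agent.Helper8.ND Pool.Agent.Helper28
  Pool.Agent.Helper8

theorem T_eq {r : ℤ → ℤ} : T 2 3 r = T 2 3 (fun _ => r 1) := by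
  funext x
  unfold T
  by_cases hx : ((2 : ℕ) : ℤ) ∣ x
  · rw [if_pos hx, if_pos hx]
  · rw [if_neg hx, if_neg hx]
    have h1 : x % ((2 : ℕ) : ℤ) = 1 := by
      obtain ⟨h1, h2⟩ := emod_pos (le_refl 2) hx
      push_cast at h1 h2 ⊢
      omega
    rw [h1]

theorem odd_of_adm {r : ℤ → ℤ} (hr : Admissible 2 3 r) : Odd (r 1) := by
  have h1 := hr 1 one_pos (by norm_num)
  rw [Int.odd_iff]
  have h2 : r 1 % ((2 : ℕ) : ℤ) = (((3 : ℕ) : ℤ) * 1) % ((2 : ℕ) : ℤ) := h1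
  push_cast at h2
  omega

theorem good_point {ρ : ℤ} (hρ : Odd ρ) {A : Set ℤ} {a c B : ℝ} (ha : 0 < a)
    (hA : Tendsto (fun x : ℝ => cN A x / x) atTop (𝓝 a)) (hc0 : 0 < c) (hc : c < 1 / 2)
    (hB : 0 ≤ B) (N₀ : ℝ) : ∃ (n : ℤ) (k : ℕ), n ∈ A ∧ N₀ ≤ n ∧ 3 ≤ n ∧
      (2 : ℝ) ^ k * (|(ρ : ℝ)| + B + 1) ≤ n ∧
      ∀ h : ℤ, ρ ∣ h → |(h : ℝ)| ≤ Real.log n ^ c → MM ρ k 0 n (n + h) := by
  obtain ⟨X, hX⟩ := win hρ hc0 hc (ε := a / 4) (by linarith)
  set K : ℝ := |(ρ : ℝ)| + B + 1 with hK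
  have hK0 : 0 < K := by
    have := abs_nonneg (ρ : ℝ)
    linarith
  set L : ℝ := |N₀| + 3 with hL
  have hL0 : 0 ≤ L := by
    have := abs_nonneg N₀
    linarith
  have hev := hA.eventually (lt_mem_nhds (by linarith : 3 / 4 * a < a))
  obtain ⟨x, hx1, hx2, hx3, hx4, hx5⟩ := (hev.and ((eventually_ge_atTop X).and
    ((eventually_ge_atTop ((8 * K / a) ^ 2)).and ((eventually_ge_atTop (8 * L / a)).and
      (eventually_ge_atTop (1 : ℝ)))))).exists
  have hx0 : 0 < x := by linarith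
  rw [lt_div_iff₀ hx0] at hx1
  have hsq : 8 * K / a ≤ Real.sqrt x := Real.le_sqrt_of_sq_le hx3
  have hsK : Real.sqrt x * K ≤ a / 8 * x := by
    have e1 : K ≤ a / 8 * Real.sqrt x := by
      rw [div_le_iff₀ ha] at hsq
      linarith
    calc Real.sqrt x * K ≤ Real.sqrt x * (a / 8 * Real.sqrt x) :=
          mul_le_mul_of_nonneg_left e1 (Real.sqrt_nonneg x)
      _ = a / 8 * (Real.sqrt x * Real.sqrt x) := by ring
      _ = a / 8 * x := by rw [Real.mul_self_sqrt hx0.le]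
  have hL8 : L ≤ a / 8 * x := by
    rw [div_le_iff₀ ha] at hx4
    linarith
  have hax : 0 < a * x := mul_pos ha hx0
  set M : ℝ := Real.sqrt x * K + L with hM
  have hM0 : 0 ≤ M := by
    have := mul_nonneg (Real.sqrt_nonneg x) hK0.le
    linarith
  have hM1 : M < a / 2 * x := by
    linarith
  have hW := hX x hx2
  set W : Set ℤ := {n : ℤ | 0 < n ∧ (n : ℝ) ≤ x ∧ ∃ h : ℤ, ρ ∣ h ∧ |(h : ℝ)| ≤ Real.log x ^ c ∧
      ¬ MM ρ (kk x) 0 n (n + h)} with hWdef
  have hex : ∃ n : ℤ, n ∈ A ∧ 0 < n ∧ (n : ℝ) ≤ x ∧ n ∉ W ∧ M < n := by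
    by_contra hcon
    push Not at hcon
    have hWf : W.Finite := by
      refine (finite_cN Set.univ x).subset ?_
      rintro n ⟨h1, h2, -⟩
      exact ⟨Set.mem_univ n, h1, h2⟩
    have hsub : {n : ℤ | n ∈ A ∧ 0 < n ∧ (n : ℝ) ≤ x} ⊆
        W ∪ {n : ℤ | n ∈ (Set.univ : Set ℤ) ∧ 0 < n ∧ (n : ℝ) ≤ M} := by
      rintro n ⟨h1, h2, h3⟩
      by_cases hnW : n ∈ W
      · exact Or.inl hnW
      · exact Or.inr ⟨Set.mem_univ n, h2, hcon n h1 h2 h3 hnW⟩
    have h1 := (Set.ncard_le_ncard hsub (hWf.union (finite_cN Set.univ M))).trans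
      (Set.ncard_union_le _ _)
    have h2 : cN A x ≤ (W.ncard : ℝ) + cN Set.univ M := by
      unfold cN
      exact_mod_cast h1
    have h3 := cN_le Set.univ hM0
    linarith
  obtain ⟨n, hnA, hn0, hnx, hnW, hMn⟩ := hex
  have hsK0 : 0 ≤ Real.sqrt x * K := mul_nonneg (Real.sqrt_nonneg x) hK0.le
  have hn3 : (3 : ℝ) < n := by
    have := abs_nonneg N₀
    linarith
  refine ⟨n, kk x, hnA, ?_, ?_, ?_, ?_⟩
  · have := le_abs_self N₀
    linarith
  · have : (3 : ℤ) < n := by exact_mod_cast hn3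
    omega
  · have h1 := mul_le_mul_of_nonneg_right (two_pow_kk_le hx5) hK0.le
    linarith
  · intro h hh hle
    by_contra hcon
    refine hnW ⟨hn0, hnx, h, hh, hle.trans ?_, hcon⟩
    exact Real.rpow_le_rpow (Real.log_nonneg (by linarith)) (Real.log_le_log (by linarith) hnx)
      hc0.le

/-- The contradiction from an orbit which goes below `B`. -/
private theorem no_low82 {ρ : ℤ} (hρ : Odd ρ) {n h : ℤ} {k t : ℕ} {B : ℝ} (hB : 0 ≤ B)
    (hn : (2 : ℝ) ^ k * (|(ρ : ℝ)| + B + 1) ≤ n) (hh : 0 ≤ h) (hM : MM ρ k 0 n (n + h))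
    (ht : ((T 2 3 (fun _ => ρ))^[t] (n + h) : ℝ) ≤ B) :
    (T 2 3 (fun _ => ρ))^[t] n = (T 2 3 (fun _ => ρ))^[t] (n + h) := by
  rcases le_total t k with hk | hk
  · exfalso
    have hn' : (2 : ℝ) ^ k * (|(ρ : ℝ)| + B + 1) ≤ ((n + h : ℤ) : ℝ) := by
      have : (0 : ℝ) ≤ h := by exact_mod_cast hh
      push_cast
      linarith
    have := orb_gt hρ hB hn' hk
    linarith
  · obtain ⟨s, rfl⟩ := Nat.exists_eq_add_of_le hk
    rw [Nat.add_comm k s, Function.iterate_add_apply, Function.iterate_add_apply, hM.1]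

/-- From the exponent `c` to a positive one. -/
private theorem expo82 {n : ℤ} (hn : 3 ≤ n) (c : ℝ) :
    Real.log n ^ c ≤ Real.log n ^ (max c (1 / 4)) := by
  refine Real.rpow_le_rpow_of_exponent_le ?_ (le_max_left _ _)
  have h3 : (3 : ℝ) ≤ n := by exact_mod_cast hn
  rw [Real.le_log_iff_exp_le (by linarith)]
  have := Real.exp_one_lt_d9
  linarith

theorem exc_iff {r : ℤ → ℤ} (hr : Admissible 2 3 r) {c : ℝ} (hc : c < 1 / 2) :
    (E 2 3 r).Finite ↔ ∃ B N : ℝ, ∀ n : ℤ, N ≤ n → ∃ (h : ℤ) (t : ℕ), 0 ≤ h ∧ r 1 ∣ h ∧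
      (h : ℝ) ≤ Real.log n ^ c ∧ ((T 2 3 r)^[t] (n + h) : ℝ) ≤ B := by
  constructor
  · intro hfin
    obtain ⟨B, hB⟩ := PRE.stay_empty (le_refl 2) hr hfin
    refine ⟨B, 3, fun n hn => ?_⟩
    have h1 := hB n
    push Not at h1
    obtain ⟨t, -, ht⟩ := h1 0
    refine ⟨0, t, le_refl _, dvd_zero _, ?_, ?_⟩
    · push_cast
      exact Real.rpow_nonneg (Real.log_nonneg (by linarith)) _
    · rw [add_zero]
      exact ht
  · rintro ⟨B, N, hBN⟩
    by_contra hinf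
    have hstd : POSB.Std 2 3 r :=
      ⟨le_refl 2, by norm_num, by norm_num, POS.three_hyp.1, hr⟩
    obtain ⟨β, hβ, hE⟩ := POSB.above hstd
    have hβ0 : β (max B 0) ≠ 0 := fun h0 => hinf (hE.2 ⟨_, h0⟩)
    have hβ1 : 0 < β (max B 0) := by
      refine lt_of_le_of_ne (ge_of_tendsto (hβ (max B 0)) ?_) hβ0.symm
      filter_upwards [eventually_gt_atTop 0] with x hx
      exact div_nonneg (cN_nonneg _ x) hx.le
    obtain ⟨n, k, hnA, hnN, hn3, hnk, hM⟩ := good_point (odd_of_adm hr) hβ1 (hβ (max B 0))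
      (c := max c (1 / 4)) (lt_of_lt_of_le (by norm_num) (le_max_right _ _))
      (max_lt hc (by norm_num)) (le_max_right B 0) N
    obtain ⟨h, t, hh0, hhd, hhc, ht⟩ := hBN n hnN
    have h1 := hM h hhd (by
      rw [abs_of_nonneg (by exact_mod_cast hh0)]
      exact hhc.trans (expo82 hn3 c))
    have h2 : ((T 2 3 (fun _ => r 1))^[t] (n + h) : ℝ) ≤ max B 0 := by
      rw [← T_eq]
      exact ht.trans (le_max_left _ _)
    have h3 := no_low82 (odd_of_adm hr) (le_max_right B 0) hnk hh0 h1 h2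
    have h4 := hnA t
    rw [T_eq, h3] at h4
    linarith

theorem three_iff {c : ℝ} (hc : c < 1 / 2) :
    (∀ n : ℤ, 0 < n → ∃ t : ℕ, (T 2 3 (fun _ => -1))^[t] n = 1) ↔
      ∃ N : ℝ, ∀ n : ℤ, N ≤ n → ∃ (h : ℤ) (t : ℕ), 0 ≤ h ∧ (h : ℝ) ≤ Real.log n ^ c ∧
        (T 2 3 (fun _ => -1))^[t] (n + h) = 1 := by
  constructor
  · intro hall
    refine ⟨1, fun n hn => ?_⟩
    obtain ⟨t, ht⟩ := hall n (by
      have : (1 : ℤ) ≤ n := by exact_mod_cast hn
      omega)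
    refine ⟨0, t, le_refl _, ?_, ?_⟩
    · push_cast
      exact Real.rpow_nonneg (Real.log_nonneg hn) _
    · rw [add_zero]
      exact ht
  · rintro ⟨N, hN⟩
    obtain ⟨p, hp0, hp, hp1⟩ := POSB.three
    by_contra hcon
    set G : Set ℤ := {n : ℤ | ∃ t : ℕ, (T 2 3 (fun _ => -1))^[t] n = 1} with hG
    have hpne : p ≠ 1 := fun h => hcon (hp1.1 h)
    have hple : p ≤ 1 := by
      refine le_of_tendsto hp ?_
      filter_upwards [eventually_gt_atTop 0] with x hx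
      rw [div_le_one hx]
      exact cN_le G hx.le
    have hplt : 0 < 1 - p := by
      have := lt_of_le_of_ne hple hpne
      linarith
    have hA : Tendsto (fun x : ℝ => cN Gᶜ x / x) atTop (𝓝 (1 - p)) := by
      have h1 := (POSB.cN_univ_tendsto (G := G ∪ Gᶜ) fun n _ => by
        rw [Set.union_compl_self]
        exact Set.mem_univ n).sub hp
      refine h1.congr fun x => ?_
      rw [POSB.cN_union disjoint_compl_right]
      ring
    have hodd : Odd (-1 : ℤ) := by decide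
    obtain ⟨n, k, hnA, hnN, hn3, hnk, hM⟩ := good_point hodd hplt hA
      (c := max c (1 / 4)) (lt_of_lt_of_le (by norm_num) (le_max_right _ _))
      (max_lt hc (by norm_num)) zero_le_one N
    obtain ⟨h, t, hh0, hhc, ht⟩ := hN n hnN
    have h1 := hM h (by norm_num) (by
      rw [abs_of_nonneg (by exact_mod_cast hh0)]
      exact hhc.trans (expo82 hn3 c))
    have h2 : ((T 2 3 (fun _ => (-1 : ℤ)))^[t] (n + h) : ℝ) ≤ 1 := by
      rw [ht]
      norm_num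
    have h3 := no_low82 hodd zero_le_one hnk hh0 h1 h2
    exact hnA ⟨t, h3.trans ht⟩

end Pool.Agent.Helper8.CO
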