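import Pool.Agent.Helper8.CO.Def

/-!
# CO-WT: the expected waiting time for an odd `β`

`vv c = v_2 (3 ^ c - 1)` for `c ≥ 1`; `wt (0, β) = v_2 β` (`padicValInt`, `0` for `β = 0`); for `c ≥ 1`: `wt (c, β) = vv c + 1` if
`2 ^ vv c ∣ β`, and `v_2 β` otherwise.

* `vv_one : vv 1 = 1`; `vv_pos : 1 ≤ vv c` for `c ≥ 1` (`3 ^ c - 1` is even and not `0`).
* `two_pow_vv_le`: `2 ^ vv c ≤ 4 c` for `c ≥ 1`: `vv c = 1` for `c` odd, `vv c = v_2 c + 2` for `c` even (lifting the exponent: in Mathlib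
  `padicValNat.pow_two_sub_pow` or `Int.two_pow_sub_pow`; or by induction: `3 ^ (2 c) - 1 = (3 ^ c - 1) (3 ^ c + 1)`, and
  `3 ^ c + 1` is `2` mod `4` for even `c`, `4` mod `8` for odd `c`).
* `wt_odd`: `wt (c, β) = 0` for `β` odd (`vv c ≥ 1`, so `2 ^ vv c` does not divide `β`).
* `wt_step`: `β` even, `(c, β) ≠ (0, 0)`. `c = 0`: `v_2 (β / 2) = v_2 (3 β / 2) = v_2 β - 1`.
  `c ≥ 1`, `i = v_2 β < vv c` (`β ≠ 0`): both `β / 2` and `(3 β + 3 ^ c - 1) / 2` have the valuation `i - 1 < vv c`, so both terms are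
  `i - 1`. `c ≥ 1`, `2 ^ vv c ∣ β`: if `2 ^ (vv c + 1) ∣ β` then `wt (c, β / 2) = vv c + 1` and `(3 β + 3 ^ c - 1) / 2` has the
  valuation `vv c - 1`, so `wt = vv c - 1`; otherwise `β / 2` has the valuation `vv c - 1`, and the other term is at most `vv c + 1`
  (every value of `wt (c, ·)` is at most `vv c + 1`). The sum of the two terms is at most `2 vv c = 2 (wt s - 1)`.
* `wt_le`: for `c ≥ 1`: `wt ≤ vv c + 1 ≤ log_2 (4 c) + 1 ≤ 5 √c` and `≤ 4 + 2 log (c + 1)` (`1 / log 2 ≤ 3 / 2`;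
  `log_2 c ≤ 2 √c`: `Real.log x ≤ x - 1` type estimate for `√c`: `log c = 2 log √c ≤ 2 (√c - 1)`, so
  `3 + log_2 c ≤ 3 + 3 (√c - 1) = 3 √c`).
* `wt_zero_le`: `c = 0`: `2 ^ v_2 β ≤ |β|` for `β ≠ 0`, so `wt ≤ log_2 |β| ≤ 2 √|β|`, and `≤ 2 log (|β| + 1)`.
* `wt_le_lin`: `wt s ≤ 5 c + 2 qq s`.
* `wt_log`: `wt s ≤ 4 + 2 log (c + 1) + 2 log (Zs s + 1)`.
-/

set_option autoImplicit false

namespace Pool.Agent.Helper8.CO

open Finset

theorem vv_one : vv 1 = 1 := by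
  unfold vv
  exact padicValNat.self (by norm_num)

private theorem three_pow36 {c : ℕ} (hc : 1 ≤ c) : 3 ^ c - 1 ≠ 0 := by
  have h : 3 ^ 1 ≤ 3 ^ c := Nat.pow_le_pow_right (by norm_num) hc
  omega

private theorem vv_dvd36 (c : ℕ) : (2 : ℤ) ^ vv c ∣ (3 : ℤ) ^ c - 1 := by
  have h : 2 ^ vv c ∣ 3 ^ c - 1 := pow_padicValNat_dvd
  have h1 : 1 ≤ 3 ^ c := Nat.one_le_pow _ _ (by norm_num)
  have h2 := Int.natCast_dvd_natCast.2 h
  rw [Nat.cast_sub h1] at h2
  push_cast at h2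
  exact h2

private theorem vv_not36 {c : ℕ} (hc : 1 ≤ c) : ¬ (2 : ℤ) ^ (vv c + 1) ∣ (3 : ℤ) ^ c - 1 := by
  intro h
  have h1 : 1 ≤ 3 ^ c := Nat.one_le_pow _ _ (by norm_num)
  have h2 : ((2 ^ (vv c + 1) : ℕ) : ℤ) ∣ ((3 ^ c - 1 : ℕ) : ℤ) := by
    rw [Nat.cast_sub h1]
    push_cast
    exact h
  exact pow_succ_padicValNat_not_dvd (three_pow36 hc) (Int.natCast_dvd_natCast.1 h2)

private theorem dvd_two36 {j : ℕ} {x : ℤ} : (2 : ℤ) ^ (j + 1) ∣ 2 * x ↔ (2 : ℤ) ^ j ∣ x := by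
  rw [pow_succ', mul_dvd_mul_iff_left (by norm_num)]

private theorem dvd_three36 {j : ℕ} {x : ℤ} : (2 : ℤ) ^ j ∣ 3 * x ↔ (2 : ℤ) ^ j ∣ x := by
  constructor
  · intro h
    have h23 : IsCoprime (2 : ℤ) 3 := by
      refine ⟨-1, 1, by norm_num⟩
    exact (h23.pow_left).dvd_of_dvd_mul_left h
  · intro h
    exact Dvd.dvd.mul_left h 3

private theorem val_eq36 {b : ℤ} {i : ℕ} (h1 : (2 : ℤ) ^ i ∣ b) (h2 : ¬ (2 : ℤ) ^ (i + 1) ∣ b) :
    padicValInt 2 b = i := by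
  have hb : b ≠ 0 := by
    rintro rfl
    exact h2 (dvd_zero _)
  have e1 := (padicValInt_dvd_iff (p := 2) i b).1 (by exact_mod_cast h1)
  have e2 : ¬ (i + 1 ≤ padicValInt 2 b) := fun h => h2 (by
    have h3 := (padicValInt_dvd_iff (p := 2) (i + 1) b).2 (Or.inr h)
    exact_mod_cast h3)
  rcases e1 with e1 | e1
  · exact absurd e1 hb
  · omega

private theorem val_spec36 {b : ℤ} (hb : b ≠ 0) :
    (2 : ℤ) ^ padicValInt 2 b ∣ b ∧ ¬ (2 : ℤ) ^ (padicValInt 2 b + 1) ∣ b := by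
  constructor
  · have h3 := (padicValInt_dvd_iff (p := 2) (padicValInt 2 b) b).2 (Or.inr le_rfl)
    exact_mod_cast h3
  · intro h
    have h3 := (padicValInt_dvd_iff (p := 2) (padicValInt 2 b + 1) b).1 (by exact_mod_cast h)
    rcases h3 with h3 | h3
    · exact hb h3
    · omega

private theorem wt_zero36 (b : ℤ) : wt (0, b) = (padicValInt 2 b : ℝ) := if_pos rfl

private theorem wt_dvd36 {c : ℕ} {b : ℤ} (hc : 1 ≤ c) (h : (2 : ℤ) ^ vv c ∣ b) :
    wt (c, b) = (vv c : ℝ) + 1 := by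
  unfold wt
  rw [if_neg (by change ¬ c = 0; omega), if_pos h]

private theorem wt_not36 {c : ℕ} {b : ℤ} (hc : 1 ≤ c) (h : ¬ (2 : ℤ) ^ vv c ∣ b) :
    wt (c, b) = (padicValInt 2 b : ℝ) := by
  unfold wt
  rw [if_neg (by change ¬ c = 0; omega), if_neg h]

private theorem wt_val36 {c : ℕ} {b : ℤ} {i : ℕ} (hc : 1 ≤ c) (h1 : (2 : ℤ) ^ i ∣ b)
    (h2 : ¬ (2 : ℤ) ^ (i + 1) ∣ b) (hi : i < vv c) : wt (c, b) = (i : ℝ) := by
  rw [wt_not36 hc fun h => h2 (dvd_trans (pow_dvd_pow 2 hi) h), val_eq36 h1 h2]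

theorem vv_pos {c : ℕ} (hc : 1 ≤ c) : 1 ≤ vv c := by
  refine one_le_padicValNat_of_dvd (three_pow36 hc) ?_
  have h : Odd (3 ^ c) := Odd.pow (by decide)
  obtain ⟨k, hk⟩ := h
  exact ⟨k, by omega⟩

theorem two_pow_vv_le {c : ℕ} (hc : 1 ≤ c) : 2 ^ vv c ≤ 4 * c := by
  rcases Nat.even_or_odd c with he | ho
  · have h1 := padicValNat.pow_two_sub_pow (x := 3) (y := 1) (by norm_num) (by norm_num)
      (by norm_num) (n := c) (by omega) he
    have h2 : padicValNat 2 (3 + 1) = 2 := by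
      have : (3 + 1 : ℕ) = 2 ^ 2 := by norm_num
      rw [this, padicValNat.prime_pow]
    have h3 : padicValNat 2 (3 - 1) = 1 := by
      have : (3 - 1 : ℕ) = 2 := by norm_num
      rw [this]
      exact padicValNat.self (by norm_num)
    rw [one_pow, h2, h3] at h1
    have h4 : vv c = padicValNat 2 c + 2 := by
      unfold vv
      omega
    have h5 : 2 ^ padicValNat 2 c ≤ c := Nat.le_of_dvd (by omega) pow_padicValNat_dvd
    rw [h4, pow_add]
    omega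
  · have h1 : vv c ≤ 1 := by
      by_contra hcon
      have h2 : 2 ^ vv c ∣ 3 ^ c - 1 := pow_padicValNat_dvd
      have h3 : 2 ^ 2 ∣ 3 ^ c - 1 := dvd_trans (pow_dvd_pow 2 (by omega)) h2
      obtain ⟨k, hk⟩ := ho
      have h4 : 3 ^ c % 4 = 3 := by
        rw [hk, pow_succ, pow_mul, Nat.mul_mod, Nat.pow_mod]
        norm_num
      have h5 : (2 : ℕ) ^ 2 = 4 := by norm_num
      rw [h5] at h3
      clear hk h2 hcon
      generalize 3 ^ c = X at h3 h4
      omega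
    calc 2 ^ vv c ≤ 2 ^ 1 := Nat.pow_le_pow_right (by norm_num) h1
      _ ≤ 4 * c := by omega

theorem wt_odd {s : ℕ × ℤ} (hs : ¬ Even s.2) : wt s = 0 := by
  obtain ⟨c, b⟩ := s
  change ¬ Even b at hs
  have h2 : ¬ (2 : ℤ) ^ (0 + 1) ∣ b := by
    rw [zero_add, pow_one]
    exact fun h => hs (even_iff_two_dvd.2 h)
  have h1 : (2 : ℤ) ^ 0 ∣ b := by
    rw [pow_zero]
    exact one_dvd _
  rcases Nat.eq_zero_or_pos c with rfl | hc
  · rw [wt_zero36, val_eq36 h1 h2, Nat.cast_zero]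
  · rw [wt_val36 hc h1 h2 (vv_pos hc), Nat.cast_zero]

private theorem wt_le36 {c : ℕ} {b : ℤ} (hc : 1 ≤ c) : wt (c, b) ≤ (vv c : ℝ) + 1 := by
  by_cases h : (2 : ℤ) ^ vv c ∣ b
  · exact le_of_eq (wt_dvd36 hc h)
  · rw [wt_not36 hc h]
    have hb : b ≠ 0 := by
      rintro rfl
      exact h (dvd_zero _)
    have h1 := (val_spec36 hb).1
    have h2 : padicValInt 2 b < vv c := by
      by_contra hcon
      exact h (dvd_trans (pow_dvd_pow 2 (not_lt.1 hcon)) h1)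
    have h3 : ((padicValInt 2 b : ℕ) : ℝ) ≤ (vv c : ℝ) := by exact_mod_cast h2.le
    linarith

theorem wt_step {s : ℕ × ℤ} (hs : Even s.2) (h0 : s ≠ (0, 0)) : av wt s ≤ wt s - 1 := by
  obtain ⟨c, b⟩ := s
  change Even b at hs
  obtain ⟨t, ht⟩ := hs
  have hb : b = 2 * t := by omega
  subst hb
  clear ht
  have n0 : nx0 (c, 2 * t) = (c, t) := by
    rw [nx0_even (even_two_mul t), Int.mul_ediv_cancel_left _ (by norm_num)]
  rcases Nat.eq_zero_or_pos c with rfl | hc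
  · have n1 : nx1 (0, 2 * t) = (0, 3 * t) := by
      rw [nx1_even (even_two_mul t)]
      have : 3 * (2 * t) + (3 : ℤ) ^ 0 - 1 = 2 * (3 * t) := by
        rw [pow_zero]
        ring
      rw [this, Int.mul_ediv_cancel_left _ (by norm_num)]
    have ht : t ≠ 0 := by
      rintro rfl
      exact h0 (by norm_num)
    obtain ⟨h1, h2⟩ := val_spec36 ht
    have e1 : padicValInt 2 (2 * t) = padicValInt 2 t + 1 :=
      val_eq36 (dvd_two36.2 h1) (fun h => h2 (dvd_two36.1 h))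
    have e2 : padicValInt 2 (3 * t) = padicValInt 2 t :=
      val_eq36 (dvd_three36.2 h1) (fun h => h2 (dvd_three36.1 h))
    unfold av
    rw [n0, n1, wt_zero36, wt_zero36, wt_zero36, e1, e2]
    push_cast
    linarith
  · obtain ⟨u, hu⟩ : ∃ u, vv c = u + 1 := ⟨vv c - 1, by have := vv_pos hc; omega⟩
    have g1 := vv_dvd36 c
    have g2 := vv_not36 hc
    obtain ⟨r, hr⟩ : ∃ r, (3 : ℤ) ^ c - 1 = 2 * r :=
      dvd_trans (dvd_pow_self 2 (by omega)) g1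
    rw [hr, hu] at g1 g2
    have r1 : (2 : ℤ) ^ u ∣ r := dvd_two36.1 g1
    have r2 : ¬ (2 : ℤ) ^ (u + 1) ∣ r := fun h => g2 (dvd_two36.2 h)
    have n1 : nx1 (c, 2 * t) = (c, 3 * t + r) := by
      rw [nx1_even (even_two_mul t)]
      have : 3 * (2 * t) + (3 : ℤ) ^ c - 1 = 2 * (3 * t + r) := by
        linarith
      rw [this, Int.mul_ediv_cancel_left _ (by norm_num)]
    unfold av
    rw [n0, n1]
    have hvR : (vv c : ℝ) = (u : ℝ) + 1 := by
      rw [hu]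
      push_cast
      ring
    by_cases hA : (2 : ℤ) ^ vv c ∣ 2 * t
    · rw [wt_dvd36 hc hA]
      rw [hu] at hA
      have t1 : (2 : ℤ) ^ u ∣ t := dvd_two36.1 hA
      by_cases hB : (2 : ℤ) ^ (u + 1) ∣ t
      · rw [wt_dvd36 hc (by rw [hu]; exact hB)]
        have k1 : (2 : ℤ) ^ u ∣ 3 * t + r := dvd_add (dvd_three36.2 t1) r1
        have k2 : ¬ (2 : ℤ) ^ (u + 1) ∣ 3 * t + r := fun h =>
          r2 ((dvd_add_right (dvd_three36.2 hB)).1 h)
        rw [wt_val36 hc k1 k2 (by omega)]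
        linarith
      · rw [wt_val36 hc t1 hB (by omega)]
        have h3 := wt_le36 (b := 3 * t + r) hc
        linarith
    · have ht : t ≠ 0 := by
        rintro rfl
        exact hA (by rw [mul_zero]; exact dvd_zero _)
      obtain ⟨h1, h2⟩ := val_spec36 ht
      have hlt : padicValInt 2 t + 1 < vv c := by
        by_contra hcon
        exact hA (dvd_trans (pow_dvd_pow 2 (not_lt.1 hcon)) (dvd_two36.2 h1))
      have k1 : (2 : ℤ) ^ padicValInt 2 t ∣ 3 * t + r :=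
        dvd_add (dvd_three36.2 h1) (dvd_trans (pow_dvd_pow 2 (by omega)) r1)
      have k2 : ¬ (2 : ℤ) ^ (padicValInt 2 t + 1) ∣ 3 * t + r := fun h =>
        h2 (dvd_three36.1 ((dvd_add_left (dvd_trans (pow_dvd_pow 2 (by omega)) r1)).1 h))
      rw [wt_val36 hc h1 h2 (by omega), wt_val36 hc k1 k2 (by omega),
        wt_val36 hc (dvd_two36.2 h1) (fun h => h2 (dvd_two36.1 h)) hlt]
      push_cast
      linarith

theorem wt_le_vv {s : ℕ × ℤ} (hc : 1 ≤ s.1) : wt s ≤ vv s.1 + 1 := by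
  obtain ⟨c, b⟩ := s
  exact wt_le36 hc

private theorem log_le36 {v : ℕ} {x : ℝ} (hx : 1 ≤ x) (h : (2 : ℝ) ^ v ≤ x) :
    (v : ℝ) ≤ 3 / 2 * Real.log x := by
  have h1 : Real.log ((2 : ℝ) ^ v) ≤ Real.log x := Real.log_le_log (by positivity) h
  rw [Real.log_pow] at h1
  have h2 := Real.log_two_gt_d9
  have h3 : (0 : ℝ) ≤ v := Nat.cast_nonneg v
  nlinarith [Real.log_nonneg hx]

private theorem vv_log36 {c : ℕ} (hc : 1 ≤ c) : ((vv c : ℕ) : ℝ) ≤ 2 + 3 / 2 * Real.log c := by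
  have h1 : (2 : ℝ) ^ vv c ≤ 4 * c := by exact_mod_cast two_pow_vv_le hc
  have hc1 : (1 : ℝ) ≤ c := by exact_mod_cast hc
  have h2 : Real.log ((2 : ℝ) ^ vv c) ≤ Real.log (4 * c) := Real.log_le_log (by positivity) h1
  have h4 : Real.log 4 = 2 * Real.log 2 := by
    rw [show (4 : ℝ) = 2 ^ 2 by norm_num, Real.log_pow]
    norm_num
  rw [Real.log_pow, Real.log_mul (by norm_num) (by positivity), h4] at h2
  have h3 := Real.log_two_gt_d9
  have h5 := Real.log_nonneg hc1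
  by_contra hcon
  push Not at hcon
  have h6 : 3 / 2 * Real.log c < (vv c : ℝ) - 2 := by linarith
  have h7 : 3 / 2 * Real.log c * Real.log 2 < ((vv c : ℝ) - 2) * Real.log 2 :=
    mul_lt_mul_of_pos_right h6 (by linarith)
  nlinarith

private theorem log_sqrt36 {x : ℝ} (hx : 1 ≤ x) : Real.log x ≤ 2 * (Real.sqrt x - 1) := by
  have h0 : 0 < Real.sqrt x := Real.sqrt_pos.2 (by linarith)
  have h1 : Real.log (Real.sqrt x) ≤ Real.sqrt x - 1 := Real.log_le_sub_one_of_pos h0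
  have h2 : Real.log x = 2 * Real.log (Real.sqrt x) := by
    rw [Real.log_sqrt (by linarith)]
    ring
  linarith

private theorem val_pow36 {b : ℤ} (hb : b ≠ 0) : (2 : ℝ) ^ padicValInt 2 b ≤ |(b : ℝ)| := by
  have h1 := Int.le_of_dvd (abs_pos.2 hb) ((dvd_abs _ _).2 (val_spec36 hb).1)
  have h2 : (((2 : ℤ) ^ padicValInt 2 b : ℤ) : ℝ) ≤ ((|b| : ℤ) : ℝ) := by exact_mod_cast h1
  push_cast at h2
  exact h2

private theorem sq_le36 (v : ℕ) : v ^ 2 ≤ 4 * 2 ^ v := by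
  induction v with
  | zero => norm_num
  | succ v ih =>
    rcases Nat.lt_or_ge v 3 with h | h
    · interval_cases v <;> norm_num
    · rw [pow_succ 2 v]
      nlinarith

private theorem Zs_zero36 (b : ℤ) : Zs (0, b) = |(b : ℝ)| := by
  unfold Zs
  change |(b : ℝ)| / 3 ^ 0 = _
  rw [pow_zero, div_one]

theorem wt_le_sqrt {s : ℕ × ℤ} (hc : 1 ≤ s.1) : wt s ≤ 5 * Real.sqrt s.1 := by
  have h1 := wt_le_vv hc
  have h2 := vv_log36 hc
  have hc1 : (1 : ℝ) ≤ s.1 := by exact_mod_cast hc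
  have h3 := log_sqrt36 hc1
  have h4 : 1 ≤ Real.sqrt s.1 := by
    rw [← Real.sqrt_one]
    exact Real.sqrt_le_sqrt hc1
  linarith

theorem wt_le_lin (s : ℕ × ℤ) : wt s ≤ 5 * s.1 + 2 * qq s := by
  obtain ⟨c, b⟩ := s
  rcases Nat.eq_zero_or_pos c with rfl | hc
  · unfold qq
    rw [Zs_zero36, wt_zero36]
    change _ ≤ 5 * ((0 : ℕ) : ℝ) + _
    rw [Nat.cast_zero, mul_zero, zero_add]
    rcases eq_or_ne b 0 with rfl | hb
    · rw [padicValInt.zero, Nat.cast_zero]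
      positivity
    · have h1 := val_pow36 hb
      have h2 : ((padicValInt 2 b : ℕ) : ℝ) ^ 2 ≤ 4 * 2 ^ padicValInt 2 b := by
        exact_mod_cast sq_le36 (padicValInt 2 b)
      have h3 : ((padicValInt 2 b : ℕ) : ℝ) ≤ Real.sqrt (4 * |(b : ℝ)|) := by
        apply Real.le_sqrt_of_sq_le
        linarith
      rw [Real.sqrt_mul (by norm_num), show (4 : ℝ) = 2 ^ 2 by norm_num,
        Real.sqrt_sq (by norm_num)] at h3
      exact h3
  · have h1 : wt (c, b) ≤ 5 * Real.sqrt c := wt_le_sqrt (s := (c, b)) hc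
    have h2 := qq_nonneg (c, b)
    have hc1 : (1 : ℝ) ≤ c := by exact_mod_cast hc
    have h3 : Real.sqrt c ≤ c := by
      rw [Real.sqrt_le_left (by linarith)]
      nlinarith
    change wt (c, b) ≤ 5 * (c : ℝ) + 2 * qq (c, b)
    linarith

theorem wt_log (s : ℕ × ℤ) :
    wt s ≤ 4 + 2 * Real.log (s.1 + 1) + 2 * Real.log (Zs s + 1) := by
  obtain ⟨c, b⟩ := s
  have hZ : 0 ≤ Real.log (Zs (c, b) + 1) := Real.log_nonneg (by linarith [Zs_nonneg (c, b)])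
  have hC : 0 ≤ Real.log ((c : ℝ) + 1) := Real.log_nonneg (by
    have := Nat.cast_nonneg (α := ℝ) c
    linarith)
  rcases Nat.eq_zero_or_pos c with rfl | hc
  · rw [wt_zero36]
    change _ ≤ 4 + 2 * Real.log (((0 : ℕ) : ℝ) + 1) + _
    rcases eq_or_ne b 0 with rfl | hb
    · rw [padicValInt.zero]
      rw [Nat.cast_zero] at hC ⊢
      linarith
    · have h1 := val_pow36 hb
      have h2 : (1 : ℝ) ≤ |(b : ℝ)| :=
        le_trans (one_le_pow₀ (by norm_num)) h1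
      have h3 := log_le36 h2 h1
      have h4 : Real.log |(b : ℝ)| ≤ Real.log (Zs (0, b) + 1) := by
        rw [Zs_zero36]
        exact Real.log_le_log (by linarith) (by linarith)
      linarith [Real.log_nonneg h2]
  · have h1 := wt_le36 (b := b) hc
    have h2 := vv_log36 hc
    have hc1 : (1 : ℝ) ≤ c := by exact_mod_cast hc
    have h3 : Real.log c ≤ Real.log ((c : ℝ) + 1) :=
      Real.log_le_log (by linarith) (by linarith)
    change wt (c, b) ≤ 4 + 2 * Real.log ((c : ℝ) + 1) + _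
    linarith [Real.log_nonneg hc1]

end Pool.Agent.Helper8.CO
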