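import Pool.Agent.Helper8.CO.Zz
import Pool.Agent.Helper8.CO.Wt

/-!
# CO-PH: the first steps from `(0, h)`

`av^[t] f` is the mean of `f` after `t` steps.
* `avn_mono`, `avn_const`, linearity: induction on `t` from `av_mono`, ... (`Function.iterate_succ_apply'`).
* `uu_add`: `uu (t + k) = av^[t] (uu k)`: induction on `t`.
* `avn_qq`: `av qq ≤ 0.97 qq + 5 / 8`, so by induction on `t` `av^[t] qq x ≤ 0.97 ^ t qq x + 21` (`5 / 8 / 0.03 < 21`; write
  `av^[t + 1] qq = av^[t] (av qq) ≤ 0.97 av^[t] qq + 5 / 8`).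
* `avn_sq`: `av (c ^ 2) ≤ c ^ 2 + 1` (`β` even: equality with `0`; `β` odd, `c ≥ 1`: `((c + 1) ^ 2 + (c - 1) ^ 2) / 2 = c ^ 2 + 1`; `β` odd,
  `c = 0`: `1`), so `av^[t] (c ^ 2) (0, h) ≤ t`.
* `avn_c`: `c ≤ (c ^ 2 / √t + √t) / 2`, so `av^[t] c (0, h) ≤ √t` for `t ≥ 1`.
* `first`: if `uu k ≤ a c + b qq + e` (`a, b, e ≥ 0`) and `0.97 ^ t qq (0, h) ≤ 1` then `uu (t + k) (0, h) ≤ a √t + 22 b + e`.
-/

set_option autoImplicit false

namespace Pool.Agent.Helper8.CO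

open Finset

private theorem avn_mono52 {f g : ℕ × ℤ → ℝ} (h : ∀ s, f s ≤ g s) (t : ℕ) (s : ℕ × ℤ) :
    av^[t] f s ≤ av^[t] g s := by
  induction t generalizing s with
  | zero => exact h s
  | succ t ih =>
    rw [Function.iterate_succ_apply', Function.iterate_succ_apply']
    exact av_mono ih s

private theorem av_def52 (f : ℕ × ℤ → ℝ) (s : ℕ × ℤ) :
    av f s = (f (nx0 s) + f (nx1 s)) / 2 := rfl

private theorem avn_lin52 (a b e : ℝ) (f g : ℕ × ℤ → ℝ) (t : ℕ) (s : ℕ × ℤ) :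
    av^[t] (fun x => a * f x + b * g x + e) s = a * av^[t] f s + b * av^[t] g s + e := by
  induction t generalizing s with
  | zero => rfl
  | succ t ih =>
    rw [Function.iterate_succ_apply', Function.iterate_succ_apply', Function.iterate_succ_apply']
    rw [av_def52, av_def52, av_def52, ih, ih]
    ring

private theorem avn_qq52 (t : ℕ) (x : ℕ × ℤ) : av^[t] qq x ≤ (97 / 100 : ℝ) ^ t * qq x + 21 := by
  induction t with
  | zero =>
    change qq x ≤ _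
    rw [pow_zero, one_mul]
    linarith
  | succ t ih =>
    rw [Function.iterate_succ_apply]
    have h1 : av^[t] (av qq) x ≤ av^[t] (fun s => 97 / 100 * qq s + 0 * qq s + 5 / 8) x :=
      avn_mono52 (fun s => by rw [zero_mul, add_zero]; exact av_qq s) t x
    rw [avn_lin52] at h1
    rw [pow_succ]
    linarith

private theorem av_sq52 (s : ℕ × ℤ) : av (fun x => (x.1 : ℝ) ^ 2) s ≤ (s.1 : ℝ) ^ 2 + 1 := by
  obtain ⟨c, b⟩ := s
  unfold av
  by_cases h : Even b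
  · rw [nx0_even h, nx1_even h]
    change (((c : ℝ) ^ 2) + ((c : ℝ) ^ 2)) / 2 ≤ (c : ℝ) ^ 2 + 1
    linarith
  · rw [nx0_odd h]
    rcases Nat.eq_zero_or_pos c with rfl | hc
    · rw [nx1_odd_zero h]
      norm_num
    · obtain ⟨d, rfl⟩ : ∃ d, c = d + 1 := ⟨c - 1, by omega⟩
      rw [nx1_odd h (by omega)]
      change ((((d + 1 + 1 : ℕ) : ℝ) ^ 2) + (((d + 1 - 1 : ℕ) : ℝ) ^ 2)) / 2 ≤ ((d + 1 : ℕ) : ℝ) ^ 2 + 1
      rw [Nat.add_sub_cancel]
      push_cast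
      nlinarith

private theorem avn_sq52 (t : ℕ) (x : ℕ × ℤ) :
    av^[t] (fun x => (x.1 : ℝ) ^ 2) x ≤ (x.1 : ℝ) ^ 2 + t := by
  induction t with
  | zero => simp
  | succ t ih =>
    rw [Function.iterate_succ_apply]
    have h1 : av^[t] (av (fun x => (x.1 : ℝ) ^ 2)) x ≤
        av^[t] (fun s => 1 * (fun x : ℕ × ℤ => (x.1 : ℝ) ^ 2) s +
          0 * (fun x : ℕ × ℤ => (x.1 : ℝ) ^ 2) s + 1) x :=
      avn_mono52 (fun s => by
        rw [one_mul, zero_mul, add_zero]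
        exact av_sq52 s) t x
    rw [avn_lin52] at h1
    push_cast
    linarith

private theorem avn_c52 {t : ℕ} (ht : 1 ≤ t) (h : ℤ) :
    av^[t] (fun x => (x.1 : ℝ)) (0, h) ≤ Real.sqrt t := by
  have ht0 : (0 : ℝ) < t := by exact_mod_cast ht
  have hs : 0 < Real.sqrt t := Real.sqrt_pos.2 ht0
  have hsq : Real.sqrt t * Real.sqrt t = t := Real.mul_self_sqrt ht0.le
  have h1 : av^[t] (fun x => (x.1 : ℝ)) (0, h) ≤
      av^[t] (fun s => 1 / (2 * Real.sqrt t) * (fun x : ℕ × ℤ => (x.1 : ℝ) ^ 2) s +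
        0 * (fun x : ℕ × ℤ => (x.1 : ℝ) ^ 2) s + Real.sqrt t / 2) (0, h) := by
    refine avn_mono52 (fun s => ?_) t (0, h)
    change (s.1 : ℝ) ≤ 1 / (2 * Real.sqrt t) * (s.1 : ℝ) ^ 2 + 0 * (s.1 : ℝ) ^ 2 + Real.sqrt t / 2
    have h2 : 1 / (2 * Real.sqrt t) * (s.1 : ℝ) ^ 2 + 0 * (s.1 : ℝ) ^ 2 + Real.sqrt t / 2 - s.1 =
        ((s.1 : ℝ) - Real.sqrt t) ^ 2 / (2 * Real.sqrt t) := by
      field_simp
      ring
    have h3 : 0 ≤ ((s.1 : ℝ) - Real.sqrt t) ^ 2 / (2 * Real.sqrt t) := by positivity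
    linarith
  rw [avn_lin52] at h1
  have h4 := avn_sq52 t (0, h)
  have h5 : 1 / (2 * Real.sqrt t) * av^[t] (fun x => (x.1 : ℝ) ^ 2) (0, h) ≤
      1 / (2 * Real.sqrt t) * t := by
    refine mul_le_mul_of_nonneg_left ?_ (by positivity)
    simpa using h4
  have h6 : 1 / (2 * Real.sqrt t) * t = Real.sqrt t / 2 := by
    rw [div_mul_eq_mul_div, one_mul, div_eq_div_iff (by positivity) (by norm_num)]
    nlinarith
  linarith

theorem uu_add (t k : ℕ) : uu (t + k) = av^[t] (uu k) := by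
  induction t with
  | zero => rw [Nat.zero_add]; rfl
  | succ t ih =>
    rw [Function.iterate_succ_apply', ← ih, Nat.add_right_comm]
    rfl

theorem first {a b e : ℝ} (ha : 0 ≤ a) (hb : 0 ≤ b) {k : ℕ}
    (hu : ∀ x : ℕ × ℤ, uu k x ≤ a * x.1 + b * qq x + e) {t : ℕ} (ht : 1 ≤ t) {h : ℤ}
    (hh : (97 / 100 : ℝ) ^ t * Real.sqrt |(h : ℝ)| ≤ 1) :
    uu (t + k) (0, h) ≤ a * Real.sqrt t + 22 * b + e := by
  rw [uu_add]
  have h1 : av^[t] (uu k) (0, h) ≤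
      av^[t] (fun s => a * (fun x : ℕ × ℤ => (x.1 : ℝ)) s + b * qq s + e) (0, h) :=
    avn_mono52 hu t (0, h)
  rw [avn_lin52] at h1
  have h2 := mul_le_mul_of_nonneg_left (avn_c52 ht h) ha
  have h3 : av^[t] qq (0, h) ≤ 22 := by
    have h4 := avn_qq52 t (0, h)
    have h5 : qq (0, h) = Real.sqrt |(h : ℝ)| := by
      unfold qq Zs
      simp
    rw [h5] at h4
    linarith
  have h6 := mul_le_mul_of_nonneg_left h3 hb
  linarith

end Pool.Agent.Helper8.CO
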