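import Pool.Agent.Helper8.CO.ParA
import Pool.Agent.Helper8.CO.Ph

/-!
# CO-PARB: the bound for a pair `(n, n + h)`

It is enough to treat `0 ≤ c < 1 / 2` (`k ^ (-c)` decreases in `c` for `k ≥ 1`). `D` from `uu_rate_all`. Put `R = 1 + log (1 + |h|) ≥ 1`,
`t = ⌈17 log (1 + |h|)⌉₊ + 1`, so `1 ≤ t ≤ 17 R + 2 ≤ 25 R`, `√t ≤ 5 √R`, and `0.97 ^ t √|h| ≤ 1` (for `h ≠ 0`: `log 0.97 ≤ -0.03`, so
`t log 0.97 + 1 / 2 log |h| ≤ (-0.51 + 0.5) log (1 + |h|) ≤ 0`).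
If `2 t ≤ k`, put `k' = k - t ≥ k / 2`: by `uu_rate_all`, `uu k' x ≤ D k' ^ (-c) (x.1 + qq x + 1)`, so by `first` (`a = b = e = D k' ^ (-c)`)
`uu k (0, h) ≤ D k' ^ (-c) (√t + 23) ≤ 24 D √t k' ^ (-c) ≤ 24 D * 5 √R * 2 k ^ (-c)` (`k' ^ (-c) ≤ 2 ^ c k ^ (-c) ≤ 2 k ^ (-c)`).
If `2 t > k`: `√R k ^ (-c) ≥ √t / 5 * k ^ (-c) ≥ √(k / 2) k ^ (-c) / 5 ≥ 1 / 8`, and `uu ≤ 1`: `C ≥ 8` is enough.
-/

set_option autoImplicit false

namespace Pool.Agent.Helper8.CO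

open Finset

private theorem uu_rate0_89 {c : ℝ} (h0 : 0 ≤ c) (hc : c < 1 / 2) : ∃ C : ℝ, 0 < C ∧ ∀ (h : ℤ) (k : ℕ), 1 ≤ k →
    uu k (0, h) ≤ C * Real.sqrt (1 + Real.log (1 + |(h : ℝ)|)) * (k : ℝ) ^ (-c) := by
  obtain ⟨D, hD, hu⟩ := uu_rate_all hc
  refine ⟨240 * D + 8, by positivity, fun h k hk => ?_⟩
  have hk0 : (0 : ℝ) < k := by exact_mod_cast hk
  have hk1 : (1 : ℝ) ≤ k := by exact_mod_cast hk
  have hkc : 0 < (k : ℝ) ^ (-c) := Real.rpow_pos_of_pos hk0 _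
  by_cases hh : h = 0
  · subst hh
    rw [uu_merged]
    positivity
  have hh1 : (1 : ℝ) ≤ |(h : ℝ)| := by
    have := Int.one_le_abs hh
    exact_mod_cast this
  obtain ⟨l, hl⟩ : ∃ l, l = Real.log (1 + |(h : ℝ)|) := ⟨_, rfl⟩
  have hl0 : 0 < l := by
    rw [hl]
    exact Real.log_pos (by linarith)
  rw [← hl]
  obtain ⟨t, htd⟩ : ∃ t : ℕ, t = ⌈17 * l⌉₊ + 1 := ⟨_, rfl⟩
  have ht1 : 1 ≤ t := by omega
  have htl : 17 * l ≤ t := by
    have := Nat.le_ceil (17 * l)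
    rw [htd]
    push_cast
    linarith
  have htu : (t : ℝ) ≤ 25 * (1 + l) := by
    have := Nat.ceil_lt_add_one (show 0 ≤ 17 * l by positivity)
    rw [htd]
    push_cast
    linarith
  have ht0 : (1 : ℝ) ≤ t := by exact_mod_cast ht1
  have hst : Real.sqrt t ≤ 5 * Real.sqrt (1 + l) := by
    have h1 : Real.sqrt t ≤ Real.sqrt (25 * (1 + l)) := Real.sqrt_le_sqrt htu
    rw [Real.sqrt_mul (by norm_num)] at h1
    have h2 : Real.sqrt 25 = 5 := by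
      rw [show (25 : ℝ) = 5 ^ 2 by norm_num, Real.sqrt_sq (by norm_num)]
    rwa [h2] at h1
  have hst1 : 1 ≤ Real.sqrt t := Real.one_le_sqrt.2 ht0
  have hR0 : 0 < Real.sqrt (1 + l) := Real.sqrt_pos.2 (by linarith)
  have hexp : (97 / 100 : ℝ) ^ t * Real.sqrt |(h : ℝ)| ≤ 1 := by
    have h1 : (97 / 100 : ℝ) ≤ Real.exp (-(3 / 100)) := by
      have := Real.one_sub_le_exp_neg (3 / 100)
      linarith
    have h2 : (97 / 100 : ℝ) ^ t ≤ Real.exp (-(l / 2)) := by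
      calc (97 / 100 : ℝ) ^ t ≤ Real.exp (-(3 / 100)) ^ t := pow_le_pow_left₀ (by norm_num) h1 t
        _ = Real.exp (t * (-(3 / 100))) := by rw [← Real.exp_nat_mul]
        _ ≤ Real.exp (-(l / 2)) := Real.exp_le_exp.2 (by nlinarith)
    have h3 : Real.sqrt |(h : ℝ)| ≤ Real.exp (l / 2) := by
      rw [Real.sqrt_le_left (Real.exp_pos _).le, ← Real.exp_nat_mul]
      have h4 : Real.exp (((2 : ℕ) : ℝ) * (l / 2)) = 1 + |(h : ℝ)| := by
        rw [show ((2 : ℕ) : ℝ) * (l / 2) = l by push_cast; ring, hl, Real.exp_log (by linarith)]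
      rw [h4]
      linarith
    calc (97 / 100 : ℝ) ^ t * Real.sqrt |(h : ℝ)| ≤ Real.exp (-(l / 2)) * Real.exp (l / 2) :=
          mul_le_mul h2 h3 (Real.sqrt_nonneg _) (Real.exp_pos _).le
      _ = 1 := by rw [← Real.exp_add, neg_add_cancel, Real.exp_zero]
  rcases Nat.lt_or_ge k (2 * t) with hkt | hkt
  · -- `k < 2 t`
    have h1 := uu_le_one k (0, h)
    have hkt' : (k : ℝ) ≤ 2 * t := by exact_mod_cast hkt.le
    have h2 : Real.sqrt k ≤ 8 * Real.sqrt (1 + l) := by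
      have h3 : Real.sqrt k ≤ Real.sqrt (2 * t) := Real.sqrt_le_sqrt hkt'
      have h4 : Real.sqrt (2 * t) ≤ 3 / 2 * Real.sqrt t := by
        rw [Real.sqrt_mul (by norm_num)]
        refine mul_le_mul_of_nonneg_right ?_ (Real.sqrt_nonneg _)
        rw [Real.sqrt_le_left (by norm_num)]
        norm_num
      linarith
    have h5 : 1 ≤ Real.sqrt k * (k : ℝ) ^ (-c) := by
      rw [Real.sqrt_eq_rpow, ← Real.rpow_add hk0]
      exact Real.one_le_rpow hk1 (by linarith)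
    have h6 : Real.sqrt k * (k : ℝ) ^ (-c) ≤ 8 * Real.sqrt (1 + l) * (k : ℝ) ^ (-c) :=
      mul_le_mul_of_nonneg_right h2 hkc.le
    have h7 : 0 ≤ 240 * D * (Real.sqrt (1 + l) * (k : ℝ) ^ (-c)) := by positivity
    nlinarith
  · -- `2 t ≤ k`
    obtain ⟨k', hk'⟩ : ∃ k', k = t + k' := ⟨k - t, by omega⟩
    have hk'1 : 1 ≤ k' := by omega
    have hk'2 : (k : ℝ) / 2 ≤ k' := by
      have : k ≤ 2 * k' := by omega
      have h1 : (k : ℝ) ≤ 2 * k' := by exact_mod_cast this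
      linarith
    obtain ⟨a, ha⟩ : ∃ a, a = D * (k' : ℝ) ^ (-c) := ⟨_, rfl⟩
    have ha0 : 0 ≤ a := by
      rw [ha]
      positivity
    have h1 : uu k (0, h) ≤ a * Real.sqrt t + 22 * a + a := by
      rw [hk']
      refine first ha0 ha0 (fun x => ?_) ht1 hexp
      have h2 := hu k' x hk'1
      rw [← ha] at h2
      linarith
    have h2 : (k' : ℝ) ^ (-c) ≤ 2 * (k : ℝ) ^ (-c) := by
      have h3 : (k' : ℝ) ^ (-c) ≤ ((k : ℝ) / 2) ^ (-c) :=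
        Real.rpow_le_rpow_of_nonpos (by positivity) hk'2 (by linarith)
      have h4 : ((k : ℝ) / 2) ^ (-c) = (2 : ℝ) ^ c * (k : ℝ) ^ (-c) := by
        rw [Real.div_rpow hk0.le (by norm_num), Real.rpow_neg (by norm_num : (0 : ℝ) ≤ 2)]
        field_simp
      have h5 : (2 : ℝ) ^ c ≤ 2 := by
        calc (2 : ℝ) ^ c ≤ (2 : ℝ) ^ (1 : ℝ) := Real.rpow_le_rpow_of_exponent_le (by norm_num) (by linarith)
          _ = 2 := Real.rpow_one 2
      rw [h4] at h3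
      exact h3.trans (mul_le_mul_of_nonneg_right h5 hkc.le)
    have h3 : a ≤ 2 * D * (k : ℝ) ^ (-c) := by
      rw [ha]
      nlinarith
    have h4 : a * Real.sqrt t + 22 * a + a ≤ 24 * (a * Real.sqrt t) := by nlinarith
    have h5 : a * Real.sqrt t ≤ (2 * D * (k : ℝ) ^ (-c)) * (5 * Real.sqrt (1 + l)) :=
      mul_le_mul h3 hst (Real.sqrt_nonneg _) (by positivity)
    have h6 : 0 ≤ 8 * (Real.sqrt (1 + l) * (k : ℝ) ^ (-c)) := by positivity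
    nlinarith

theorem uu_rate {c : ℝ} (hc : c < 1 / 2) : ∃ C : ℝ, 0 < C ∧ ∀ (h : ℤ) (k : ℕ), 1 ≤ k →
    uu k (0, h) ≤ C * Real.sqrt (1 + Real.log (1 + |(h : ℝ)|)) * (k : ℝ) ^ (-c) := by
  obtain ⟨C, hC, h⟩ := uu_rate0_89 (le_max_right c 0) (max_lt hc (by norm_num))
  refine ⟨C, hC, fun z k hk => (h z k hk).trans ?_⟩
  have hk1 : (1 : ℝ) ≤ k := by exact_mod_cast hk
  refine mul_le_mul_of_nonneg_left ?_ (by positivity)
  exact Real.rpow_le_rpow_of_exponent_le hk1 (neg_le_neg (le_max_left c 0))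

end Pool.Agent.Helper8.CO
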