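import Pool.Agent.Helper68.Moeller.Basic

/-!
# Coalescence of the orbits of `n` and `n + h`: the Markov chain of a pair

`T n = n / 2` (`n` even), `T n = (3 n - ρ) / 2` (`n` odd), `ρ` odd. For two integers `y`, `y' = 3 ^ c y + ρ β` (the point `y'` has had
`c` more odd steps than `y`) the state is `(c, β)`. If the digit `y mod 2` is `0` (`1`) then the next state is `nx0` (`nx1`); at
`c = 0`, `β` odd, `y` odd the roles of the two points are exchanged. The digit is uniform, so `av f s` is the expected value of `f` after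
one step. `(0, 0)` means that the orbits have merged; it is absorbing. `uu k s` is the probability that the orbits have not merged
after `k` steps.
-/

set_option autoImplicit false

namespace Pool.Agent.Helper8.CO

open Pool.Agent.Helper68.Moeller Finset

/-- The state after the digit `0`. -/
def nx0 (s : ℕ × ℤ) : ℕ × ℤ :=
  if Even s.2 then (s.1, s.2 / 2) else (s.1 + 1, (3 * s.2 - 1) / 2)

/-- The state after the digit `1`. -/
def nx1 (s : ℕ × ℤ) : ℕ × ℤ :=
  if Even s.2 then (s.1, (3 * s.2 + (3 : ℤ) ^ s.1 - 1) / 2)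
  else if s.1 = 0 then (1, -((3 * s.2 + 1) / 2))
  else (s.1 - 1, (s.2 + (3 : ℤ) ^ (s.1 - 1)) / 2)

/-- The mean of `f` after one step. -/
noncomputable def av (f : ℕ × ℤ → ℝ) (s : ℕ × ℤ) : ℝ := (f (nx0 s) + f (nx1 s)) / 2

/-- The probability that the orbits have not merged after `k` steps. -/
noncomputable def uu : ℕ → ℕ × ℤ → ℝ
  | 0 => fun s => if s = (0, 0) then 0 else 1
  | k + 1 => av (uu k)

theorem nx0_even {c : ℕ} {b : ℤ} (h : Even b) : nx0 (c, b) = (c, b / 2) := if_pos h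

theorem nx0_odd {c : ℕ} {b : ℤ} (h : ¬ Even b) : nx0 (c, b) = (c + 1, (3 * b - 1) / 2) := if_neg h

theorem nx1_even {c : ℕ} {b : ℤ} (h : Even b) :
    nx1 (c, b) = (c, (3 * b + (3 : ℤ) ^ c - 1) / 2) := if_pos h

theorem nx1_odd_zero {b : ℤ} (h : ¬ Even b) : nx1 (0, b) = (1, -((3 * b + 1) / 2)) := by
  rw [nx1, if_neg h, if_pos rfl]

theorem nx1_odd {c : ℕ} {b : ℤ} (h : ¬ Even b) (hc : c ≠ 0) :
    nx1 (c, b) = (c - 1, (b + (3 : ℤ) ^ (c - 1)) / 2) := by
  rw [nx1, if_neg h, if_neg hc]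

theorem nx0_zero : nx0 (0, 0) = (0, 0) := by
  rw [nx0_even (by decide)]; rfl

theorem nx1_zero : nx1 (0, 0) = (0, 0) := by
  rw [nx1_even (by decide)]; rfl

theorem av_zero (f : ℕ × ℤ → ℝ) : av f (0, 0) = f (0, 0) := by
  rw [av, nx0_zero, nx1_zero]; ring

theorem av_mono {f g : ℕ × ℤ → ℝ} (h : ∀ s, f s ≤ g s) (s : ℕ × ℤ) : av f s ≤ av g s := by
  unfold av
  linarith [h (nx0 s), h (nx1 s)]

theorem av_add (f g : ℕ × ℤ → ℝ) (s : ℕ × ℤ) : av (fun t => f t + g t) s = av f s + av g s := by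
  unfold av; ring

theorem av_smul (a : ℝ) (f : ℕ × ℤ → ℝ) (s : ℕ × ℤ) : av (fun t => a * f t) s = a * av f s := by
  unfold av; ring

theorem av_const (a : ℝ) (s : ℕ × ℤ) : av (fun _ => a) s = a := by
  unfold av; ring

theorem av_sum {ι : Type*} (F : Finset ι) (f : ι → ℕ × ℤ → ℝ) (s : ℕ × ℤ) :
    av (fun t => ∑ i ∈ F, f i t) s = ∑ i ∈ F, av (f i) s := by
  unfold av
  rw [← Finset.sum_add_distrib, Finset.sum_div]

theorem uu_succ (k : ℕ) (s : ℕ × ℤ) : uu (k + 1) s = av (uu k) s := rfl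

theorem uu_zero_ne {s : ℕ × ℤ} (h : s ≠ (0, 0)) : uu 0 s = 1 := if_neg h

theorem uu_merged (k : ℕ) : uu k (0, 0) = 0 := by
  induction k with
  | zero => simp [uu]
  | succ k ih => rw [uu_succ, av_zero, ih]

theorem uu_nonneg (k : ℕ) (s : ℕ × ℤ) : 0 ≤ uu k s := by
  induction k generalizing s with
  | zero => unfold uu; split_ifs <;> norm_num
  | succ k ih =>
    rw [uu_succ, av]
    linarith [ih (nx0 s), ih (nx1 s)]

theorem uu_le_one (k : ℕ) (s : ℕ × ℤ) : uu k s ≤ 1 := by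
  induction k generalizing s with
  | zero => unfold uu; split_ifs <;> norm_num
  | succ k ih =>
    rw [uu_succ, av]
    linarith [ih (nx0 s), ih (nx1 s)]

theorem uu_anti_succ (k : ℕ) (s : ℕ × ℤ) : uu (k + 1) s ≤ uu k s := by
  induction k generalizing s with
  | zero =>
    by_cases h : s = (0, 0)
    · subst h; rw [uu_merged, uu_merged]
    · rw [uu_zero_ne h]; exact uu_le_one 1 s
  | succ k ih => exact av_mono ih s

theorem uu_anti {j k : ℕ} (h : j ≤ k) (s : ℕ × ℤ) : uu k s ≤ uu j s := by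
  induction h with
  | refl => exact le_refl _
  | step _ ih => exact (uu_anti_succ _ s).trans ih

/-! ### Size -/

/-- The size of the difference of the two points, in the scale of the first one. -/
noncomputable def Zs (s : ℕ × ℤ) : ℝ := |(s.2 : ℝ)| / 3 ^ s.1

/-- Its square root. -/
noncomputable def qq (s : ℕ × ℤ) : ℝ := Real.sqrt (Zs s)

theorem Zs_nonneg (s : ℕ × ℤ) : 0 ≤ Zs s := by unfold Zs; positivity

theorem qq_nonneg (s : ℕ × ℤ) : 0 ≤ qq s := Real.sqrt_nonneg _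

/-! ### The waiting time for an odd `β` -/

/-- `v_2 (3 ^ c - 1)`. -/
def vv (c : ℕ) : ℕ := padicValNat 2 (3 ^ c - 1)

/-- The expected number of steps until `β` is odd. -/
noncomputable def wt (s : ℕ × ℤ) : ℝ :=
  if s.1 = 0 then (padicValInt 2 s.2 : ℝ)
  else if ((2 : ℤ) ^ vv s.1) ∣ s.2 then (vv s.1 : ℝ) + 1 else (padicValInt 2 s.2 : ℝ)

theorem wt_nonneg (s : ℕ × ℤ) : 0 ≤ wt s := by
  unfold wt; split_ifs <;> positivity

/-! ### Lyapunov function -/

/-- `∑_{j ≤ c} j ^ (-s)`, a concave function of `c` which is about `c ^ (1 - s)`. -/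
noncomputable def ff (s : ℝ) (c : ℕ) : ℝ := ∑ j ∈ range c, ((j : ℝ) + 1) ^ (-s)

/-- A slowly varying weight. -/
noncomputable def gg (c : ℕ) : ℝ := 1 / ((c : ℝ) + 200) ^ 2

/-- The Lyapunov function. -/
noncomputable def Phi (s : ℝ) (x : ℕ × ℤ) : ℝ :=
  ff s x.1 + s / 12 * gg x.1 * (qq x + if x.1 = 0 then 0 else wt x)

theorem ff_zero (s : ℝ) : ff s 0 = 0 := by simp [ff]

theorem ff_succ (s : ℝ) (c : ℕ) : ff s (c + 1) = ff s c + ((c : ℝ) + 1) ^ (-s) := by
  rw [ff, sum_range_succ]; rfl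

theorem gg_pos (c : ℕ) : 0 < gg c := by unfold gg; positivity

/-- The function for the exit time from `c < M`. -/
noncomputable def Fx (M : ℕ) (W : ℝ) (x : ℕ × ℤ) : ℝ :=
  max (1 - (x.1 : ℝ) ^ 2 / (2 * (M : ℝ) ^ 2)) 0 * (1 + wt x / (4 * (M : ℝ) ^ 2 * W))

/-! ### The event -/

/-- After `k` steps the orbits of `y` and `y'` are at the same point, and `y` has made `c` more odd steps. -/
def MM (ρ : ℤ) (k c : ℕ) (y y' : ℤ) : Prop :=
  (T 2 3 (fun _ => ρ))^[k] y = (T 2 3 (fun _ => ρ))^[k] y' ∧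
    cnt 2 3 (fun _ => ρ) k y = cnt 2 3 (fun _ => ρ) k y' + c

end Pool.Agent.Helper8.CO
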