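import Pool.Agent.Helper8.CO.Den
import Pool.Agent.Helper8.CO.ParB

/-!
# CO-WIN: windows

`kk x = ⌊log x / (2 log 2)⌋₊`, so `2 ^ kk x ≤ √x` for `x ≥ 1`.

* `main_count`: for `x ≥ 2` put `k = ⌊log x / log 2⌋₊ ≥ 1`, so `2 ^ k ≤ x`, `k ≥ log x / (2 log 2) ≥ log x / 2` (`⌊y⌋ ≥ y / 2` for `y ≥ 1`) and
  `k ≤ 2 log x`. The set is contained in the set of the `n ∈ (0, ⌊x⌋]` with `¬ MM ρ k 0 n (n + ρ η)`; `den` with `a = 0`, `N = ⌊x⌋₊`, and
  `uu_rate`: `≤ 2 x C √(1 + log (1 + |η|)) k ^ (-c)`, `k ^ (-c) ≤ 2 ^ |c| (log x) ^ (-c)`.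
* `win`: let `J = ⌊(log x) ^ c⌋₊`, `k = kk x`. If `h = ρ η`, `|h| ≤ (log x) ^ c` then `|η| ≤ J` (`|ρ| ≥ 1`). If `¬ MM ρ k 0 n (n + h)` then by `MM_chain`
  some `i ∈ [-J, J)` has `¬ MM ρ k 0 (n + ρ i) (n + ρ (i + 1))`; for given `i` the number of such `0 < n ≤ x` is at most the number of
  the `n' ∈ (ρ i, ρ i + ⌊x⌋]` with `¬ MM ρ k 0 n' (n' + ρ * 1)`, which is `≤ (x + √x) uu k (0, 1) ≤ 2 x C √(1 + log 2) k ^ (-c')`,
  `c' = (c + 1 / 2) / 2` (`den`, `uu_rate`). The sum over the `2 J` values of `i` is `≤ C' x (log x) ^ (c - c')`, because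
  `k ≥ (log x) / 2` for large `x` (`1 / (2 log 2) > 0.72`). So it is `≤ ε x` for large `x`.
-/

set_option autoImplicit false

namespace Pool.Agent.Helper8.CO

open Pool.Agent.Helper68.Moeller Finset

variable {ρ : ℤ}

/-- Half of the number of the binary digits of `x`. -/
noncomputable def kk (x : ℝ) : ℕ := ⌊Real.log x / (2 * Real.log 2)⌋₊

theorem two_pow_kk_le {x : ℝ} (hx : 1 ≤ x) : (2 : ℝ) ^ kk x ≤ Real.sqrt x := by
  have hx0 : 0 < x := by linarith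
  have hl2 : 0 < Real.log 2 := Real.log_pos (by norm_num)
  have h1 : (kk x : ℝ) ≤ Real.log x / (2 * Real.log 2) :=
    Nat.floor_le (div_nonneg (Real.log_nonneg hx) (by positivity))
  rw [le_div_iff₀ (by positivity)] at h1
  apply Real.le_sqrt_of_sq_le
  have h2 : ((2 : ℝ) ^ kk x) ^ 2 = Real.exp (kk x * (2 * Real.log 2)) := by
    rw [← Real.rpow_natCast 2 (kk x), ← Real.rpow_natCast _ 2, ← Real.rpow_mul (by norm_num),
      Real.rpow_def_of_pos (by norm_num)]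
    congr 1
    push_cast
    ring
  rw [h2]
  exact (Real.exp_le_exp.2 h1).trans (Real.exp_log hx0).le

private lemma wn_den (hρ : Odd ρ) (η : ℤ) (k : ℕ) (a : ℤ) (N : ℕ) {S : Set ℤ}
    (hS : ∀ n ∈ S, a < n ∧ n ≤ a + N ∧ ¬ MM ρ k 0 n (n + ρ * η)) :
    (S.ncard : ℝ) ≤ (N + 2 ^ k) * uu k (0, η) := by
  classical
  refine le_trans (Nat.cast_le.2 ?_) (den hρ η k a N)
  rw [← Set.ncard_coe_finset]
  refine Set.ncard_le_ncard (fun n hn => ?_) (Finset.finite_toSet _)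
  obtain ⟨h1, h2, h3⟩ := hS n hn
  rw [Finset.mem_coe, Finset.mem_filter, Finset.mem_Ioc]
  exact ⟨⟨h1, h2⟩, h3⟩

private lemma wn_floor {y : ℝ} (hy : 1 ≤ y) : y / 2 ≤ (⌊y⌋₊ : ℝ) := by
  have h1 := Nat.lt_floor_add_one y
  have h2 : (1 : ℝ) ≤ (⌊y⌋₊ : ℝ) := by
    have : 1 ≤ ⌊y⌋₊ := (Nat.one_le_floor_iff y).2 hy
    exact_mod_cast this
  linarith

private lemma wn_le {x : ℝ} (hx : 0 ≤ x) {n : ℤ} (h : (n : ℝ) ≤ x) : n ≤ 0 + (⌊x⌋₊ : ℤ) := by
  rw [zero_add, Int.natCast_floor_eq_floor hx]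
  exact Int.le_floor.2 h

theorem main_count (hρ : Odd ρ) {c : ℝ} (hc : c < 1 / 2) : ∃ C : ℝ, 0 < C ∧
    ∀ (x : ℝ) (η : ℤ), 2 ≤ x →
    ({n : ℤ | 0 < n ∧ (n : ℝ) ≤ x ∧ ¬ ∃ k : ℕ, (2 : ℝ) ^ k ≤ x ∧ MM ρ k 0 n (n + ρ * η)}.ncard : ℝ) ≤
      C * x * Real.sqrt (1 + Real.log (1 + |(η : ℝ)|)) * Real.log x ^ (-c) := by
  obtain ⟨C₀, hC₀, hr⟩ := uu_rate hc
  refine ⟨2 * C₀ * 2 ^ |c|, by positivity, fun x η hx => ?_⟩
  have hx0 : 0 < x := by linarith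
  have hl2 : 0 < Real.log 2 := Real.log_pos (by norm_num)
  have hl21 : Real.log 2 ≤ 1 := by linarith [Real.log_two_lt_d9]
  have hl22 : 1 / 2 ≤ Real.log 2 := by linarith [Real.log_two_gt_d9]
  have hlx : 0 < Real.log x := Real.log_pos (by linarith)
  set k : ℕ := ⌊Real.log x / Real.log 2⌋₊ with hk
  have hy : 1 ≤ Real.log x / Real.log 2 := by
    rw [le_div_iff₀ hl2, one_mul]
    exact Real.log_le_log (by norm_num) hx
  have hk1 : 1 ≤ k := (Nat.one_le_floor_iff _).2 hy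
  have hkle : (k : ℝ) ≤ Real.log x / Real.log 2 := Nat.floor_le (by positivity)
  have hkge : Real.log x / Real.log 2 / 2 ≤ k := wn_floor hy
  have hk2 : (2 : ℝ) ^ k ≤ x := by
    rw [le_div_iff₀ hl2] at hkle
    rw [← Real.rpow_natCast, Real.rpow_def_of_pos (by norm_num)]
    exact (Real.exp_le_exp.2 (by linarith)).trans (Real.exp_log hx0).le
  have hk3 : (k : ℝ) ≤ 2 * Real.log x := by
    refine hkle.trans ?_
    rw [div_le_iff₀ hl2]
    nlinarith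
  have hk4 : Real.log x / 2 ≤ k := by
    refine le_trans ?_ hkge
    rw [div_div, mul_comm, ← div_div]
    rw [le_div_iff₀ hl2]
    have : Real.log x / 2 * Real.log 2 ≤ Real.log x / 2 * 1 := mul_le_mul_of_nonneg_left hl21 (by positivity)
    linarith
  have hk0 : (0 : ℝ) < k := by exact_mod_cast hk1
  have hkc : (k : ℝ) ^ (-c) ≤ 2 ^ |c| * Real.log x ^ (-c) := by
    rcases le_total 0 c with h | h
    · rw [abs_of_nonneg h]
      calc (k : ℝ) ^ (-c) ≤ (Real.log x / 2) ^ (-c) :=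
            Real.rpow_le_rpow_of_nonpos (by positivity) hk4 (by linarith)
        _ = 2 ^ c * Real.log x ^ (-c) := by
            rw [div_eq_mul_inv, Real.mul_rpow hlx.le (by norm_num), Real.inv_rpow (by norm_num),
              ← Real.rpow_neg (by norm_num), neg_neg, mul_comm]
    · rw [abs_of_nonpos h]
      calc (k : ℝ) ^ (-c) ≤ (2 * Real.log x) ^ (-c) := Real.rpow_le_rpow hk0.le hk3 (by linarith)
        _ = 2 ^ (-c) * Real.log x ^ (-c) := Real.mul_rpow (by norm_num) hlx.le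
  have h1 := wn_den hρ η k 0 ⌊x⌋₊
    (S := {n : ℤ | 0 < n ∧ (n : ℝ) ≤ x ∧ ¬ ∃ k : ℕ, (2 : ℝ) ^ k ≤ x ∧ MM ρ k 0 n (n + ρ * η)})
    (fun n hn => ⟨hn.1, wn_le hx0.le hn.2.1, fun h => hn.2.2 ⟨k, hk2, h⟩⟩)
  have h2 : ((⌊x⌋₊ : ℝ) + 2 ^ k) ≤ 2 * x := by linarith [Nat.floor_le hx0.le]
  have h3 := hr η k hk1
  have hs : 0 ≤ Real.sqrt (1 + Real.log (1 + |(η : ℝ)|)) := Real.sqrt_nonneg _
  refine h1.trans ?_
  calc ((⌊x⌋₊ : ℝ) + 2 ^ k) * uu k (0, η) ≤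
        (2 * x) * (C₀ * Real.sqrt (1 + Real.log (1 + |(η : ℝ)|)) * (2 ^ |c| * Real.log x ^ (-c))) := by
        refine mul_le_mul h2 (h3.trans ?_) (uu_nonneg _ _) (by positivity)
        exact mul_le_mul_of_nonneg_left hkc (by positivity)
    _ = 2 * C₀ * 2 ^ |c| * x * Real.sqrt (1 + Real.log (1 + |(η : ℝ)|)) * Real.log x ^ (-c) := by ring

theorem win (hρ : Odd ρ) {c : ℝ} (hc0 : 0 < c) (hc : c < 1 / 2) {ε : ℝ} (hε : 0 < ε) :
    ∃ X : ℝ, ∀ x : ℝ, X ≤ x →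
    ({n : ℤ | 0 < n ∧ (n : ℝ) ≤ x ∧ ∃ h : ℤ, ρ ∣ h ∧ |(h : ℝ)| ≤ Real.log x ^ c ∧
      ¬ MM ρ (kk x) 0 n (n + h)}.ncard : ℝ) ≤ ε * x := by
  set c' : ℝ := (c + 1 / 2) / 2 with hc'
  have hcc : c < c' := by
    rw [hc']
    linarith
  have hc'2 : c' < 1 / 2 := by
    rw [hc']
    linarith
  have hc'0 : 0 < c' := hc0.trans hcc
  obtain ⟨C₀, hC₀, hr⟩ := uu_rate hc'2
  refine ⟨Real.exp (max 2 ((16 * C₀ / ε) ^ (1 / (c' - c)))), fun x hx => ?_⟩
  have hx0 : 0 < x := (Real.exp_pos _).trans_le hx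
  have hLx : max 2 ((16 * C₀ / ε) ^ (1 / (c' - c))) ≤ Real.log x := (Real.le_log_iff_exp_le hx0).2 hx
  set L : ℝ := Real.log x with hL
  have hL2 : 2 ≤ L := (le_max_left _ _).trans hLx
  have hLe : (16 * C₀ / ε) ^ (1 / (c' - c)) ≤ L := (le_max_right _ _).trans hLx
  have hL0 : 0 < L := by linarith
  have hx1 : 1 ≤ x := by
    by_contra h
    rw [not_le] at h
    have := Real.log_nonpos hx0.le h.le
    linarith
  have hl2 : 0 < Real.log 2 := Real.log_pos (by norm_num)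
  have hl21 : Real.log 2 ≤ 1 := by linarith [Real.log_two_lt_d9]
  set k : ℕ := kk x with hk
  have hy : 1 ≤ L / (2 * Real.log 2) := by
    rw [le_div_iff₀ (by positivity)]
    linarith
  have hk1 : 1 ≤ k := (Nat.one_le_floor_iff _).2 hy
  have hkge : L / (2 * Real.log 2) / 2 ≤ k := wn_floor hy
  have hk4 : L / 4 ≤ k := by
    refine le_trans ?_ hkge
    rw [div_div, div_le_div_iff₀ (by norm_num) (by positivity)]
    nlinarith
  have hkc : (k : ℝ) ^ (-c') ≤ 2 * L ^ (-c') := by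
    calc (k : ℝ) ^ (-c') ≤ (L / 4) ^ (-c') := Real.rpow_le_rpow_of_nonpos (by positivity) hk4 (by linarith)
      _ = 4 ^ c' * L ^ (-c') := by
          rw [div_eq_mul_inv, Real.mul_rpow hL0.le (by norm_num), Real.inv_rpow (by norm_num),
            ← Real.rpow_neg (by norm_num), neg_neg, mul_comm]
      _ ≤ 2 * L ^ (-c') := by
          refine mul_le_mul_of_nonneg_right ?_ (by positivity)
          calc (4 : ℝ) ^ c' ≤ (4 : ℝ) ^ (1 / 2 : ℝ) := Real.rpow_le_rpow_of_exponent_le (by norm_num) hc'2.le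
            _ = 2 := by
              rw [show (4 : ℝ) = 2 ^ (2 : ℝ) by norm_num, ← Real.rpow_mul (by norm_num)]
              norm_num
  have hpow : (2 : ℝ) ^ k ≤ x := by
    refine (two_pow_kk_le hx1).trans ?_
    rw [Real.sqrt_le_left hx0.le]
    nlinarith
  set J : ℕ := ⌊L ^ c⌋₊ with hJ
  have hJle : (J : ℝ) ≤ L ^ c := Nat.floor_le (by positivity)
  have hu : uu k (0, 1) ≤ C₀ * 2 * (2 * L ^ (-c')) := by
    have h1 := hr 1 k hk1
    refine h1.trans ?_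
    have h2 : Real.sqrt (1 + Real.log (1 + |((1 : ℤ) : ℝ)|)) ≤ 2 := by
      rw [Real.sqrt_le_left (by norm_num)]
      norm_num
      linarith
    have h3 : C₀ * Real.sqrt (1 + Real.log (1 + |((1 : ℤ) : ℝ)|)) ≤ C₀ * 2 :=
      mul_le_mul_of_nonneg_left h2 hC₀.le
    exact mul_le_mul h3 hkc (by positivity) (by positivity)
  let S : ℤ → Set ℤ := fun i => {n : ℤ | 0 < n ∧ (n : ℝ) ≤ x ∧ ¬ MM ρ k 0 (n + ρ * i) (n + ρ * (i + 1))}
  have hfin : ∀ i, (S i).Finite := by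
    intro i
    refine (Set.finite_Icc (1 : ℤ) ⌊x⌋).subset fun n hn => ?_
    exact ⟨hn.1, Int.le_floor.2 hn.2.1⟩
  have hSi : ∀ i, ((S i).ncard : ℝ) ≤ (2 * x) * (C₀ * 2 * (2 * L ^ (-c'))) := by
    intro i
    have hinj : Function.Injective (fun n : ℤ => n + ρ * i) := fun a b h => by
      have h' : a + ρ * i = b + ρ * i := h
      exact add_right_cancel h'
    have h1 := wn_den hρ 1 k (ρ * i) ⌊x⌋₊ (S := (fun n : ℤ => n + ρ * i) '' S i) (by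
      rintro _ ⟨n, ⟨hn1, hn2, hn3⟩, rfl⟩
      have h2 := wn_le hx0.le hn2
      refine ⟨by simp only; linarith, by simp only; linarith, ?_⟩
      have e : n + ρ * i + ρ * 1 = n + ρ * (i + 1) := by ring
      simp only
      rw [e]
      exact hn3)
    rw [Set.ncard_image_of_injective _ hinj] at h1
    refine h1.trans (mul_le_mul ?_ hu (uu_nonneg _ _) (by positivity))
    linarith [Nat.floor_le hx0.le]
  have hsub : {n : ℤ | 0 < n ∧ (n : ℝ) ≤ x ∧ ∃ h : ℤ, ρ ∣ h ∧ |(h : ℝ)| ≤ L ^ c ∧ ¬ MM ρ k 0 n (n + h)} ⊆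
      ⋃ i ∈ Finset.Ico (-(J : ℤ)) J, S i := by
    rintro n ⟨hn1, hn2, h, ⟨η, rfl⟩, hη, hM⟩
    have hρ0 : ρ ≠ 0 := by
      rintro rfl
      exact absurd hρ (by decide)
    have hρ1 : (1 : ℝ) ≤ |(ρ : ℝ)| := by
      have : (1 : ℤ) ≤ |ρ| := Int.one_le_abs hρ0
      exact_mod_cast this
    have hηJ : |η| ≤ J := by
      have h1 : |(η : ℝ)| ≤ L ^ c := by
        refine le_trans ?_ hη
        push_cast
        rw [abs_mul]
        exact le_mul_of_one_le_left (abs_nonneg _) hρ1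
      have h2 : η.natAbs ≤ J := by
        refine Nat.le_floor ?_
        rw [Nat.cast_natAbs, Int.cast_abs]
        exact h1
      rw [Int.abs_eq_natAbs]
      exact_mod_cast h2
    have hex : ∃ i : ℤ, -(J : ℤ) ≤ i ∧ i < J ∧ ¬ MM ρ k 0 (n + ρ * i) (n + ρ * (i + 1)) := by
      by_contra hcon
      push Not at hcon
      exact hM (MM_chain hcon hηJ)
    obtain ⟨i, hi1, hi2, hi3⟩ := hex
    exact Set.mem_biUnion (Finset.mem_coe.2 (Finset.mem_Ico.2 ⟨hi1, hi2⟩)) ⟨hn1, hn2, hi3⟩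
  have hUf : (⋃ i ∈ Finset.Ico (-(J : ℤ)) J, S i).Finite :=
    Set.Finite.biUnion (Finset.finite_toSet _) (fun i _ => hfin i)
  have h1 : ({n : ℤ | 0 < n ∧ (n : ℝ) ≤ x ∧ ∃ h : ℤ, ρ ∣ h ∧ |(h : ℝ)| ≤ L ^ c ∧
      ¬ MM ρ k 0 n (n + h)}.ncard : ℝ) ≤ ∑ i ∈ Finset.Ico (-(J : ℤ)) J, ((S i).ncard : ℝ) := by
    have h2 := (Set.ncard_le_ncard hsub hUf).trans (Finset.set_ncard_biUnion_le _ _)
    exact_mod_cast h2
  refine h1.trans ((Finset.sum_le_card_nsmul _ _ _ fun i _ => hSi i).trans ?_)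
  rw [Int.card_Ico, nsmul_eq_mul]
  have e1 : (((J : ℤ) - -(J : ℤ)).toNat : ℝ) = 2 * J := by
    have : ((J : ℤ) - -(J : ℤ)).toNat = 2 * J := by omega
    rw [this]
    push_cast
    ring
  rw [e1]
  have hfinal : 16 * C₀ * (L ^ c * L ^ (-c')) ≤ ε := by
    have h2 : 16 * C₀ / ε ≤ L ^ (c' - c) := by
      calc 16 * C₀ / ε = ((16 * C₀ / ε) ^ (1 / (c' - c))) ^ (c' - c) := by
            rw [← Real.rpow_mul (by positivity), one_div, inv_mul_cancel₀ (by linarith), Real.rpow_one]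
        _ ≤ L ^ (c' - c) := Real.rpow_le_rpow (by positivity) hLe (by linarith)
    rw [div_le_iff₀ hε] at h2
    have e2 : L ^ c * L ^ (-c') = (L ^ (c' - c))⁻¹ := by
      rw [← Real.rpow_add hL0, ← Real.rpow_neg hL0.le]
      congr 1
      ring
    rw [e2, ← div_eq_mul_inv, div_le_iff₀ (Real.rpow_pos_of_pos hL0 _)]
    linarith
  calc 2 * (J : ℝ) * (2 * x * (C₀ * 2 * (2 * L ^ (-c')))) ≤
        2 * L ^ c * (2 * x * (C₀ * 2 * (2 * L ^ (-c')))) := by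
        refine mul_le_mul_of_nonneg_right ?_ (by positivity)
        linarith
    _ = 16 * C₀ * (L ^ c * L ^ (-c')) * x := by ring
    _ ≤ ε * x := mul_le_mul_of_nonneg_right hfinal hx0.le

end Pool.Agent.Helper8.CO
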