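import Pool.Agent.Helper8.CO.Uni
import Pool.Agent.Helper8.CO.Win

/-!
# CO-WIN2: windows of length `exp ((log x) ^ c)`

`kk x = ⌊log x / (2 log 2)⌋₊`, `2 ^ kk x ≤ √x`. `0 < c < 1 / 2`, `c' = (c + 1 / 2) / 2`, `J = ⌊exp ((log x) ^ c)⌋₊`; if `h = ρ η`, `|h| ≤ exp ((log x) ^ c)` then
`|η| ≤ J` (`|ρ| ≥ 1`). Put `t = ⌈100 log (2 J + 2)⌉₊`, so `(2 J + 1) ^ 2 (0.98) ^ t ≤ 1` (`log 0.98 ≤ -0.02`), and
`t ≤ 100 (log 4 + (log x) ^ c) + 1`, which is `≤ kk x / 2` for large `x`; `k = kk x - t ≥ kk x / 2 ≥ 1`, `k ≥ log x / 6`.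
If all the `n', n' + ρ, …, n' + 2 J ρ`, `n' = n - ρ J`, are at the same point with the same count after `t + k = kk x` steps, then
`MM ρ (kk x) 0 n (n + ρ η)` for all `|η| ≤ J` (`MM_symm`, `MM_trans`, `n = n' + ρ J`, `n + ρ η = n' + ρ (J + η)`). So the number of the bad
`0 < n ≤ x` is at most the number of the bad `n' ∈ (-ρ J, -ρ J + ⌊x⌋]` for the window `2 J`, which by `uni` (exponent `c'`) is at most
`(x + √x) C k ^ (-c') (t + 2) ≤ C' x (log x) ^ (-c') ((log x) ^ c + 1)`, and this is `≤ ε x` for large `x` because `c < c'`.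

`win2_le`: for large `x` and `n ≤ x` the length `exp ((log n) ^ c)`, `n ≥ 3`, is at most `exp ((log x) ^ c)` (monotone).
-/

set_option autoImplicit false

namespace Pool.Agent.Helper8.CO

open Pool.Agent.Helper68.Moeller Finset

variable {ρ : ℤ}

private lemma w2_uni (hρ : Odd ρ) {c : ℝ} (hc : c < 1 / 2) : ∃ C : ℝ, 0 < C ∧
    ∀ (J t k : ℕ) (a : ℤ) (N : ℕ) (S : Set ℤ), 1 ≤ k →
    (∀ n ∈ S, a < n ∧ n ≤ a + N ∧ ¬ ∀ j : ℕ, j ≤ J → MM ρ (t + k) 0 n (n + ρ * j)) →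
    (S.ncard : ℝ) ≤ ((N : ℝ) + 2 ^ (t + k)) * (C * (k : ℝ) ^ (-c) *
        ((t : ℝ) + 1 + ((J : ℝ) + 1) ^ 2 * (98 / 100) ^ t)) := by
  classical
  obtain ⟨C, hC, h⟩ := uni hρ hc
  refine ⟨C, hC, fun J t k a N S hk hS => ?_⟩
  refine le_trans (Nat.cast_le.2 ?_) (h J t k a N hk)
  rw [← Set.ncard_coe_finset]
  refine Set.ncard_le_ncard (fun n hn => ?_) (Finset.finite_toSet _)
  obtain ⟨h1, h2, h3⟩ := hS n hn
  rw [Finset.mem_coe, Finset.mem_filter, Finset.mem_Ioc]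
  exact ⟨⟨h1, h2⟩, h3⟩

theorem win2_rate (hρ : Odd ρ) {c c' : ℝ} (hc0 : 0 < c) (hcc : c < c') (hc'2 : c' < 1 / 2) :
    ∃ C X : ℝ, 0 < C ∧ ∀ x : ℝ, X ≤ x →
    ({n : ℤ | 0 < n ∧ (n : ℝ) ≤ x ∧ ∃ h : ℤ, ρ ∣ h ∧ |(h : ℝ)| ≤ Real.exp (Real.log x ^ c) ∧
      ¬ MM ρ (kk x) 0 n (n + h)}.ncard : ℝ) ≤ C * Real.log x ^ (c - c') * x := by
  have hc'0 : 0 < c' := hc0.trans hcc
  obtain ⟨C₀, hC₀, hr⟩ := w2_uni hρ hc'2
  refine ⟨1818 * C₀, Real.exp (max 8 ((2408 : ℝ) ^ (1 / (1 - c)))), by positivity, fun x hx => ?_⟩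
  have hx0 : 0 < x := (Real.exp_pos _).trans_le hx
  have hLx := (Real.le_log_iff_exp_le hx0).2 hx
  set L : ℝ := Real.log x with hL
  have hL8 : 8 ≤ L := (le_max_left _ _).trans hLx
  have hLd : (2408 : ℝ) ^ (1 / (1 - c)) ≤ L := (le_max_right _ _).trans hLx
  have hL0 : 0 < L := by linarith
  have hx1 : 1 ≤ x := by
    by_contra h
    rw [not_le] at h
    have := Real.log_nonpos hx0.le h.le
    linarith
  have hl2 : 0 < Real.log 2 := Real.log_pos (by norm_num)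
  have hl21 : Real.log 2 ≤ 1 := by linarith [Real.log_two_lt_d9]
  have hLc1 : 1 ≤ L ^ c := Real.one_le_rpow (by linarith) hc0.le
  -- the level `kk x`
  have hy : 1 ≤ L / (2 * Real.log 2) := by
    rw [le_div_iff₀ (by positivity)]
    linarith
  have hkk : L / 4 ≤ (kk x : ℝ) := by
    have h1 := Nat.lt_floor_add_one (L / (2 * Real.log 2))
    have h2 : (1 : ℝ) ≤ (⌊L / (2 * Real.log 2)⌋₊ : ℝ) := by
      have : 1 ≤ ⌊L / (2 * Real.log 2)⌋₊ := (Nat.one_le_floor_iff _).2 hy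
      exact_mod_cast this
    have h3 : L / (2 * Real.log 2) / 2 ≤ (kk x : ℝ) := by
      have e : (kk x : ℝ) = (⌊L / (2 * Real.log 2)⌋₊ : ℝ) := rfl
      rw [e]
      linarith
    refine le_trans ?_ h3
    rw [div_div, div_le_div_iff₀ (by norm_num) (by positivity)]
    nlinarith
  -- the window
  set J : ℕ := ⌊Real.exp (L ^ c)⌋₊ with hJ
  have hJle : (J : ℝ) ≤ Real.exp (L ^ c) := Nat.floor_le (Real.exp_pos _).le
  have hJ0 : (0 : ℝ) ≤ J := Nat.cast_nonneg _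
  have hlogJ : Real.log (2 * J + 2) ≤ 2 + L ^ c := by
    have h1 : (2 : ℝ) * J + 2 ≤ 4 * Real.exp (L ^ c) := by
      have : 1 ≤ Real.exp (L ^ c) := Real.one_le_exp (by linarith)
      linarith
    have h2 := Real.log_le_log (by positivity) h1
    rw [Real.log_mul (by norm_num) (Real.exp_pos _).ne', Real.log_exp] at h2
    have h3 : Real.log 4 = 2 * Real.log 2 := by
      rw [show (4 : ℝ) = 2 ^ 2 by norm_num, Real.log_pow]
      norm_num
    linarith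
  have hlogJ0 : 0 ≤ Real.log (2 * J + 2) := Real.log_nonneg (by linarith)
  set t : ℕ := ⌈100 * Real.log (2 * J + 2)⌉₊ with ht
  have htge : 100 * Real.log (2 * J + 2) ≤ t := Nat.le_ceil _
  have htle : (t : ℝ) ≤ 301 * L ^ c := by
    have h1 := Nat.ceil_lt_add_one (by positivity : 0 ≤ 100 * Real.log (2 * J + 2))
    have h2 : (t : ℝ) < 100 * Real.log (2 * J + 2) + 1 := h1
    linarith
  have hsmall : (((2 * J : ℕ) : ℝ) + 1) ^ 2 * (98 / 100 : ℝ) ^ t ≤ 1 := by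
    have h1 : (98 / 100 : ℝ) ^ t ≤ Real.exp (-(2 * Real.log (2 * J + 2))) := by
      have h2 : (98 / 100 : ℝ) ≤ Real.exp (-(2 / 100)) := by
        have := Real.add_one_le_exp (-(2 / 100 : ℝ))
        linarith
      calc (98 / 100 : ℝ) ^ t ≤ Real.exp (-(2 / 100)) ^ t := pow_le_pow_left₀ (by norm_num) h2 t
        _ = Real.exp (t * (-(2 / 100))) := by rw [← Real.exp_nat_mul]
        _ ≤ Real.exp (-(2 * Real.log (2 * J + 2))) := by
            apply Real.exp_le_exp.2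
            linarith
    have h3 : Real.exp (-(2 * Real.log (2 * J + 2))) = ((2 * (J : ℝ) + 2) ^ 2)⁻¹ := by
      rw [Real.exp_neg, two_mul (Real.log _), Real.exp_add, Real.exp_log (by positivity), ← pow_two]
    rw [h3] at h1
    calc (((2 * J : ℕ) : ℝ) + 1) ^ 2 * (98 / 100 : ℝ) ^ t
        ≤ (((2 * J : ℕ) : ℝ) + 1) ^ 2 * ((2 * (J : ℝ) + 2) ^ 2)⁻¹ :=
          mul_le_mul_of_nonneg_left h1 (by positivity)
      _ ≤ 1 := by
          rw [← div_eq_mul_inv, div_le_one (by positivity)]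
          push_cast
          exact pow_le_pow_left₀ (by positivity) (by linarith) 2
  -- the remaining steps
  have h1c : (2408 : ℝ) ≤ L ^ (1 - c) := by
    calc (2408 : ℝ) = ((2408 : ℝ) ^ (1 / (1 - c))) ^ (1 - c) := by
          rw [← Real.rpow_mul (by norm_num), one_div, inv_mul_cancel₀ (by linarith), Real.rpow_one]
      _ ≤ L ^ (1 - c) := Real.rpow_le_rpow (by positivity) hLd (by linarith)
  have h2c : 2408 * L ^ c ≤ L := by
    have e : L = L ^ (1 - c) * L ^ c := by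
      rw [← Real.rpow_add hL0]
      norm_num
    calc 2408 * L ^ c ≤ L ^ (1 - c) * L ^ c := mul_le_mul_of_nonneg_right h1c (by positivity)
      _ = L := e.symm
  have htk : (t : ℝ) ≤ (kk x : ℝ) / 2 := by linarith
  have htk' : t ≤ kk x := by
    have : (t : ℝ) ≤ (kk x : ℝ) := by
      have : (0 : ℝ) ≤ kk x := Nat.cast_nonneg _
      linarith
    exact_mod_cast this
  obtain ⟨k, hk⟩ := Nat.exists_eq_add_of_le htk'
  have hkr : (kk x : ℝ) = t + k := by exact_mod_cast hk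
  have hk8 : L / 8 ≤ (k : ℝ) := by linarith
  have hk1 : 1 ≤ k := by
    have : (1 : ℝ) ≤ k := by linarith
    exact_mod_cast this
  have hkc : (k : ℝ) ^ (-c') ≤ 3 * L ^ (-c') := by
    calc (k : ℝ) ^ (-c') ≤ (L / 8) ^ (-c') :=
          Real.rpow_le_rpow_of_nonpos (by positivity) hk8 (by linarith)
      _ = 8 ^ c' * L ^ (-c') := by
          rw [div_eq_mul_inv, Real.mul_rpow hL0.le (by norm_num), Real.inv_rpow (by norm_num),
            ← Real.rpow_neg (by norm_num), neg_neg, mul_comm]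
      _ ≤ 3 * L ^ (-c') := by
          refine mul_le_mul_of_nonneg_right ?_ (by positivity)
          calc (8 : ℝ) ^ c' ≤ (9 : ℝ) ^ c' := Real.rpow_le_rpow (by norm_num) (by norm_num) hc'0.le
            _ ≤ (9 : ℝ) ^ (1 / 2 : ℝ) := Real.rpow_le_rpow_of_exponent_le (by norm_num) hc'2.le
            _ = 3 := by
              rw [show (9 : ℝ) = 3 ^ (2 : ℝ) by norm_num, ← Real.rpow_mul (by norm_num)]
              norm_num
  have hpow : (2 : ℝ) ^ (t + k) ≤ x := by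
    rw [← hk]
    refine (two_pow_kk_le hx1).trans ?_
    rw [Real.sqrt_le_left hx0.le]
    nlinarith
  -- the bad set
  set S : Set ℤ := {n : ℤ | 0 < n ∧ (n : ℝ) ≤ x ∧ ∃ h : ℤ, ρ ∣ h ∧
    |(h : ℝ)| ≤ Real.exp (L ^ c) ∧ ¬ MM ρ (kk x) 0 n (n + h)} with hS
  have hinj : Function.Injective (fun n : ℤ => n - ρ * J) := fun a b h => by
    have h' : a - ρ * J = b - ρ * J := h
    linarith
  have hmain := hr (2 * J) t k (-(ρ * J)) ⌊x⌋₊ ((fun n : ℤ => n - ρ * J) '' S) hk1 (by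
    rintro _ ⟨n, ⟨hn1, hn2, h, ⟨η, rfl⟩, hη, hM⟩, rfl⟩
    have hnx : n ≤ (⌊x⌋₊ : ℤ) := by
      rw [Int.natCast_floor_eq_floor hx0.le]
      exact Int.le_floor.2 hn2
    refine ⟨by simp only; linarith, by simp only; linarith, ?_⟩
    intro hall
    apply hM
    have hρ0 : ρ ≠ 0 := by
      rintro rfl
      exact absurd hρ (by decide)
    have hρ1 : (1 : ℝ) ≤ |(ρ : ℝ)| := by
      have : (1 : ℤ) ≤ |ρ| := Int.one_le_abs hρ0
      exact_mod_cast this
    have hηJ : |η| ≤ J := by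
      have h1 : |(η : ℝ)| ≤ Real.exp (L ^ c) := by
        refine le_trans ?_ hη
        push_cast
        rw [abs_mul]
        exact le_mul_of_one_le_left (abs_nonneg _) hρ1
      have h2 : η.natAbs ≤ J := by
        refine Nat.le_floor ?_
        rw [Nat.cast_natAbs, Int.cast_abs]
        exact h1
      rw [Int.abs_eq_natAbs]
      exact_mod_cast h2
    have h1 := hall J (by omega)
    obtain ⟨hη1, hη2⟩ := abs_le.1 hηJ
    obtain ⟨i, hi⟩ := Int.eq_ofNat_of_zero_le (by linarith : 0 ≤ (J : ℤ) + η)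
    have h2 := hall i (by omega)
    have e1 : n - ρ * J + ρ * (J : ℤ) = n := by ring
    have e2 : n - ρ * J + ρ * (i : ℤ) = n + ρ * η := by
      rw [← hi]
      ring
    simp only at h1 h2
    rw [e1] at h1
    rw [e2] at h2
    rw [hk]
    exact MM_trans (MM_symm h1) h2)
  rw [Set.ncard_image_of_injective _ hinj] at hmain
  have hA : (⌊x⌋₊ : ℝ) + 2 ^ (t + k) ≤ 2 * x := by linarith [Nat.floor_le hx0.le]
  have hB : C₀ * (k : ℝ) ^ (-c') * ((t : ℝ) + 1 + (((2 * J : ℕ) : ℝ) + 1) ^ 2 * (98 / 100) ^ t) ≤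
      C₀ * (3 * L ^ (-c')) * (303 * L ^ c) := by
    refine mul_le_mul (mul_le_mul_of_nonneg_left hkc hC₀.le) (by linarith) (by positivity)
      (by positivity)
  have e2 : L ^ c * L ^ (-c') = L ^ (c - c') := by
    rw [← Real.rpow_add hL0, sub_eq_add_neg]
  calc (S.ncard : ℝ) ≤ ((⌊x⌋₊ : ℝ) + 2 ^ (t + k)) * (C₀ * (k : ℝ) ^ (-c') *
        ((t : ℝ) + 1 + (((2 * J : ℕ) : ℝ) + 1) ^ 2 * (98 / 100) ^ t)) := hmain
    _ ≤ (2 * x) * (C₀ * (3 * L ^ (-c')) * (303 * L ^ c)) :=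
        mul_le_mul hA hB (by positivity) (by positivity)
    _ = 1818 * C₀ * (L ^ c * L ^ (-c')) * x := by ring
    _ = 1818 * C₀ * L ^ (c - c') * x := by rw [e2]

theorem win2 (hρ : Odd ρ) {c : ℝ} (hc0 : 0 < c) (hc : c < 1 / 2) {ε : ℝ} (hε : 0 < ε) :
    ∃ X : ℝ, ∀ x : ℝ, X ≤ x →
    ({n : ℤ | 0 < n ∧ (n : ℝ) ≤ x ∧ ∃ h : ℤ, ρ ∣ h ∧ |(h : ℝ)| ≤ Real.exp (Real.log x ^ c) ∧
      ¬ MM ρ (kk x) 0 n (n + h)}.ncard : ℝ) ≤ ε * x := by
  obtain ⟨C, X, hC, h⟩ := win2_rate hρ hc0 (c' := (c + 1 / 2) / 2) (by linarith) (by linarith)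
  have hlim : Filter.Tendsto (fun x : ℝ => C * Real.log x ^ (c - (c + 1 / 2) / 2)) Filter.atTop
      (nhds 0) := by
    have h1 := (tendsto_rpow_neg_atTop (y := (c + 1 / 2) / 2 - c) (by linarith)).comp
      Real.tendsto_log_atTop
    have h2 := h1.const_mul C
    rw [mul_zero] at h2
    refine h2.congr fun x => ?_
    simp only [Function.comp_apply, neg_sub]
  obtain ⟨X', hX'⟩ := Filter.eventually_atTop.1 (hlim.eventually (gt_mem_nhds hε))
  refine ⟨max (max X X') 1, fun x hx => (h x ?_).trans ?_⟩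
  · exact ((le_max_left _ _).trans (le_max_left _ _)).trans hx
  · have h1 : (1 : ℝ) ≤ x := (le_max_right _ _).trans hx
    exact mul_le_mul_of_nonneg_right
      (hX' x (((le_max_right _ _).trans (le_max_left _ _)).trans hx)).le (by linarith)

end Pool.Agent.Helper8.CO
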