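import Pool.Agent.Helper8.CO.Cnt

/-!
# CO-DEN: from residues to intervals; the relation `MM ρ k 0`

* `den`: `cnt_le` for `c = 0` (`3 ^ 0 * y + ρ η = y + ρ η`), the predicate `n ↦ ¬ MM ρ k 0 n (n + ρ η)` is periodic modulo `2 ^ k`
  (`MM_periodic` with `c = 0`), `card_Ioc_le`: `(N / 2 ^ k + 1) * (2 ^ k uu k (0, η)) = (N + 2 ^ k) uu k (0, η)`.
* `MM_refl`, `MM_symm`, `MM_trans` for `c = 0`: equality of the pairs (point, count).
* `MM_chain`: if `MM` holds for `(n + ρ i, n + ρ (i + 1))` for all `-J ≤ i < J` then it holds for `(n, n + ρ η)` for all `|η| ≤ J`.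
* `orb_gt`: `T x ≥ (x - |ρ|) / 2` for `x ≥ 0`; so `T^[i] n ≥ n / 2 ^ i - |ρ|` as long as the points are `≥ 0`: by induction on `i ≤ k`
  `2 ^ (k - i) (|ρ| + B + 1) - |ρ| ≤ T^[i] n`  (for `i = 0` by hypothesis).
* `MM_mem`: if `G` is invariant in the positive integers, `n, n' ≥ 2 ^ k (|ρ| + 1)` and `MM ρ k 0 n n'` then `n ∈ G ↔ n' ∈ G`: all the
  points `T^[i] n`, `i ≤ k` are positive (`orb_gt` with `B = 0`), so `n ∈ G ↔ T^[k] n ∈ G`.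
-/

set_option autoImplicit false

namespace Pool.Agent.Helper8.CO

open Pool.Agent.Helper68.Moeller Finset Classical

variable {ρ : ℤ}

theorem den (hρ : Odd ρ) (η : ℤ) (k : ℕ) (a : ℤ) (N : ℕ) :
    (((Ioc a (a + N)).filter (fun n => ¬ MM ρ k 0 n (n + ρ * η))).card : ℝ) ≤
      (N + 2 ^ k) * uu k (0, η) := by
  obtain ⟨P, hPd⟩ : ∃ P : ℤ → Prop, P = fun n => ¬ MM ρ k 0 n (n + ρ * η) := ⟨_, rfl⟩
  have hP : ∀ x j : ℤ, P (x + 2 ^ k * j) ↔ P x := by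
    intro x j
    rw [hPd]
    have h1 := MM_periodic hρ k 0 η x j
    rw [pow_zero, one_mul, one_mul] at h1
    exact not_congr h1
  have h1 := card_Ioc_le hP a N
  have h2 := cnt_le hρ k 0 η
  have e1 : (Ioc a (a + N)).filter (fun n => ¬ MM ρ k 0 n (n + ρ * η)) =
      (Ioc a (a + N)).filter P := by
    ext n
    rw [mem_filter, mem_filter, hPd]
  have e2 : (range (2 ^ k)).filter (fun y : ℕ => ¬ MM ρ k 0 y (3 ^ 0 * y + ρ * η)) =
      (range (2 ^ k)).filter (fun y : ℕ => P y) := by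
    ext n
    rw [mem_filter, mem_filter, hPd, pow_zero, one_mul]
  rw [e2] at h2
  rw [e1]
  have h3 : (0 : ℝ) < 2 ^ k := by positivity
  calc _ ≤ ((N : ℝ) / 2 ^ k + 1) * ((range (2 ^ k)).filter (fun y : ℕ => P y)).card := h1
    _ ≤ ((N : ℝ) / 2 ^ k + 1) * (2 ^ k * uu k (0, η)) :=
        mul_le_mul_of_nonneg_left h2 (by positivity)
    _ = (N + 2 ^ k) * uu k (0, η) := by
        field_simp

theorem MM_refl (k : ℕ) (n : ℤ) : MM ρ k 0 n n := ⟨rfl, rfl⟩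

theorem MM_symm {k : ℕ} {n n' : ℤ} (h : MM ρ k 0 n n') : MM ρ k 0 n' n :=
  ⟨h.1.symm, h.2.symm⟩

theorem MM_trans {k : ℕ} {n n' n'' : ℤ} (h : MM ρ k 0 n n') (h' : MM ρ k 0 n' n'') :
    MM ρ k 0 n n'' :=
  ⟨h.1.trans h'.1, h.2.trans h'.2⟩

theorem MM_chain {k J : ℕ} {n : ℤ}
    (h : ∀ i : ℤ, -(J : ℤ) ≤ i → i < J → MM ρ k 0 (n + ρ * i) (n + ρ * (i + 1))) {η : ℤ}
    (hη : |η| ≤ J) : MM ρ k 0 n (n + ρ * η) := by
  have h1 : ∀ m : ℕ, m ≤ J → MM ρ k 0 n (n + ρ * m) ∧ MM ρ k 0 n (n + ρ * (-(m : ℤ))) := by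
    intro m
    induction m with
    | zero =>
      intro _
      rw [Nat.cast_zero, neg_zero, mul_zero, add_zero]
      exact ⟨MM_refl k n, MM_refl k n⟩
    | succ m ih =>
      intro hm
      obtain ⟨h2, h3⟩ := ih (by omega)
      have h4 := h m (by omega) (by omega)
      have h5 := h (-((m : ℤ) + 1)) (by omega) (by omega)
      have e1 : -((m : ℤ) + 1) + 1 = -(m : ℤ) := by ring
      rw [e1] at h5
      push_cast
      exact ⟨MM_trans h2 h4, MM_trans h3 (MM_symm h5)⟩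
  rcases le_total 0 η with h0 | h0
  · obtain ⟨m, rfl⟩ := Int.eq_ofNat_of_zero_le h0
    rw [abs_of_nonneg h0] at hη
    exact (h1 m (by exact_mod_cast hη)).1
  · obtain ⟨m, hm⟩ := Int.eq_ofNat_of_zero_le (neg_nonneg.mpr h0)
    have e1 : η = -(m : ℤ) := by omega
    rw [e1, abs_neg, Nat.abs_cast] at hη
    rw [e1]
    exact (h1 m (by exact_mod_cast hη)).2

private theorem T_ge32 (hρ : Odd ρ) {x : ℤ} (hx : 0 ≤ x) :
    x - |ρ| ≤ 2 * T 2 3 (fun _ => ρ) x := by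
  have h1 := le_abs_self ρ
  have h2 := abs_nonneg ρ
  obtain ⟨m, hm⟩ := hρ
  unfold T
  push_cast
  split_ifs with h
  · omega
  · omega

private theorem orb_ge32 (hρ : Odd ρ) {k : ℕ} {n : ℤ} {B : ℝ} (hB : 0 ≤ B)
    (hn : (2 : ℝ) ^ k * (|(ρ : ℝ)| + B + 1) ≤ n) {i : ℕ} (hi : i ≤ k) :
    (2 : ℝ) ^ (k - i) * (|(ρ : ℝ)| + B + 1) - |(ρ : ℝ)| ≤ ((T 2 3 (fun _ => ρ))^[i] n : ℝ) := by
  have hρ0 := abs_nonneg (ρ : ℝ)
  induction i with
  | zero =>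
    rw [Function.iterate_zero, id_eq, Nat.sub_zero]
    linarith
  | succ i ih =>
    have h1 := ih (by omega)
    rw [Function.iterate_succ', Function.comp_apply]
    generalize (T 2 3 (fun _ => ρ))^[i] n = x at h1 ⊢
    have h2 : (1 : ℝ) ≤ 2 ^ (k - i) := one_le_pow₀ (by norm_num)
    have h3 : (0 : ℝ) ≤ x := by nlinarith
    have h4 : (0 : ℤ) ≤ x := by exact_mod_cast h3
    have h5 := T_ge32 hρ h4
    have h6 : (x : ℝ) - |(ρ : ℝ)| ≤ 2 * ((T 2 3 (fun _ => ρ) x : ℤ) : ℝ) := by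
      have : ((x - |ρ| : ℤ) : ℝ) ≤ ((2 * T 2 3 (fun _ => ρ) x : ℤ) : ℝ) := by exact_mod_cast h5
      push_cast at this
      exact this
    have h7 : (2 : ℝ) ^ (k - i) = 2 * 2 ^ (k - (i + 1)) := by
      rw [← pow_succ']
      congr 1
      omega
    rw [h7] at h1
    linarith

theorem orb_gt (hρ : Odd ρ) {k : ℕ} {n : ℤ} {B : ℝ} (hB : 0 ≤ B)
    (hn : (2 : ℝ) ^ k * (|(ρ : ℝ)| + B + 1) ≤ n) {i : ℕ} (hi : i ≤ k) :
    B < ((T 2 3 (fun _ => ρ))^[i] n : ℝ) := by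
  have h1 := orb_ge32 hρ hB hn hi
  have h2 : (1 : ℝ) ≤ 2 ^ (k - i) := one_le_pow₀ (by norm_num)
  have hρ0 := abs_nonneg (ρ : ℝ)
  nlinarith

private theorem mem_iter32 (hρ : Odd ρ) {G : Set ℤ}
    (hG : ∀ n : ℤ, 0 < n → (n ∈ G ↔ T 2 3 (fun _ => ρ) n ∈ G)) {k : ℕ} {n : ℤ}
    (hn : (2 : ℝ) ^ k * (|(ρ : ℝ)| + 1) ≤ n) : n ∈ G ↔ (T 2 3 (fun _ => ρ))^[k] n ∈ G := by
  have h1 : ∀ i, i ≤ k → (n ∈ G ↔ (T 2 3 (fun _ => ρ))^[i] n ∈ G) := by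
    intro i
    induction i with
    | zero => intro _; rfl
    | succ i ih =>
      intro hi
      rw [ih (by omega), Function.iterate_succ', Function.comp_apply]
      apply hG
      have h2 := orb_gt hρ (le_refl (0 : ℝ)) (k := k) (n := n) (by rw [add_zero]; exact hn)
        (i := i) (by omega)
      exact_mod_cast h2
  exact h1 k le_rfl

theorem MM_mem (hρ : Odd ρ) {G : Set ℤ}
    (hG : ∀ n : ℤ, 0 < n → (n ∈ G ↔ T 2 3 (fun _ => ρ) n ∈ G)) {k : ℕ} {n n' : ℤ}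
    (hn : (2 : ℝ) ^ k * (|(ρ : ℝ)| + 1) ≤ n) (hn' : (2 : ℝ) ^ k * (|(ρ : ℝ)| + 1) ≤ n')
    (h : MM ρ k 0 n n') : n ∈ G ↔ n' ∈ G := by
  rw [mem_iter32 hρ hG hn, mem_iter32 hρ hG hn', h.1]

end Pool.Agent.Helper8.CO
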