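import Pool.Agent.Helper8.CO.Win
import Pool.Agent.Helper28.POSB.Inv

/-!
# CO: almost all `n`
-/

set_option autoImplicit false

namespace Pool.Agent.Helper8.CO

open Pool.Agent.Helper68.Moeller Filter Topology Pool.Agent.Helper8.ND Pool.Agent.Helper28

theorem one_le_log_three : (1 : ℝ) ≤ Real.log 3 := by
  rw [Real.le_log_iff_exp_le (by norm_num)]
  linarith [Real.exp_one_lt_d9]

theorem almost_all {ρ : ℤ} (hρ : Odd ρ) {c : ℝ} (hc : c < 1 / 2) :
    Tendsto (fun x : ℝ => cN {n : ℤ | ∀ h : ℤ, ρ ∣ h → |(h : ℝ)| ≤ Real.log n ^ c →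
      ∃ t : ℕ, MM ρ t 0 n (n + h)} x / x) atTop (𝓝 1) := by
  set A : Set ℤ := {n : ℤ | ∀ h : ℤ, ρ ∣ h → |(h : ℝ)| ≤ Real.log n ^ c →
      ∃ t : ℕ, MM ρ t 0 n (n + h)} with hA
  have h1 : Tendsto (fun x : ℝ => cN (Set.univ : Set ℤ) x / x) atTop (𝓝 1) :=
    POSB.cN_univ_tendsto fun n _ => Set.mem_univ n
  have h2 : Tendsto (fun x : ℝ => cN Aᶜ x / x) atTop (𝓝 0) := by
    rw [Metric.tendsto_atTop]
    intro ε hε
    obtain ⟨X, hX⟩ := win hρ (c := max c (1 / 4)) (lt_max_of_lt_right (by norm_num))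
      (max_lt hc (by norm_num)) (ε := ε / 4) (by positivity)
    refine ⟨max X (max 1 (8 / ε)), fun x hx => ?_⟩
    have hx1 : X ≤ x := (le_max_left _ _).trans hx
    have hx2 : 1 ≤ x := ((le_max_left _ _).trans (le_max_right _ _)).trans hx
    have hx3 : 8 / ε ≤ x := ((le_max_right _ _).trans (le_max_right _ _)).trans hx
    have hx0 : 0 < x := by linarith
    have h3 := hX x hx1
    have hsub : {n : ℤ | n ∈ Aᶜ ∧ 0 < n ∧ (n : ℝ) ≤ x} ⊆
        {n : ℤ | 0 < n ∧ (n : ℝ) ≤ x ∧ ∃ h : ℤ, ρ ∣ h ∧ |(h : ℝ)| ≤ Real.log x ^ max c (1 / 4) ∧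
          ¬ MM ρ (kk x) 0 n (n + h)} ∪ (({1, 2} : Finset ℤ) : Set ℤ) := by
      rintro n ⟨hn, hn0, hnx⟩
      rcases lt_or_ge n 3 with h | h
      · right
        have : n = 1 ∨ n = 2 := by omega
        simpa using this
      · left
        have hn' : ∃ h : ℤ, ρ ∣ h ∧ |(h : ℝ)| ≤ Real.log n ^ c ∧ ∀ t : ℕ, ¬ MM ρ t 0 n (n + h) := by
          by_contra hcon
          apply hn
          intro k hk hkl
          by_contra hno
          exact hcon ⟨k, hk, hkl, fun t ht => hno ⟨t, ht⟩⟩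
        obtain ⟨k, hk, hkl, hno⟩ := hn'
        refine ⟨hn0, hnx, k, hk, hkl.trans ?_, hno _⟩
        have h3n : (3 : ℝ) ≤ n := by exact_mod_cast h
        have hl1 : 1 ≤ Real.log n :=
          one_le_log_three.trans (Real.log_le_log (by norm_num) h3n)
        have hl2 : Real.log n ≤ Real.log x := Real.log_le_log (by linarith) hnx
        calc Real.log n ^ c ≤ Real.log n ^ max c (1 / 4) :=
              Real.rpow_le_rpow_of_exponent_le hl1 (le_max_left _ _)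
          _ ≤ Real.log x ^ max c (1 / 4) :=
              Real.rpow_le_rpow (by linarith) hl2 (le_max_of_le_right (by norm_num))
    have hfin : ({n : ℤ | 0 < n ∧ (n : ℝ) ≤ x ∧ ∃ h : ℤ, ρ ∣ h ∧
        |(h : ℝ)| ≤ Real.log x ^ max c (1 / 4) ∧ ¬ MM ρ (kk x) 0 n (n + h)}).Finite := by
      refine (Set.finite_Icc (1 : ℤ) ⌊x⌋).subset ?_
      rintro n ⟨h1, h2, -⟩
      exact ⟨h1, Int.le_floor.2 h2⟩
    have h4 := Set.ncard_le_ncard hsub (hfin.union (Finset.finite_toSet _))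
    have h5 := Set.ncard_union_le {n : ℤ | 0 < n ∧ (n : ℝ) ≤ x ∧ ∃ h : ℤ, ρ ∣ h ∧
        |(h : ℝ)| ≤ Real.log x ^ max c (1 / 4) ∧ ¬ MM ρ (kk x) 0 n (n + h)}
        (({1, 2} : Finset ℤ) : Set ℤ)
    rw [Set.ncard_coe_finset] at h5
    have h6 : (({1, 2} : Finset ℤ)).card = 2 := rfl
    rw [h6] at h5
    have h7 : cN Aᶜ x ≤ ε / 4 * x + 2 := by
      have h8 : (({n : ℤ | n ∈ Aᶜ ∧ 0 < n ∧ (n : ℝ) ≤ x}.ncard : ℕ) : ℝ) ≤
          ({n : ℤ | 0 < n ∧ (n : ℝ) ≤ x ∧ ∃ h : ℤ, ρ ∣ h ∧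
            |(h : ℝ)| ≤ Real.log x ^ max c (1 / 4) ∧ ¬ MM ρ (kk x) 0 n (n + h)}.ncard : ℝ) + 2 := by
        exact_mod_cast h4.trans h5
      exact h8.trans (by linarith)
    have h9 : (0 : ℝ) ≤ cN Aᶜ x := by unfold cN; positivity
    rw [Real.dist_eq, sub_zero, abs_of_nonneg (by positivity), div_lt_iff₀ hx0]
    have h10 : 8 ≤ ε * x := by
      rw [div_le_iff₀ hε] at hx3
      linarith
    linarith
  have h3 : (fun x : ℝ => cN A x / x) =
      fun x : ℝ => cN (Set.univ : Set ℤ) x / x - cN Aᶜ x / x := by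
    ext x
    rw [← Set.union_compl_self A, POSB.cN_union disjoint_compl_right]
    ring
  rw [h3]
  simpa using h1.sub h2

end Pool.Agent.Helper8.CO
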