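import Pool.Agent.Helper8.CO.Win2
import Pool.Agent.Helper8.CO.Aa
import Pool.Agent.Helper28.POSB.Inv

/-!
# CO: almost all `n`, and the number of the exceptions
-/

set_option autoImplicit false

namespace Pool.Agent.Helper8.CO

open Pool.Agent.Helper68.Moeller Filter Topology Pool.Agent.Helper8.ND Pool.Agent.Helper28

variable {ρ : ℤ}

private theorem bad_fin (x : ℝ) (P : ℤ → Prop) :
    ({n : ℤ | 0 < n ∧ (n : ℝ) ≤ x ∧ P n}).Finite := by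
  refine (Set.finite_Icc (1 : ℤ) ⌊x⌋).subset ?_
  rintro n ⟨h1, h2, -⟩
  exact ⟨h1, Int.le_floor.2 h2⟩

/-- One time for the whole window. -/
theorem window (hρ : Odd ρ) {c c' : ℝ} (hc0 : 0 < c) (hc'0 : 0 < c') (hc : c + c' < 1 / 2) :
    ∃ C : ℝ, 0 < C ∧ ∀ x : ℝ, 2 ≤ x →
    ({n : ℤ | 0 < n ∧ (n : ℝ) ≤ x ∧ ¬ ∃ t : ℕ, (2 : ℝ) ^ t ≤ x ∧ ∀ h : ℤ, ρ ∣ h →
      |(h : ℝ)| ≤ Real.exp (Real.log x ^ c) → MM ρ t 0 n (n + h)}.ncard : ℝ) ≤
      C * x * Real.log x ^ (-c') := by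
  obtain ⟨C, X, hC, h⟩ := win2_rate hρ hc0 (c' := c + c') (by linarith) hc
  set Y : ℝ := max X 2 with hY
  have hY2 : 2 ≤ Y := le_max_right _ _
  have hlY : 0 < Real.log Y := Real.log_pos (by linarith)
  refine ⟨max C (Real.log Y ^ c'), lt_max_of_lt_left hC, fun x hx => ?_⟩
  have hx0 : 0 < x := by linarith
  have hlx : 0 < Real.log x := Real.log_pos (by linarith)
  have hr0 : 0 < Real.log x ^ (-c') := Real.rpow_pos_of_pos hlx _
  rcases le_or_gt X x with hX | hX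
  · have h1 := h x hX
    have e1 : c - (c + c') = -c' := by ring
    rw [e1] at h1
    have h2 : ({n : ℤ | 0 < n ∧ (n : ℝ) ≤ x ∧ ¬ ∃ t : ℕ, (2 : ℝ) ^ t ≤ x ∧ ∀ h : ℤ, ρ ∣ h →
        |(h : ℝ)| ≤ Real.exp (Real.log x ^ c) → MM ρ t 0 n (n + h)}) ⊆
        {n : ℤ | 0 < n ∧ (n : ℝ) ≤ x ∧ ∃ h : ℤ, ρ ∣ h ∧ |(h : ℝ)| ≤ Real.exp (Real.log x ^ c) ∧
          ¬ MM ρ (kk x) 0 n (n + h)} := by
      rintro n ⟨h1, h2, h3⟩
      refine ⟨h1, h2, ?_⟩
      by_contra hcon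
      apply h3
      refine ⟨kk x, ?_, fun k hk hkl => ?_⟩
      · refine (two_pow_kk_le (by linarith)).trans ?_
        rw [Real.sqrt_le_left hx0.le]
        nlinarith
      · by_contra hno
        exact hcon ⟨k, hk, hkl, hno⟩
    have h3 : (({n : ℤ | 0 < n ∧ (n : ℝ) ≤ x ∧ ¬ ∃ t : ℕ, (2 : ℝ) ^ t ≤ x ∧ ∀ h : ℤ, ρ ∣ h →
        |(h : ℝ)| ≤ Real.exp (Real.log x ^ c) → MM ρ t 0 n (n + h)}).ncard : ℝ) ≤
        ({n : ℤ | 0 < n ∧ (n : ℝ) ≤ x ∧ ∃ h : ℤ, ρ ∣ h ∧ |(h : ℝ)| ≤ Real.exp (Real.log x ^ c) ∧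
          ¬ MM ρ (kk x) 0 n (n + h)}.ncard : ℝ) := by
      exact_mod_cast Set.ncard_le_ncard h2 (bad_fin x _)
    refine (h3.trans h1).trans ?_
    have h4 : C * (Real.log x ^ (-c') * x) ≤ max C (Real.log Y ^ c') * (Real.log x ^ (-c') * x) :=
      mul_le_mul_of_nonneg_right (le_max_left _ _) (by positivity)
    linarith
  · have hxY : x ≤ Y := hX.le.trans (le_max_left _ _)
    have h1 : (({n : ℤ | 0 < n ∧ (n : ℝ) ≤ x ∧ ¬ ∃ t : ℕ, (2 : ℝ) ^ t ≤ x ∧ ∀ h : ℤ, ρ ∣ h →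
        |(h : ℝ)| ≤ Real.exp (Real.log x ^ c) → MM ρ t 0 n (n + h)}).ncard : ℝ) ≤ x := by
      have h2 := cN_le {n : ℤ | ¬ ∃ t : ℕ, (2 : ℝ) ^ t ≤ x ∧ ∀ h : ℤ, ρ ∣ h →
        |(h : ℝ)| ≤ Real.exp (Real.log x ^ c) → MM ρ t 0 n (n + h)} hx0.le
      refine le_trans (le_of_eq ?_) h2
      unfold cN
      congr 1
      congr 1
      ext n
      constructor
      · rintro ⟨a, b, c⟩
        exact ⟨c, a, b⟩
      · rintro ⟨a, b, c⟩
        exact ⟨b, c, a⟩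
    refine h1.trans ?_
    have h2 : 1 ≤ Real.log Y ^ c' * Real.log x ^ (-c') := by
      rw [Real.rpow_neg hlx.le, ← div_eq_mul_inv, one_le_div (Real.rpow_pos_of_pos hlx _)]
      exact Real.rpow_le_rpow hlx.le (Real.log_le_log hx0 hxY) hc'0.le
    have h3 : Real.log Y ^ c' * Real.log x ^ (-c') ≤
        max C (Real.log Y ^ c') * Real.log x ^ (-c') :=
      mul_le_mul_of_nonneg_right (le_max_right _ _) hr0.le
    calc x = x * 1 := by ring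
      _ ≤ x * (max C (Real.log Y ^ c') * Real.log x ^ (-c')) :=
          mul_le_mul_of_nonneg_left (h2.trans h3) hx0.le
      _ = _ := by ring

theorem almost_all3 (hρ : Odd ρ) {c : ℝ} (hc : c < 1 / 2) :
    Tendsto (fun x : ℝ => cN {n : ℤ | ∃ t : ℕ, ∀ h : ℤ, ρ ∣ h →
      |(h : ℝ)| ≤ Real.exp (Real.log n ^ c) → MM ρ t 0 n (n + h)} x / x) atTop (𝓝 1) := by
  set A : Set ℤ := {n : ℤ | ∃ t : ℕ, ∀ h : ℤ, ρ ∣ h → |(h : ℝ)| ≤ Real.exp (Real.log n ^ c) →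
      MM ρ t 0 n (n + h)} with hA
  have h1 : Tendsto (fun x : ℝ => cN (Set.univ : Set ℤ) x / x) atTop (𝓝 1) :=
    POSB.cN_univ_tendsto fun n _ => Set.mem_univ n
  have h2 : Tendsto (fun x : ℝ => cN Aᶜ x / x) atTop (𝓝 0) := by
    rw [Metric.tendsto_atTop]
    intro ε hε
    obtain ⟨X, hX⟩ := win2 hρ (c := max c (1 / 4)) (lt_max_of_lt_right (by norm_num))
      (max_lt hc (by norm_num)) (ε := ε / 4) (by positivity)
    refine ⟨max X (max 1 (8 / ε)), fun x hx => ?_⟩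
    have hx1 : X ≤ x := (le_max_left _ _).trans hx
    have hx2 : 1 ≤ x := ((le_max_left _ _).trans (le_max_right _ _)).trans hx
    have hx3 : 8 / ε ≤ x := ((le_max_right _ _).trans (le_max_right _ _)).trans hx
    have hx0 : 0 < x := by linarith
    have h3 := hX x hx1
    have hsub : {n : ℤ | n ∈ Aᶜ ∧ 0 < n ∧ (n : ℝ) ≤ x} ⊆
        {n : ℤ | 0 < n ∧ (n : ℝ) ≤ x ∧ ∃ h : ℤ, ρ ∣ h ∧ |(h : ℝ)| ≤ Real.exp (Real.log x ^ max c (1 / 4)) ∧
          ¬ MM ρ (kk x) 0 n (n + h)} ∪ (({1, 2} : Finset ℤ) : Set ℤ) := by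
      rintro n ⟨hn, hn0, hnx⟩
      rcases lt_or_ge n 3 with h | h
      · right
        have : n = 1 ∨ n = 2 := by omega
        simpa using this
      · left
        have hn' : ∃ h : ℤ, ρ ∣ h ∧ |(h : ℝ)| ≤ Real.exp (Real.log n ^ c) ∧ ¬ MM ρ (kk x) 0 n (n + h) := by
          by_contra hcon
          apply hn
          refine ⟨kk x, fun k hk hkl => ?_⟩
          by_contra hno
          exact hcon ⟨k, hk, hkl, hno⟩
        obtain ⟨k, hk, hkl, hno⟩ := hn'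
        refine ⟨hn0, hnx, k, hk, hkl.trans ?_, hno⟩
        have h3n : (3 : ℝ) ≤ n := by exact_mod_cast h
        have hl1 : 1 ≤ Real.log n :=
          one_le_log_three.trans (Real.log_le_log (by norm_num) h3n)
        have hl2 : Real.log n ≤ Real.log x := Real.log_le_log (by linarith) hnx
        refine Real.exp_le_exp.2 ?_
        calc Real.log n ^ c ≤ Real.log n ^ max c (1 / 4) :=
              Real.rpow_le_rpow_of_exponent_le hl1 (le_max_left _ _)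
          _ ≤ Real.log x ^ max c (1 / 4) :=
              Real.rpow_le_rpow (by linarith) hl2 (le_max_of_le_right (by norm_num))
    have hfin := bad_fin x (fun n => ∃ h : ℤ, ρ ∣ h ∧
        |(h : ℝ)| ≤ Real.exp (Real.log x ^ max c (1 / 4)) ∧ ¬ MM ρ (kk x) 0 n (n + h))
    have h4 := Set.ncard_le_ncard hsub (hfin.union (Finset.finite_toSet _))
    have h5 := Set.ncard_union_le {n : ℤ | 0 < n ∧ (n : ℝ) ≤ x ∧ ∃ h : ℤ, ρ ∣ h ∧
        |(h : ℝ)| ≤ Real.exp (Real.log x ^ max c (1 / 4)) ∧ ¬ MM ρ (kk x) 0 n (n + h)}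
        (({1, 2} : Finset ℤ) : Set ℤ)
    rw [Set.ncard_coe_finset] at h5
    have h6 : (({1, 2} : Finset ℤ)).card = 2 := rfl
    rw [h6] at h5
    have h7 : cN Aᶜ x ≤ ε / 4 * x + 2 := by
      have h8 : (({n : ℤ | n ∈ Aᶜ ∧ 0 < n ∧ (n : ℝ) ≤ x}.ncard : ℕ) : ℝ) ≤
          ({n : ℤ | 0 < n ∧ (n : ℝ) ≤ x ∧ ∃ h : ℤ, ρ ∣ h ∧
            |(h : ℝ)| ≤ Real.exp (Real.log x ^ max c (1 / 4)) ∧ ¬ MM ρ (kk x) 0 n (n + h)}.ncard : ℝ) + 2 := by
        exact_mod_cast h4.trans h5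
      exact h8.trans (by linarith)
    have h9 : (0 : ℝ) ≤ cN Aᶜ x := by unfold cN; positivity
    rw [Real.dist_eq, sub_zero, abs_of_nonneg (by positivity), div_lt_iff₀ hx0]
    have h10 : 8 ≤ ε * x := by
      rw [div_le_iff₀ hε] at hx3
      linarith
    linarith
  have h3 : (fun x : ℝ => cN A x / x) =
      fun x : ℝ => cN (Set.univ : Set ℤ) x / x - cN Aᶜ x / x := by
    ext x
    rw [← Set.union_compl_self A, POSB.cN_union disjoint_compl_right]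
    ring
  rw [h3]
  simpa using h1.sub h2

end Pool.Agent.Helper8.CO
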