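import Mathlib

/-!
# CO-CNTA: counting residues (elementary, Mathlib only)

`P` is a predicate on the integers which depends only on the class modulo `2 ^ k`.
* `card_affine`: the map `y ↦ u y + v`, `u` odd, permutes the classes modulo `2 ^ k`. (For instance: the number of
  `y < 2 ^ k` with `P y` is the number of the elements of `ZMod (2 ^ k)` with the induced predicate; use `ZMod` or the injective map
  `y ↦ ((u y + v) % 2 ^ k).toNat` of `range (2 ^ k)` into itself, which is onto because it is injective: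
  `2 ^ k ∣ u (y - y')`, `IsCoprime (2 ^ k) u`.)
* `card_Ioc_le`: an interval `(a, a + N]` is contained in `N / 2 ^ k + 1` intervals of length `2 ^ k`, and each of them contains every
  class once (use `card_affine` with `u = 1`, or the map `% 2 ^ k`).
* `card_double`: the `y < 2 ^ (k + 1)` are the `2 y`, `2 y + 1` with `y < 2 ^ k`.
-/

set_option autoImplicit false

namespace Pool.Agent.Helper8.CO

open Finset Classical

theorem card_affine {k : ℕ} {P : ℤ → Prop} (hP : ∀ x j : ℤ, P (x + 2 ^ k * j) ↔ P x) {u : ℤ}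
    (hu : Odd u) (v : ℤ) :
    ((range (2 ^ k)).filter (fun y : ℕ => P (u * y + v))).card =
      ((range (2 ^ k)).filter (fun y : ℕ => P y)).card := by
  have hm : (0 : ℤ) < 2 ^ k := by positivity
  obtain ⟨φ, hφ⟩ : ∃ φ : ℕ → ℕ, φ = fun y : ℕ => ((u * (y : ℤ) + v) % 2 ^ k).toNat := ⟨_, rfl⟩
  have h1 : ∀ y : ℕ, ((φ y : ℕ) : ℤ) = (u * y + v) % 2 ^ k := by
    intro y
    rw [hφ]
    exact Int.toNat_of_nonneg (Int.emod_nonneg _ hm.ne')
  have h2 : ∀ y : ℕ, φ y < 2 ^ k := by
    intro y
    have h := Int.emod_lt_of_pos (u * y + v) hm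
    rw [← h1] at h
    exact_mod_cast h
  have h3 : Set.InjOn φ (range (2 ^ k)) := by
    intro y hy y' hy' h
    rw [mem_coe, mem_range] at hy hy'
    have e : (u * y + v) % 2 ^ k = (u * y' + v) % 2 ^ k := by rw [← h1, ← h1, h]
    have h4 : (2 ^ k : ℤ) ∣ u * ((y : ℤ) - y') := by
      have h5 := Int.ModEq.dvd (show (u * y + v) ≡ (u * y' + v) [ZMOD 2 ^ k] from e)
      have e2 : u * (y' : ℤ) + v - (u * y + v) = -(u * ((y : ℤ) - y')) := by ring
      rw [e2, Int.dvd_neg] at h5
      exact h5
    have hco : IsCoprime (2 ^ k : ℤ) u := by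
      apply IsCoprime.pow_left
      obtain ⟨w, hw⟩ := hu
      exact ⟨-w, 1, by rw [hw]; ring⟩
    have h6 : (2 ^ k : ℤ) ∣ (y : ℤ) - y' := hco.dvd_of_dvd_mul_left h4
    obtain ⟨c, hc⟩ := h6
    have hy1 : (y : ℤ) < 2 ^ k := by exact_mod_cast hy
    have hy2 : (y' : ℤ) < 2 ^ k := by exact_mod_cast hy'
    have hc0 : c = 0 := by
      have a1 : c < 1 := by
        by_contra hcon
        push Not at hcon
        nlinarith
      have a2 : -1 < c := by
        by_contra hcon
        push Not at hcon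
        nlinarith
      omega
    rw [hc0, mul_zero] at hc
    omega
  have h4 : image φ (range (2 ^ k)) = range (2 ^ k) := by
    apply Finset.eq_of_subset_of_card_le
    · intro x hx
      obtain ⟨y, -, rfl⟩ := mem_image.1 hx
      exact mem_range.2 (h2 y)
    · rw [card_image_of_injOn h3]
  have h5 : ∀ y : ℕ, P (φ y) ↔ P (u * y + v) := by
    intro y
    rw [h1]
    have h := hP ((u * y + v) % 2 ^ k) ((u * y + v) / 2 ^ k)
    rw [Int.emod_add_mul_ediv] at h
    exact h.symm
  calc ((range (2 ^ k)).filter (fun y : ℕ => P (u * y + v))).card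
      = ((range (2 ^ k)).filter (fun y : ℕ => P (φ y))).card := by
        congr 1
        exact filter_congr fun y _ => (h5 y).symm
    _ = (image φ ((range (2 ^ k)).filter (fun y : ℕ => P (φ y)))).card := by
        rw [card_image_of_injOn (h3.mono (by
          intro x hx
          exact mem_coe.2 (filter_subset _ _ (mem_coe.1 hx))))]
    _ = ((image φ (range (2 ^ k))).filter (fun y : ℕ => P y)).card := by
        rw [filter_image]
    _ = _ := by rw [h4]

private theorem sum_double46 (f : ℕ → ℕ) (n : ℕ) :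
    ∑ i ∈ range (2 * n), f i = ∑ i ∈ range n, f (2 * i) + ∑ i ∈ range n, f (2 * i + 1) := by
  induction n with
  | zero => simp
  | succ n ih =>
    rw [show 2 * (n + 1) = 2 * n + 1 + 1 by ring, sum_range_succ, sum_range_succ, ih, sum_range_succ,
      sum_range_succ]
    ring

theorem card_double (k : ℕ) (P : ℤ → Prop) :
    ((range (2 ^ (k + 1))).filter (fun y : ℕ => P y)).card =
      ((range (2 ^ k)).filter (fun y : ℕ => P (2 * y))).card +
        ((range (2 ^ k)).filter (fun y : ℕ => P (2 * y + 1))).card := by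
  rw [card_filter, card_filter, card_filter, pow_succ, mul_comm (2 ^ k) 2, sum_double46]
  push_cast
  rfl

private theorem card_block46 {k : ℕ} {P : ℤ → Prop} (hP : ∀ x j : ℤ, P (x + 2 ^ k * j) ↔ P x) (b : ℤ) :
    ((Ioc b (b + 2 ^ k)).filter P).card = ((range (2 ^ k)).filter (fun y : ℕ => P y)).card := by
  have h1 : Ioc b (b + 2 ^ k) = image (fun y : ℕ => 1 * (y : ℤ) + (b + 1)) (range (2 ^ k)) := by
    ext x
    rw [mem_Ioc, mem_image]
    constructor
    · rintro ⟨h1, h2⟩
      refine ⟨(x - (b + 1)).toNat, ?_, ?_⟩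
      · rw [mem_range]
        have h3 : ((x - (b + 1)).toNat : ℤ) = x - (b + 1) := Int.toNat_of_nonneg (by omega)
        have h4 : ((x - (b + 1)).toNat : ℤ) < 2 ^ k := by
          rw [h3]
          omega
        exact_mod_cast h4
      · rw [Int.toNat_of_nonneg (by omega)]
        ring
    · rintro ⟨y, hy, rfl⟩
      rw [mem_range] at hy
      have hy1 : (y : ℤ) < 2 ^ k := by exact_mod_cast hy
      constructor <;> omega
  rw [h1, filter_image, card_image_of_injective _ (by
    intro y y' h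
    simp only at h
    omega)]
  exact card_affine hP odd_one (b + 1)

theorem card_Ioc_le {k : ℕ} {P : ℤ → Prop} (hP : ∀ x j : ℤ, P (x + 2 ^ k * j) ↔ P x) (a : ℤ)
    (N : ℕ) :
    (((Ioc a (a + N)).filter P).card : ℝ) ≤
      ((N : ℝ) / 2 ^ k + 1) * ((range (2 ^ k)).filter (fun y : ℕ => P y)).card := by
  obtain ⟨c, hc⟩ : ∃ c, c = ((range (2 ^ k)).filter (fun y : ℕ => P y)).card := ⟨_, rfl⟩
  have hblk : ∀ n : ℕ, ((Ioc a (a + 2 ^ k * n)).filter P).card ≤ n * c := by
    intro n
    induction n with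
    | zero => simp
    | succ n ih =>
      have h1 : Ioc a (a + 2 ^ k * ((n + 1 : ℕ) : ℤ)) ⊆
          Ioc a (a + 2 ^ k * n) ∪ Ioc (a + 2 ^ k * n) (a + 2 ^ k * n + 2 ^ k) := by
        intro x hx
        rw [mem_union, mem_Ioc, mem_Ioc]
        rw [mem_Ioc] at hx
        push_cast at hx
        have e : (2 : ℤ) ^ k * (n + 1) = 2 ^ k * n + 2 ^ k := by ring
        rw [e] at hx
        by_cases h : x ≤ a + 2 ^ k * n
        · exact Or.inl ⟨hx.1, h⟩
        · right
          push Not at h
          exact ⟨h, by linarith [hx.2]⟩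
      calc ((Ioc a (a + 2 ^ k * ((n + 1 : ℕ) : ℤ))).filter P).card
          ≤ ((Ioc a (a + 2 ^ k * n) ∪ Ioc (a + 2 ^ k * n) (a + 2 ^ k * n + 2 ^ k)).filter P).card :=
            card_le_card (filter_subset_filter _ h1)
        _ ≤ ((Ioc a (a + 2 ^ k * n)).filter P).card +
            ((Ioc (a + 2 ^ k * n) (a + 2 ^ k * n + 2 ^ k)).filter P).card := by
            rw [filter_union]
            exact card_union_le _ _
        _ ≤ n * c + c := by
            rw [card_block46 hP, ← hc]
            exact Nat.add_le_add_right ih _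
        _ = (n + 1) * c := by ring
  have hm : 0 < 2 ^ k := by positivity
  have h2 : N ≤ 2 ^ k * (N / 2 ^ k + 1) := (Nat.lt_mul_div_succ N hm).le
  have h3 : ((Ioc a (a + N)).filter P).card ≤ (N / 2 ^ k + 1) * c := by
    refine le_trans (card_le_card (filter_subset_filter _ ?_)) (hblk (N / 2 ^ k + 1))
    intro x hx
    rw [mem_Ioc] at hx ⊢
    refine ⟨hx.1, hx.2.trans ?_⟩
    have : (N : ℤ) ≤ 2 ^ k * ((N / 2 ^ k + 1 : ℕ) : ℤ) := by exact_mod_cast h2
    linarith
  rw [← hc]
  calc (((Ioc a (a + N)).filter P).card : ℝ) ≤ (((N / 2 ^ k + 1) * c : ℕ) : ℝ) := by exact_mod_cast h3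
    _ = (((N / 2 ^ k : ℕ) : ℝ) + 1) * c := by push_cast; ring
    _ ≤ ((N : ℝ) / 2 ^ k + 1) * c := by
        refine mul_le_mul_of_nonneg_right ?_ (Nat.cast_nonneg _)
        have h4 : ((N / 2 ^ k : ℕ) : ℝ) ≤ (N : ℝ) / ((2 ^ k : ℕ) : ℝ) := Nat.cast_div_le
        push_cast at h4
        linarith

end Pool.Agent.Helper8.CO
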