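import Pool.Agent.Helper8.CO.Def
import Pool.Agent.Helper8.CO.CntA

/-!
# CO-CNT: the chain describes the pairs `(y, 3 ^ c y + ρ β)`

Notation: `T = T 2 3 (fun _ => ρ)`: `T x = x / 2` if `2 ∣ x`, `T x = (3 x - ρ) / 2` otherwise (`ρ` odd, so the numerator is even for odd
`x`); `cnt 2 3 _ k x` (defined in `Helper68.Moeller.Basic`) is the number of the odd points among the first `k` points of the orbit:
`cnt (k + 1) x = (if 2 ∣ x then 0 else 1) + cnt k (T x)`.

* `iter_add`: `T^[k] (x + 2 ^ k * j) = T^[k] x + 3 ^ (cnt k x) * j` and `cnt k (x + 2 ^ k j) = cnt k x` (induction on `k`: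
  `T (x + 2 ^ (k + 1) j) = T x + 2 ^ k (j or 3 j)`).
* `MM_periodic`: so `MM ρ k c y (3 ^ c y + ρ β)` depends only on `y` modulo `2 ^ k`
  (`3 ^ c (y + 2 ^ k j) + ρ β = (3 ^ c y + ρ β) + 2 ^ k (3 ^ c j)`; use `cnt k y = cnt k y' + c` in both directions).
* `MM_refl`: `MM ρ k 0 y y`.
* `MM_succ`: if `T y = y1`, `T y' = y1'` then `MM (k + 1) c y y'` follows from `MM k c1 y1 y1'`, where
  `c1 + (1 if y is odd) = c + (1 if y' is odd)` as integers.
* `cnt_le`: induction on `k`, for all `c`, `β`. `k = 0`: the only `y < 1` is `0`; the number is at most `1`, and it is `0` if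
  `(c, β) = (0, 0)` (`MM_refl`). If `(c, β) = (0, 0)`: `MM_refl` for all `k`. Otherwise split the `y < 2 ^ (k + 1)` by parity
  (`card_double`); `y' = 3 ^ c y + ρ β`.
  - `y = 2 z`: `T y = z`. If `β` is even then `T y' = 3 ^ c z + ρ (β / 2)`: state `nx0`. If `β` is odd then `y'` is odd and
    `T y' = 3 ^ (c + 1) z + ρ ((3 β - 1) / 2)`: state `nx0`. So the number of the bad `z` is at most `2 ^ k uu k (nx0 (c, β))`.
  - `y = 2 z + 1`: `y1 = T y = 3 z + (3 - ρ) / 2`. If `β` is even then `y'` is odd and `T y' = 3 ^ c y1 + ρ ((3 β + 3 ^ c - 1) / 2)`.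
    If `β` is odd and `c ≥ 1` then `y'` is even and `T y' = y' / 2 = 3 ^ (c - 1) y1 + ρ ((β + 3 ^ (c - 1)) / 2)`. In both cases
    `z ↦ y1 = 3 z + (3 - ρ) / 2` is an affine map with odd coefficient: use `card_affine` for the predicate
    `x ↦ ¬ MM k c1 x (3 ^ c1 x + ρ β1)`, which is periodic.
    If `β` is odd and `c = 0` then `y' = y + ρ β` is even, `z1 = T y' = (y + ρ β) / 2 = z + (1 + ρ β) / 2` and
    `T y = (3 y - ρ) / 2 = 3 z1 + ρ (-((3 β + 1) / 2))`. So the pair `(T y', T y)` has the state `(1, -((3 β + 1) / 2)) = nx1`, and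
    `MM (k + 1) 0 y y'` follows from `MM k 1 (T y') (T y)`.
-/

set_option autoImplicit false

namespace Pool.Agent.Helper8.CO

open Pool.Agent.Helper68.Moeller Finset Classical

variable {ρ : ℤ}

private theorem T_even46 (z : ℤ) : T 2 3 (fun _ => ρ) (2 * z) = z := by
  unfold T
  rw [if_pos (by exact ⟨z, rfl⟩)]
  exact Int.mul_ediv_cancel_left z (by norm_num)

private theorem T_odd46 {r : ℤ} (hr : ρ = 2 * r + 1) (z : ℤ) :
    T 2 3 (fun _ => ρ) (2 * z + 1) = 3 * z + (1 - r) := by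
  unfold T
  rw [if_neg (by
    intro h
    have : (2 : ℤ) ∣ 2 * z + 1 := h
    omega)]
  push_cast
  rw [hr]
  omega

private theorem cnt_even46 (k : ℕ) (z : ℤ) :
    cnt 2 3 (fun _ => ρ) (k + 1) (2 * z) = cnt 2 3 (fun _ => ρ) k z := by
  rw [cnt, T_even46, if_pos (by exact ⟨z, rfl⟩), zero_add]

private theorem cnt_odd46 {r : ℤ} (hr : ρ = 2 * r + 1) (k : ℕ) (z : ℤ) :
    cnt 2 3 (fun _ => ρ) (k + 1) (2 * z + 1) = 1 + cnt 2 3 (fun _ => ρ) k (3 * z + (1 - r)) := by
  rw [cnt, T_odd46 hr, if_neg (by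
    intro h
    have : (2 : ℤ) ∣ 2 * z + 1 := h
    omega)]

theorem iter_add (hρ : Odd ρ) (k : ℕ) (x j : ℤ) :
    (T 2 3 (fun _ => ρ))^[k] (x + 2 ^ k * j) =
      (T 2 3 (fun _ => ρ))^[k] x + 3 ^ (cnt 2 3 (fun _ => ρ) k x) * j ∧
    cnt 2 3 (fun _ => ρ) k (x + 2 ^ k * j) = cnt 2 3 (fun _ => ρ) k x := by
  obtain ⟨r, hr⟩ := hρ
  induction k generalizing x j with
  | zero => simp [cnt]
  | succ k ih =>
    rcases Int.even_or_odd' x with ⟨z, hz | hz⟩
    · have e : x + 2 ^ (k + 1) * j = 2 * (z + 2 ^ k * j) := by rw [hz]; ring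
      rw [e, hz, Function.iterate_succ_apply, Function.iterate_succ_apply, T_even46, T_even46, cnt_even46,
        cnt_even46]
      exact ih z j
    · have e : x + 2 ^ (k + 1) * j = 2 * (z + 2 ^ k * j) + 1 := by rw [hz]; ring
      have e2 : 3 * (z + 2 ^ k * j) + (1 - r) = (3 * z + (1 - r)) + 2 ^ k * (3 * j) := by ring
      rw [e, hz, Function.iterate_succ_apply, Function.iterate_succ_apply, T_odd46 hr, T_odd46 hr, cnt_odd46 hr,
        cnt_odd46 hr, e2]
      obtain ⟨h1, h2⟩ := ih (3 * z + (1 - r)) (3 * j)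
      rw [h1, h2]
      refine ⟨?_, rfl⟩
      rw [pow_add]
      ring

theorem MM_periodic (hρ : Odd ρ) (k c : ℕ) (β x j : ℤ) :
    MM ρ k c (x + 2 ^ k * j) (3 ^ c * (x + 2 ^ k * j) + ρ * β) ↔ MM ρ k c x (3 ^ c * x + ρ * β) := by
  have e : 3 ^ c * (x + 2 ^ k * j) + ρ * β = (3 ^ c * x + ρ * β) + 2 ^ k * (3 ^ c * j) := by ring
  unfold MM
  rw [e]
  obtain ⟨h1, h2⟩ := iter_add hρ k x j
  obtain ⟨h3, h4⟩ := iter_add hρ k (3 ^ c * x + ρ * β) (3 ^ c * j)
  rw [h1, h2, h3, h4]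
  constructor
  · rintro ⟨h5, h6⟩
    refine ⟨?_, h6⟩
    rw [h6, pow_add] at h5
    linear_combination h5
  · rintro ⟨h5, h6⟩
    refine ⟨?_, h6⟩
    rw [h6, h5, pow_add]
    ring

private theorem MM_refl46 (k : ℕ) (y : ℤ) : MM ρ k 0 y y := ⟨rfl, rfl⟩

/-- The step: both points even or odd. -/
private theorem MM_ee46 {k c : ℕ} {z z' : ℤ} (h : MM ρ k c z z') : MM ρ (k + 1) c (2 * z) (2 * z') := by
  unfold MM at *
  rw [Function.iterate_succ_apply, Function.iterate_succ_apply, T_even46, T_even46, cnt_even46, cnt_even46]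
  exact h

private theorem MM_eo46 {r : ℤ} (hr : ρ = 2 * r + 1) {k c : ℕ} {z z' : ℤ}
    (h : MM ρ k (c + 1) z (3 * z' + (1 - r))) : MM ρ (k + 1) c (2 * z) (2 * z' + 1) := by
  unfold MM at *
  rw [Function.iterate_succ_apply, Function.iterate_succ_apply, T_even46, T_odd46 hr, cnt_even46, cnt_odd46 hr]
  exact ⟨h.1, by omega⟩

private theorem MM_oo46 {r : ℤ} (hr : ρ = 2 * r + 1) {k c : ℕ} {z z' : ℤ}
    (h : MM ρ k c (3 * z + (1 - r)) (3 * z' + (1 - r))) : MM ρ (k + 1) c (2 * z + 1) (2 * z' + 1) := by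
  unfold MM at *
  rw [Function.iterate_succ_apply, Function.iterate_succ_apply, T_odd46 hr, T_odd46 hr, cnt_odd46 hr,
    cnt_odd46 hr]
  exact ⟨h.1, by omega⟩

private theorem MM_oe46 {r : ℤ} (hr : ρ = 2 * r + 1) {k c : ℕ} {z z' : ℤ}
    (h : MM ρ k c (3 * z + (1 - r)) z') : MM ρ (k + 1) (c + 1) (2 * z + 1) (2 * z') := by
  unfold MM at *
  rw [Function.iterate_succ_apply, Function.iterate_succ_apply, T_odd46 hr, T_even46, cnt_odd46 hr,
    cnt_even46]
  exact ⟨h.1, by omega⟩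

private theorem MM_oe046 {r : ℤ} (hr : ρ = 2 * r + 1) {k : ℕ} {z z' : ℤ}
    (h : MM ρ k 1 z' (3 * z + (1 - r))) : MM ρ (k + 1) 0 (2 * z + 1) (2 * z') := by
  unfold MM at *
  rw [Function.iterate_succ_apply, Function.iterate_succ_apply, T_odd46 hr, T_even46, cnt_odd46 hr,
    cnt_even46]
  exact ⟨h.1.symm, by omega⟩

private theorem card_le46 (m : ℕ) (P Q : ℕ → Prop) {_ : DecidablePred P} {_ : DecidablePred Q}
    (h : ∀ y, P y → Q y) : ((range m).filter P).card ≤ ((range m).filter Q).card :=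
  card_le_card (monotone_filter_right _ fun y _ => h y)

theorem cnt_le (hρ : Odd ρ) (k c : ℕ) (β : ℤ) :
    (((range (2 ^ k)).filter (fun y : ℕ => ¬ MM ρ k c y (3 ^ c * y + ρ * β))).card : ℝ) ≤
      2 ^ k * uu k (c, β) := by
  obtain ⟨r, hr⟩ := id hρ
  induction k generalizing c β with
  | zero =>
    by_cases h0 : (c, β) = (0, 0)
    · have hc : c = 0 := (Prod.mk.inj h0).1
      have hb : β = 0 := (Prod.mk.inj h0).2
      subst hc
      subst hb
      have h1 : (range (2 ^ 0)).filter (fun y : ℕ => ¬ MM ρ 0 0 y (3 ^ 0 * y + ρ * 0)) = ∅ := by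
        rw [filter_eq_empty_iff]
        intro y _
        rw [not_not, pow_zero, one_mul, mul_zero, add_zero]
        exact MM_refl46 0 _
      rw [h1, uu_merged]
      simp
    · rw [uu_zero_ne h0]
      have h1 := card_filter_le (range (2 ^ 0)) (fun y : ℕ => ¬ MM ρ 0 c y (3 ^ c * y + ρ * β))
      rw [card_range] at h1
      have h2 : (((range (2 ^ 0)).filter (fun y : ℕ => ¬ MM ρ 0 c y (3 ^ c * y + ρ * β))).card : ℝ) ≤
          ((2 ^ 0 : ℕ) : ℝ) := by exact_mod_cast h1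
      simpa using h2
  | succ k ih =>
    have hper : ∀ (c1 : ℕ) (β1 : ℤ) (x j : ℤ), ¬ MM ρ k c1 (x + 2 ^ k * j) (3 ^ c1 * (x + 2 ^ k * j) + ρ * β1) ↔
        ¬ MM ρ k c1 x (3 ^ c1 * x + ρ * β1) := fun c1 β1 x j => not_congr (MM_periodic hρ k c1 β1 x j)
    have hodd3 : Odd (3 : ℤ) := ⟨1, by norm_num⟩
    have h3c : Odd ((3 : ℤ) ^ c) := hodd3.pow
    obtain ⟨t, ht⟩ := h3c
    -- the digit 0
    have hE : (((range (2 ^ k)).filter (fun y : ℕ => ¬ MM ρ (k + 1) c (2 * (y : ℤ))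
        (3 ^ c * (2 * (y : ℤ)) + ρ * β))).card : ℝ) ≤ 2 ^ k * uu k (nx0 (c, β)) := by
      rcases Int.even_or_odd' β with ⟨b, hb | hb⟩
      · have hbe : Even β := ⟨b, by rw [hb]; ring⟩
        have hb2 : β / 2 = b := by rw [hb]; exact Int.mul_ediv_cancel_left b (by norm_num)
        rw [nx0_even hbe, hb2]
        refine le_trans (Nat.cast_le.2 (card_le46 _ _ _ ?_)) (ih c b)
        intro y hy h
        apply hy
        have := MM_ee46 h
        have e : 2 * (3 ^ c * (y : ℤ) + ρ * b) = 3 ^ c * (2 * (y : ℤ)) + ρ * β := by rw [hb]; ring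
        rwa [e] at this
      · have hbo : ¬ Even β := by
          rw [Int.not_even_iff_odd]
          exact ⟨b, hb⟩
        have hb2 : (3 * β - 1) / 2 = 3 * b + 1 := by omega
        rw [nx0_odd hbo, hb2]
        refine le_trans (Nat.cast_le.2 (card_le46 _ _ _ ?_)) (ih (c + 1) (3 * b + 1))
        intro y hy h
        apply hy
        have e1 : (3 : ℤ) ^ (c + 1) * (y : ℤ) + ρ * (3 * b + 1) =
            3 * (3 ^ c * (y : ℤ) + ρ * b + r) + (1 - r) := by
          rw [pow_succ, hr]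
          ring
        have h' : MM ρ k (c + 1) (y : ℤ) ((3 : ℤ) ^ (c + 1) * (y : ℤ) + ρ * (3 * b + 1)) := h
        rw [e1] at h'
        have := MM_eo46 hr h'
        have e : 2 * (3 ^ c * (y : ℤ) + ρ * b + r) + 1 = 3 ^ c * (2 * (y : ℤ)) + ρ * β := by
          rw [hb, hr]
          ring
        rwa [e] at this
    -- the digit 1
    have hO : (((range (2 ^ k)).filter (fun y : ℕ => ¬ MM ρ (k + 1) c (2 * (y : ℤ) + 1)
        (3 ^ c * (2 * (y : ℤ) + 1) + ρ * β))).card : ℝ) ≤ 2 ^ k * uu k (nx1 (c, β)) := by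
      rcases Int.even_or_odd' β with ⟨b, hb | hb⟩
      · have hbe : Even β := ⟨b, by rw [hb]; ring⟩
        have hb2 : (3 * β + (3 : ℤ) ^ c - 1) / 2 = 3 * b + t := by omega
        rw [nx1_even hbe, hb2]
        refine le_trans ?_ (ih c (3 * b + t))
        have hca := card_affine (P := fun x => ¬ MM ρ k c x (3 ^ c * x + ρ * (3 * b + t))) (hper c (3 * b + t)) hodd3
          (1 - r)
        refine Nat.cast_le.2 (le_trans (card_le46 _ _ _ ?_) (le_trans hca.le (card_le46 _ _ _ fun _ h => h)))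
        intro y hy h
        apply hy
        have e1 : (3 : ℤ) ^ c * (3 * (y : ℤ) + (1 - r)) + ρ * (3 * b + t) =
            3 * (3 ^ c * (y : ℤ) + t + ρ * b) + (1 - r) := by
          rw [ht, hr]
          ring
        have h' : MM ρ k c (3 * (y : ℤ) + (1 - r)) ((3 : ℤ) ^ c * (3 * (y : ℤ) + (1 - r)) + ρ * (3 * b + t)) := h
        rw [e1] at h'
        have := MM_oo46 hr h'
        have e : 2 * (3 ^ c * (y : ℤ) + t + ρ * b) + 1 = 3 ^ c * (2 * (y : ℤ) + 1) + ρ * β := by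
          rw [ht, hb]
          ring
        rwa [e] at this
      · have hbo : ¬ Even β := by
          rw [Int.not_even_iff_odd]
          exact ⟨b, hb⟩
        rcases Nat.eq_zero_or_pos c with hc | hc
        · subst hc
          have hb2 : -((3 * β + 1) / 2) = -(3 * b + 2) := by omega
          rw [nx1_odd_zero hbo, hb2]
          refine le_trans ?_ (ih 1 (-(3 * b + 2)))
          have hca := card_affine (P := fun x => ¬ MM ρ k 1 x (3 ^ 1 * x + ρ * (-(3 * b + 2))))
            (hper 1 (-(3 * b + 2))) odd_one (1 + ρ * b + r)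
          refine Nat.cast_le.2 (le_trans (card_le46 _ _ _ ?_) (le_trans hca.le (card_le46 _ _ _ fun _ h => h)))
          intro y hy h
          apply hy
          have e1 : (3 : ℤ) ^ 1 * (1 * (y : ℤ) + (1 + ρ * b + r)) + ρ * (-(3 * b + 2)) =
              3 * (y : ℤ) + (1 - r) := by
            rw [hr]
            ring
          have h' : MM ρ k 1 (1 * (y : ℤ) + (1 + ρ * b + r))
              ((3 : ℤ) ^ 1 * (1 * (y : ℤ) + (1 + ρ * b + r)) + ρ * (-(3 * b + 2))) := h
          rw [e1] at h'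
          have := MM_oe046 hr h'
          have e : 2 * (1 * (y : ℤ) + (1 + ρ * b + r)) = 3 ^ 0 * (2 * (y : ℤ) + 1) + ρ * β := by
            rw [hb, hr]
            ring
          rwa [e] at this
        · obtain ⟨c', rfl⟩ : ∃ c', c = c' + 1 := ⟨c - 1, by omega⟩
          obtain ⟨u, hu⟩ : Odd ((3 : ℤ) ^ c') := hodd3.pow
          have hb2 : (β + (3 : ℤ) ^ (c' + 1 - 1)) / 2 = b + u + 1 := by
            rw [Nat.add_sub_cancel]
            omega
          rw [nx1_odd hbo (by omega), hb2, Nat.add_sub_cancel]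
          refine le_trans ?_ (ih c' (b + u + 1))
          have hca := card_affine (P := fun x => ¬ MM ρ k c' x (3 ^ c' * x + ρ * (b + u + 1))) (hper c' (b + u + 1))
            hodd3 (1 - r)
          refine Nat.cast_le.2 (le_trans (card_le46 _ _ _ ?_) (le_trans hca.le (card_le46 _ _ _ fun _ h => h)))
          intro y hy h
          apply hy
          have e1 : (3 : ℤ) ^ c' * (3 * (y : ℤ) + (1 - r)) + ρ * (b + u + 1) =
              3 ^ (c' + 1) * (y : ℤ) + (3 * u + 1) + ρ * b + r + 1 := by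
            rw [pow_succ, hu, hr]
            ring
          have h' : MM ρ k c' (3 * (y : ℤ) + (1 - r))
              ((3 : ℤ) ^ c' * (3 * (y : ℤ) + (1 - r)) + ρ * (b + u + 1)) := h
          rw [e1] at h'
          have := MM_oe46 hr h'
          have e : 2 * (3 ^ (c' + 1) * (y : ℤ) + (3 * u + 1) + ρ * b + r + 1) =
              3 ^ (c' + 1) * (2 * (y : ℤ) + 1) + ρ * β := by
            rw [pow_succ, hu, hb, hr]
            ring
          rwa [e] at this
    have hcd := card_double k (fun y => ¬ MM ρ (k + 1) c y (3 ^ c * y + ρ * β))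
    have key : ((range (2 ^ (k + 1))).filter (fun y : ℕ => ¬ MM ρ (k + 1) c y (3 ^ c * y + ρ * β))).card ≤
        ((range (2 ^ k)).filter (fun y : ℕ => ¬ MM ρ (k + 1) c (2 * (y : ℤ))
          (3 ^ c * (2 * (y : ℤ)) + ρ * β))).card +
        ((range (2 ^ k)).filter (fun y : ℕ => ¬ MM ρ (k + 1) c (2 * (y : ℤ) + 1)
          (3 ^ c * (2 * (y : ℤ) + 1) + ρ * β))).card :=
      le_trans (card_le46 _ _ _ fun _ h => h) (le_trans hcd.le
        (add_le_add (card_le46 _ _ _ fun _ h => h) (card_le46 _ _ _ fun _ h => h)))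
    refine le_trans (Nat.cast_le.2 key) ?_
    rw [Nat.cast_add, uu_succ, av]
    have e : (2 : ℝ) ^ (k + 1) * ((uu k (nx0 (c, β)) + uu k (nx1 (c, β))) / 2) =
        2 ^ k * uu k (nx0 (c, β)) + 2 ^ k * uu k (nx1 (c, β)) := by
      rw [pow_succ]
      ring
    rw [e]
    exact add_le_add hE hO

end Pool.Agent.Helper8.CO
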