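import Pool.Agent.Helper8.CO.Eqv

/-!
# CO-EQD: the conjecture and the proportion in intervals of length `exp ((log n) ^ c)`, `c < 1`

* `good_dens`: let `A` be a set of integers with `cN A x / x → a > 0`, `0 < c < 1`, `0 ≤ B`, `N₀ : ℝ`, `δ > 0`. Then there are `n ∈ A`, `n ≥ N₀`,
  `n ≥ 3` and `k` with `2 ^ k (|ρ| + B + 1) ≤ n` such that `¬ MM ρ k 0 n (n + h)` for at most `δ exp ((log n) ^ c)` of the multiples `h` of `ρ` with
  `0 ≤ h ≤ exp ((log n) ^ c)`.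
  Proof: `x` large, `k = kk x` (`2 ^ k ≤ √x`, `k ≥ log x / 2`), `H = exp ((log x) ^ c)`. For every `η` with `|ρ η| ≤ H` the number of the `0 < n ≤ x`
  with `¬ MM ρ k 0 n (n + ρ η)` is (`den`, `uu_rate` for the exponent `c' = (c + 1) / 4 < 1 / 2`, note `c / 2 < c'`) at most
  `(x + √x) C √(1 + log (1 + |η|)) k ^ (-c') ≤ C' x (log x) ^ (c / 2 - c')`. So the number of the pairs `(n, h)`, `0 < n ≤ x`, `ρ ∣ h`, `0 ≤ h ≤ H`,
  `¬ MM ρ k 0 n (n + h)`, is at most `ε x H` for large `x` (`H + 1 ≤ 2 H` values of `h`). If `x / 2 < n ≤ x` then `exp ((log n) ^ c) ≥ H / 2`, because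
  `(log x) ^ c - (log x - log 2) ^ c ≤ log 2` (`c ≤ 1`, concavity, `log x - log 2 ≥ 1`); so (Markov) the number of the `n ∈ (x / 2, x]` with
  more than `δ exp ((log n) ^ c)` bad `h` is at most `2 ε x / δ`. As `cN A x - cN A (x / 2) ≥ a x / 4` for large `x`, and all `n > x / 2` are
  `≥ 2 ^ k (|ρ| + B + 1)`, `N₀`, `3`, there is a good `n` (`ε = a δ / 16`).
* `exc_dens_iff`. `⇒`: `PRE.stay_empty`: some `B` is `≥` an element of every orbit. All the multiples `h = |ρ| i`, `0 ≤ i ≤ exp ((log n) ^ c) / |ρ|`, count,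
  at least `exp ((log n) ^ c) / |ρ|` of them: `δ = 1 / |ρ|`. `⇐`: we may assume `0 ≤ B`. If `E` is infinite then (`POSB.above`) `Above 2 3 r B` has a positive density.
  Take `n`, `k` from `good_dens` with `δ / 2` for `δ`: for all multiples `h ∈ [0, exp ((log n) ^ c)]` of `ρ` with `MM ρ k 0 n (n + h)` the orbit of `n + h` is
  `> B` (`orb_gt` for the first `k` points; afterwards it is the orbit of `n`), so the set in the hypothesis has at most `δ / 2 exp ((log n) ^ c)`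
  elements, a contradiction.
  For `c ≤ 0` (`exp ((log n) ^ c) ≤ exp 1 < 3` for `n ≥ 3`: at most `h = 0, 1, 2`) use instead `Eqv.exc_iff` with the exponent `1 / 4`: the set in the hypothesis is not
  empty, `h ≤ 2 ≤ (log n) ^ (1 / 4)` for large `n`.
* `three_dens_iff`: the same with the complement of the set of the integers which reach `1`, see `Eqv.three_iff`.
-/

set_option autoImplicit false

namespace Pool.Agent.Helper8.CO

open Pool.Agent.Helper68.Moeller Finset Filter Topology Pool.Agent.Helper8.ND Pool.Agent.Helper28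
  Pool.Agent.Helper8

/-- The power of a sum. -/
private theorem add_rpow_le75 {y t c : ℝ} (hy : 1 ≤ y) (ht : 0 ≤ t) (hc : c ≤ 1) :
    (y + t) ^ c ≤ y ^ c + t := by
  have hy0 : 0 < y := by linarith
  have h1 : (1 : ℝ) ≤ 1 + t / y := by
    have := div_nonneg ht hy0.le
    linarith
  have h2 : y + t = y * (1 + t / y) := by
    field_simp
  rw [h2, Real.mul_rpow hy0.le (by linarith)]
  have h3 : (1 + t / y) ^ c ≤ 1 + t / y := by
    calc (1 + t / y) ^ c ≤ (1 + t / y) ^ (1 : ℝ) := Real.rpow_le_rpow_of_exponent_le h1 hc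
      _ = 1 + t / y := Real.rpow_one _
  have h4 : y ^ c ≤ y := by
    calc y ^ c ≤ y ^ (1 : ℝ) := Real.rpow_le_rpow_of_exponent_le hy hc
      _ = y := Real.rpow_one _
  have h5 : 0 ≤ y ^ c := Real.rpow_nonneg hy0.le _
  have h6 : y ^ c / y ≤ 1 := by
    rw [div_le_one hy0]
    exact h4
  calc y ^ c * (1 + t / y) ^ c ≤ y ^ c * (1 + t / y) := mul_le_mul_of_nonneg_left h3 h5
    _ = y ^ c + (y ^ c / y) * t := by ring
    _ ≤ y ^ c + 1 * t := by
        have := mul_le_mul_of_nonneg_right h6 ht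
        linarith
    _ = y ^ c + t := by ring

private lemma wn_den75 {ρ : ℤ} (hρ : Odd ρ) (η : ℤ) (k : ℕ) (a : ℤ) (N : ℕ) {S : Set ℤ}
    (hS : ∀ n ∈ S, a < n ∧ n ≤ a + N ∧ ¬ MM ρ k 0 n (n + ρ * η)) :
    (S.ncard : ℝ) ≤ (N + 2 ^ k) * uu k (0, η) := by
  classical
  refine le_trans (Nat.cast_le.2 ?_) (den hρ η k a N)
  rw [← Set.ncard_coe_finset]
  refine Set.ncard_le_ncard (fun n hn => ?_) (Finset.finite_toSet _)
  obtain ⟨h1, h2, h3⟩ := hS n hn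
  rw [Finset.mem_coe, Finset.mem_filter, Finset.mem_Ioc]
  exact ⟨⟨h1, h2⟩, h3⟩

private lemma wn_floor75 {y : ℝ} (hy : 1 ≤ y) : y / 2 ≤ (⌊y⌋₊ : ℝ) := by
  have h1 := Nat.lt_floor_add_one y
  have h2 : (1 : ℝ) ≤ (⌊y⌋₊ : ℝ) := by
    have : 1 ≤ ⌊y⌋₊ := (Nat.one_le_floor_iff y).2 hy
    exact_mod_cast this
  linarith

private lemma wn_le75 {x : ℝ} (hx : 0 ≤ x) {n : ℤ} (h : (n : ℝ) ≤ x) : n ≤ 0 + (⌊x⌋₊ : ℤ) := by
  rw [zero_add, Int.natCast_floor_eq_floor hx]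
  exact Int.le_floor.2 h

/-- The bad `n` for one difference. -/
private theorem one_bad75 {ρ : ℤ} (hρ : Odd ρ) {c : ℝ} (hc0 : 0 < c) (hc : c < 1) {ε : ℝ}
    (hε : 0 < ε) : ∃ X : ℝ, ∀ x : ℝ, X ≤ x → ∀ η : ℤ,
      |(η : ℝ)| ≤ Real.exp (Real.log x ^ c) →
      ({n : ℤ | 0 < n ∧ (n : ℝ) ≤ x ∧ ¬ MM ρ (kk x) 0 n (n + ρ * η)}.ncard : ℝ) ≤ ε * x := by
  set c' : ℝ := (c + 1) / 4 with hc'
  have hcc : c / 2 < c' := by
    rw [hc']
    linarith
  have hc'2 : c' < 1 / 2 := by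
    rw [hc']
    linarith
  have hc'0 : 0 < c' := by
    rw [hc']
    linarith
  obtain ⟨C₀, hC₀, hr⟩ := uu_rate hc'2
  refine ⟨Real.exp (max 2 ((8 * C₀ / ε) ^ (1 / (c' - c / 2)))), fun x hx η hη => ?_⟩
  have hx0 : 0 < x := (Real.exp_pos _).trans_le hx
  have hLx : max 2 ((8 * C₀ / ε) ^ (1 / (c' - c / 2))) ≤ Real.log x :=
    (Real.le_log_iff_exp_le hx0).2 hx
  set L : ℝ := Real.log x with hL
  have hL2 : 2 ≤ L := (le_max_left _ _).trans hLx
  have hLe : (8 * C₀ / ε) ^ (1 / (c' - c / 2)) ≤ L := (le_max_right _ _).trans hLx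
  have hL0 : 0 < L := by linarith
  have hL1 : 1 ≤ L := by linarith
  have hx1 : 1 ≤ x := by
    by_contra h
    rw [not_le] at h
    have := Real.log_nonpos hx0.le h.le
    linarith
  have hl2 : 0 < Real.log 2 := Real.log_pos (by norm_num)
  have hl21 : Real.log 2 ≤ 1 := by linarith [Real.log_two_lt_d9]
  set k : ℕ := kk x with hk
  have hy : 1 ≤ L / (2 * Real.log 2) := by
    rw [le_div_iff₀ (by positivity)]
    linarith
  have hk1 : 1 ≤ k := (Nat.one_le_floor_iff _).2 hy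
  have hkge : L / (2 * Real.log 2) / 2 ≤ k := wn_floor75 hy
  have hk4 : L / 4 ≤ k := by
    refine le_trans ?_ hkge
    rw [div_div, div_le_div_iff₀ (by norm_num) (by positivity)]
    nlinarith
  have hkc : (k : ℝ) ^ (-c') ≤ 2 * L ^ (-c') := by
    calc (k : ℝ) ^ (-c') ≤ (L / 4) ^ (-c') :=
          Real.rpow_le_rpow_of_nonpos (by positivity) hk4 (by linarith)
      _ = 4 ^ c' * L ^ (-c') := by
          rw [div_eq_mul_inv, Real.mul_rpow hL0.le (by norm_num), Real.inv_rpow (by norm_num),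
            ← Real.rpow_neg (by norm_num), neg_neg, mul_comm]
      _ ≤ 2 * L ^ (-c') := by
          refine mul_le_mul_of_nonneg_right ?_ (by positivity)
          calc (4 : ℝ) ^ c' ≤ (4 : ℝ) ^ (1 / 2 : ℝ) :=
                Real.rpow_le_rpow_of_exponent_le (by norm_num) hc'2.le
            _ = 2 := by
              rw [show (4 : ℝ) = 2 ^ (2 : ℝ) by norm_num, ← Real.rpow_mul (by norm_num)]
              norm_num
  have hpow : (2 : ℝ) ^ k ≤ x := by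
    refine (two_pow_kk_le hx1).trans ?_
    rw [Real.sqrt_le_left hx0.le]
    nlinarith
  have hLc1 : 1 ≤ L ^ c := Real.one_le_rpow hL1 hc0.le
  have hs : Real.sqrt (1 + Real.log (1 + |(η : ℝ)|)) ≤ 2 * L ^ (c / 2) := by
    have h0 : 0 ≤ |(η : ℝ)| := abs_nonneg _
    have h1 : Real.log (1 + |(η : ℝ)|) ≤ 1 + L ^ c := by
      rw [Real.log_le_iff_le_exp (by linarith), Real.exp_add]
      have e1 : (1 : ℝ) ≤ Real.exp (L ^ c) := Real.one_le_exp (by linarith)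
      have e2 : (2 : ℝ) ≤ Real.exp 1 := by linarith [Real.exp_one_gt_d9]
      nlinarith
    rw [Real.sqrt_le_left (by positivity)]
    have h2 : (2 * L ^ (c / 2)) ^ 2 = 4 * L ^ c := by
      rw [mul_pow, ← Real.rpow_natCast (L ^ (c / 2)) 2, ← Real.rpow_mul hL0.le]
      norm_num
    rw [h2]
    linarith
  have hu : uu k (0, η) ≤ C₀ * (2 * L ^ (c / 2)) * (2 * L ^ (-c')) := by
    refine (hr η k hk1).trans ?_
    exact mul_le_mul (mul_le_mul_of_nonneg_left hs hC₀.le) hkc (by positivity) (by positivity)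
  have h1 := wn_den75 hρ η k 0 ⌊x⌋₊
    (S := {n : ℤ | 0 < n ∧ (n : ℝ) ≤ x ∧ ¬ MM ρ k 0 n (n + ρ * η)})
    (fun n hn => ⟨hn.1, wn_le75 hx0.le hn.2.1, hn.2.2⟩)
  have h2 : ((⌊x⌋₊ : ℝ) + 2 ^ k) ≤ 2 * x := by linarith [Nat.floor_le hx0.le]
  have hfinal : 8 * C₀ * (L ^ (c / 2) * L ^ (-c')) ≤ ε := by
    have h3 : 8 * C₀ / ε ≤ L ^ (c' - c / 2) := by
      calc 8 * C₀ / ε = ((8 * C₀ / ε) ^ (1 / (c' - c / 2))) ^ (c' - c / 2) := by
            rw [← Real.rpow_mul (by positivity), one_div, inv_mul_cancel₀ (by linarith),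
              Real.rpow_one]
        _ ≤ L ^ (c' - c / 2) := Real.rpow_le_rpow (by positivity) hLe (by linarith)
    rw [div_le_iff₀ hε] at h3
    have e2 : L ^ (c / 2) * L ^ (-c') = (L ^ (c' - c / 2))⁻¹ := by
      rw [← Real.rpow_add hL0, ← Real.rpow_neg hL0.le]
      congr 1
      ring
    rw [e2, ← div_eq_mul_inv, div_le_iff₀ (Real.rpow_pos_of_pos hL0 _)]
    linarith
  calc ({n : ℤ | 0 < n ∧ (n : ℝ) ≤ x ∧ ¬ MM ρ k 0 n (n + ρ * η)}.ncard : ℝ) ≤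
        ((⌊x⌋₊ : ℝ) + 2 ^ k) * uu k (0, η) := h1
    _ ≤ (2 * x) * (C₀ * (2 * L ^ (c / 2)) * (2 * L ^ (-c'))) :=
        mul_le_mul h2 hu (uu_nonneg _ _) (by positivity)
    _ = 8 * C₀ * (L ^ (c / 2) * L ^ (-c')) * x := by ring
    _ ≤ ε * x := mul_le_mul_of_nonneg_right hfinal hx0.le

/-- The double count. -/
private theorem pairs75 {ρ : ℤ} (hρ0 : ρ ≠ 0) {k : ℕ} {x H b : ℝ} (hH : 1 ≤ H)
    (hb : ∀ η : ℤ, |(η : ℝ)| ≤ H →
      ({n : ℤ | 0 < n ∧ (n : ℝ) ≤ x ∧ ¬ MM ρ k 0 n (n + ρ * η)}.ncard : ℝ) ≤ b)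
    {Q : Finset ℤ} (hQ : ∀ n ∈ Q, 0 < n ∧ (n : ℝ) ≤ x) {m : ℝ}
    (hm : ∀ n ∈ Q, m ≤ ({h : ℤ | 0 ≤ h ∧ (h : ℝ) ≤ H ∧ ρ ∣ h ∧ ¬ MM ρ k 0 n (n + h)}.ncard : ℝ)) :
    (Q.card : ℝ) * m ≤ 2 * H * b := by
  classical
  set F : Finset ℤ := (Finset.Icc (0 : ℤ) ⌊H⌋).filter (fun h => ρ ∣ h) with hF
  have hρ1 : (1 : ℝ) ≤ |(ρ : ℝ)| := by
    have : (1 : ℤ) ≤ |ρ| := Int.one_le_abs hρ0
    exact_mod_cast this
  have hb0 : 0 ≤ b := by
    refine le_trans (Nat.cast_nonneg _) (hb 0 ?_)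
    simp only [Int.cast_zero, abs_zero]
    linarith
  have h1 : ∀ n : ℤ, {h : ℤ | 0 ≤ h ∧ (h : ℝ) ≤ H ∧ ρ ∣ h ∧ ¬ MM ρ k 0 n (n + h)} =
      ((F.filter (fun h => ¬ MM ρ k 0 n (n + h)) : Finset ℤ) : Set ℤ) := by
    intro n
    ext h
    simp only [Set.mem_setOf_eq, Finset.coe_filter, hF, Finset.mem_filter, Finset.mem_Icc,
      Int.le_floor]
    tauto
  have h2 : (Q.card : ℝ) * m ≤
      ∑ n ∈ Q, ((F.filter (fun h => ¬ MM ρ k 0 n (n + h))).card : ℝ) := by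
    rw [← nsmul_eq_mul]
    refine Finset.card_nsmul_le_sum _ _ _ fun n hn => ?_
    have h3 := hm n hn
    rw [h1 n, Set.ncard_coe_finset] at h3
    exact h3
  have h3 : ∑ n ∈ Q, (F.filter (fun h => ¬ MM ρ k 0 n (n + h))).card =
      ∑ h ∈ F, (Q.filter (fun n => ¬ MM ρ k 0 n (n + h))).card :=
    Finset.sum_card_bipartiteAbove_eq_sum_card_bipartiteBelow
      (fun n h => ¬ MM ρ k 0 n (n + h))
  have h4 : ∀ h ∈ F, ((Q.filter (fun n => ¬ MM ρ k 0 n (n + h))).card : ℝ) ≤ b := by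
    intro h hh
    rw [hF, Finset.mem_filter, Finset.mem_Icc, Int.le_floor] at hh
    obtain ⟨⟨hh0, hhH⟩, η, rfl⟩ := hh
    refine le_trans ?_ (hb η ?_)
    · rw [← Set.ncard_coe_finset]
      refine Nat.cast_le.2 (Set.ncard_le_ncard (fun n hn => ?_) ?_)
      · rw [Finset.mem_coe, Finset.mem_filter] at hn
        exact ⟨(hQ n hn.1).1, (hQ n hn.1).2, hn.2⟩
      · refine (Set.finite_Icc (1 : ℤ) ⌊x⌋).subset fun n hn => ?_
        exact ⟨hn.1, Int.le_floor.2 hn.2.1⟩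
    · have e1 : |((ρ * η : ℤ) : ℝ)| ≤ H := by
        rw [abs_of_nonneg (by exact_mod_cast hh0)]
        exact hhH
      push_cast at e1
      rw [abs_mul] at e1
      exact (le_mul_of_one_le_left (abs_nonneg _) hρ1).trans e1
  have h5 : (F.card : ℝ) ≤ 2 * H := by
    have e1 : F.card ≤ (Finset.Icc (0 : ℤ) ⌊H⌋).card := Finset.card_filter_le _ _
    rw [Int.card_Icc] at e1
    have e2 : (0 : ℤ) ≤ ⌊H⌋ := Int.floor_nonneg.2 (by linarith)
    have e3 : ((⌊H⌋ + 1 - 0).toNat : ℤ) = ⌊H⌋ + 1 := by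
      rw [sub_zero, Int.toNat_of_nonneg (by linarith)]
    have e4 : ((⌊H⌋ + 1 - 0).toNat : ℝ) = (⌊H⌋ : ℝ) + 1 := by
      exact_mod_cast e3
    have e5 : (F.card : ℝ) ≤ (⌊H⌋ : ℝ) + 1 := by
      rw [← e4]
      exact_mod_cast e1
    have e6 : (⌊H⌋ : ℝ) ≤ H := Int.floor_le H
    linarith
  calc (Q.card : ℝ) * m ≤ ∑ n ∈ Q, ((F.filter (fun h => ¬ MM ρ k 0 n (n + h))).card : ℝ) := h2
    _ = ∑ h ∈ F, ((Q.filter (fun n => ¬ MM ρ k 0 n (n + h))).card : ℝ) := by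
        exact_mod_cast h3
    _ ≤ F.card • b := Finset.sum_le_card_nsmul _ _ _ h4
    _ = F.card * b := nsmul_eq_mul _ _
    _ ≤ 2 * H * b := mul_le_mul_of_nonneg_right h5 hb0

theorem good_dens {ρ : ℤ} (hρ : Odd ρ) {A : Set ℤ} {a c B δ : ℝ} (ha : 0 < a)
    (hA : Tendsto (fun x : ℝ => cN A x / x) atTop (𝓝 a)) (hc0 : 0 < c) (hc : c < 1)
    (hB : 0 ≤ B) (hδ : 0 < δ) (N₀ : ℝ) : ∃ (n : ℤ) (k : ℕ), n ∈ A ∧ N₀ ≤ n ∧ 3 ≤ n ∧
      (2 : ℝ) ^ k * (|(ρ : ℝ)| + B + 1) ≤ n ∧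
      ({h : ℤ | 0 ≤ h ∧ (h : ℝ) ≤ Real.exp (Real.log n ^ c) ∧ ρ ∣ h ∧
        ¬ MM ρ k 0 n (n + h)}.ncard : ℝ) ≤ δ * Real.exp (Real.log n ^ c) := by
  classical
  have hρ0 : ρ ≠ 0 := by
    rintro rfl
    exact absurd hρ (by decide)
  obtain ⟨X, hX⟩ := one_bad75 hρ hc0 hc (ε := a * δ / 32) (by positivity)
  set K : ℝ := |(ρ : ℝ)| + B + 1 with hK
  have hK0 : 0 < K := by
    have := abs_nonneg (ρ : ℝ)
    linarith
  have hev1 := hA.eventually (lt_mem_nhds (by linarith : 7 / 8 * a < a))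
  have hhalf : Tendsto (fun x : ℝ => x / 2) atTop atTop :=
    tendsto_id.atTop_div_const (by norm_num)
  have hev2 := (hA.comp hhalf).eventually (gt_mem_nhds (by linarith : a < 9 / 8 * a))
  obtain ⟨x, hx1, hx2, hx3, hx4, hx5, hx6⟩ := (hev1.and (hev2.and ((eventually_ge_atTop X).and
    ((eventually_ge_atTop ((2 * K) ^ 2)).and ((eventually_ge_atTop (2 * |N₀|)).and
      (eventually_ge_atTop (Real.exp 2))))))).exists
  simp only [Function.comp] at hx2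
  have he2 : (6 : ℝ) ≤ Real.exp 2 := by
    have h1 : Real.exp 2 = Real.exp 1 * Real.exp 1 := by
      rw [← Real.exp_add]
      norm_num
    rw [h1]
    have := Real.exp_one_gt_d9
    nlinarith
  have hx0 : 0 < x := by linarith
  have hx10 : 1 ≤ x := by linarith
  rw [lt_div_iff₀ hx0] at hx1
  rw [div_lt_iff₀ (by linarith)] at hx2
  have hlx : 2 ≤ Real.log x := by
    rw [Real.le_log_iff_exp_le hx0]
    exact hx6
  have hax : 0 < a * x := mul_pos ha hx0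
  set H : ℝ := Real.exp (Real.log x ^ c) with hH
  have hH0 : 0 < H := Real.exp_pos _
  have hH1 : 1 ≤ H := Real.one_le_exp (Real.rpow_nonneg (by linarith) _)
  have hsq : 2 * K ≤ Real.sqrt x := Real.le_sqrt_of_sq_le hx4
  have hsK : Real.sqrt x * K ≤ x / 2 := by
    have e1 : Real.sqrt x * (2 * K) ≤ Real.sqrt x * Real.sqrt x :=
      mul_le_mul_of_nonneg_left hsq (Real.sqrt_nonneg x)
    rw [Real.mul_self_sqrt hx0.le] at e1
    linarith
  have hHn : ∀ n : ℤ, x / 2 < (n : ℝ) → H / 2 ≤ Real.exp (Real.log n ^ c) := by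
    intro n hn
    have hn0 : (0 : ℝ) < n := by linarith
    have hl2 : Real.log 2 ≤ 1 := by linarith [Real.log_two_lt_d9]
    have hl20 : 0 < Real.log 2 := Real.log_pos (by norm_num)
    have e1 : Real.log x ≤ Real.log n + Real.log 2 := by
      rw [← Real.log_mul hn0.ne' (by norm_num)]
      exact Real.log_le_log hx0 (by linarith)
    have e2 : 1 ≤ Real.log n := by linarith
    have e3 : Real.log x ^ c ≤ Real.log n ^ c + Real.log 2 :=
      (Real.rpow_le_rpow (by linarith) e1 hc0.le).trans (add_rpow_le75 e2 hl20.le hc.le)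
    have e4 : H ≤ Real.exp (Real.log n ^ c) * 2 := by
      rw [hH]
      calc Real.exp (Real.log x ^ c) ≤ Real.exp (Real.log n ^ c + Real.log 2) :=
            Real.exp_le_exp.2 e3
        _ = Real.exp (Real.log n ^ c) * 2 := by
            rw [Real.exp_add, Real.exp_log (by norm_num)]
    linarith
  have hHn' : ∀ n : ℤ, 0 < n → (n : ℝ) ≤ x → Real.exp (Real.log n ^ c) ≤ H := by
    intro n hn0 hnx
    have h1 : (1 : ℝ) ≤ n := by exact_mod_cast hn0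
    exact Real.exp_le_exp.2 (Real.rpow_le_rpow (Real.log_nonneg h1)
      (Real.log_le_log (by linarith) hnx) hc0.le)
  set Q : Finset ℤ := (Finset.Icc (1 : ℤ) ⌊x⌋).filter (fun n => n ∈ A ∧ x / 2 < (n : ℝ)) with hQ
  have hQmem : ∀ n ∈ Q, 0 < n ∧ (n : ℝ) ≤ x ∧ n ∈ A ∧ x / 2 < (n : ℝ) := by
    intro n hn
    rw [hQ, Finset.mem_filter, Finset.mem_Icc, Int.le_floor] at hn
    obtain ⟨⟨h1, h2⟩, h3, h4⟩ := hn
    exact ⟨by omega, h2, h3, h4⟩
  have hQc : a * x / 4 ≤ (Q.card : ℝ) := by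
    have hsub : {n : ℤ | n ∈ A ∧ 0 < n ∧ (n : ℝ) ≤ x} ⊆
        {n : ℤ | n ∈ A ∧ 0 < n ∧ (n : ℝ) ≤ x / 2} ∪ (Q : Set ℤ) := by
      rintro n ⟨h1, h2, h3⟩
      by_cases h4 : (n : ℝ) ≤ x / 2
      · exact Or.inl ⟨h1, h2, h4⟩
      · refine Or.inr ?_
        rw [hQ, Finset.mem_coe, Finset.mem_filter, Finset.mem_Icc, Int.le_floor]
        exact ⟨⟨by omega, h3⟩, h1, not_le.1 h4⟩
    have h1 := (Set.ncard_le_ncard hsub ((finite_cN A (x / 2)).union
      (Finset.finite_toSet Q))).trans (Set.ncard_union_le _ _)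
    rw [Set.ncard_coe_finset] at h1
    have h2 : cN A x ≤ cN A (x / 2) + Q.card := by
      unfold cN
      exact_mod_cast h1
    linarith
  have hex : ∃ n ∈ Q, ({h : ℤ | 0 ≤ h ∧ (h : ℝ) ≤ H ∧ ρ ∣ h ∧
      ¬ MM ρ (kk x) 0 n (n + h)}.ncard : ℝ) ≤ δ * (H / 2) := by
    by_contra hcon
    push Not at hcon
    have h1 := pairs75 hρ0 (k := kk x) (x := x) (H := H) (b := a * δ / 32 * x) hH1
      (fun η hη => hX x hx3 η hη) (Q := Q) (fun n hn => ⟨(hQmem n hn).1, (hQmem n hn).2.1⟩)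
      (m := δ * (H / 2)) (fun n hn => (hcon n hn).le)
    have h2 : a * x / 4 * (δ * (H / 2)) ≤ (Q.card : ℝ) * (δ * (H / 2)) :=
      mul_le_mul_of_nonneg_right hQc (by positivity)
    have h3 : 0 < a * x * δ * H := by positivity
    have h4 : a * x / 4 * (δ * (H / 2)) = a * x * δ * H / 8 := by ring
    have h5 : 2 * H * (a * δ / 32 * x) = a * x * δ * H / 16 := by ring
    rw [h5] at h1
    rw [h4] at h2
    linarith
  obtain ⟨n, hnQ, hn⟩ := hex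
  obtain ⟨hn0, hnx, hnA, hnx2⟩ := hQmem n hnQ
  refine ⟨n, kk x, hnA, ?_, ?_, ?_, ?_⟩
  · have := le_abs_self N₀
    linarith
  · have : (3 : ℝ) < n := by linarith
    have : (3 : ℤ) < n := by exact_mod_cast this
    omega
  · have h1 := mul_le_mul_of_nonneg_right (two_pow_kk_le hx10) hK0.le
    linarith
  · refine le_trans ?_ (hn.trans (mul_le_mul_of_nonneg_left (hHn n hnx2) hδ.le))
    refine Nat.cast_le.2 (Set.ncard_le_ncard ?_ ?_)
    · rintro h ⟨h1, h2, h3, h4⟩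
      exact ⟨h1, h2.trans (hHn' n hn0 hnx), h3, h4⟩
    · refine (Set.finite_Icc (0 : ℤ) ⌊H⌋).subset fun h hh => ?_
      exact ⟨hh.1, Int.le_floor.2 hh.2.1⟩

/-- The contradiction from an orbit which goes below `B`. -/
private theorem no_low75 {ρ : ℤ} (hρ : Odd ρ) {n h : ℤ} {k t : ℕ} {B : ℝ} (hB : 0 ≤ B)
    (hn : (2 : ℝ) ^ k * (|(ρ : ℝ)| + B + 1) ≤ n) (hh : 0 ≤ h) (hM : MM ρ k 0 n (n + h))
    (ht : ((T 2 3 (fun _ => ρ))^[t] (n + h) : ℝ) ≤ B) :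
    (T 2 3 (fun _ => ρ))^[t] n = (T 2 3 (fun _ => ρ))^[t] (n + h) := by
  rcases le_total t k with hk | hk
  · exfalso
    have hn' : (2 : ℝ) ^ k * (|(ρ : ℝ)| + B + 1) ≤ ((n + h : ℤ) : ℝ) := by
      have : (0 : ℝ) ≤ h := by exact_mod_cast hh
      push_cast
      linarith
    have := orb_gt hρ hB hn' hk
    linarith
  · obtain ⟨s, rfl⟩ := Nat.exists_eq_add_of_le hk
    rw [Nat.add_comm k s, Function.iterate_add_apply, Function.iterate_add_apply, hM.1]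

/-- The number of the multiples. -/
private theorem mult_count75 {ρ : ℤ} (hρ : ρ ≠ 0) {H : ℝ} :
    H / |(ρ : ℝ)| ≤ ({h : ℤ | 0 ≤ h ∧ (h : ℝ) ≤ H ∧ ρ ∣ h}.ncard : ℝ) := by
  have hρ1 : (0 : ℝ) < |(ρ : ℝ)| := abs_pos.2 (by exact_mod_cast hρ)
  rcases lt_or_ge H 0 with hH | hH
  · exact (div_nonpos_of_nonpos_of_nonneg hH.le hρ1.le).trans (Nat.cast_nonneg _)
  set J : ℕ := ⌊H / |(ρ : ℝ)|⌋₊ with hJ
  have hJ0 : (J : ℝ) ≤ H / |(ρ : ℝ)| := Nat.floor_le (by positivity)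
  have hinj : Set.InjOn (fun i : ℕ => |ρ| * (i : ℤ)) (Finset.range (J + 1) : Set ℕ) := by
    intro i _ j _ hij
    have h1 : |ρ| * (i : ℤ) = |ρ| * (j : ℤ) := hij
    have h2 : (i : ℤ) = j := mul_left_cancel₀ (abs_ne_zero.2 hρ) h1
    exact_mod_cast h2
  have h1 : ((fun i : ℕ => |ρ| * (i : ℤ)) '' (Finset.range (J + 1) : Set ℕ)).ncard = J + 1 := by
    rw [Set.ncard_image_of_injOn hinj, Set.ncard_coe_finset, Finset.card_range]
  have h2 : J + 1 ≤ {h : ℤ | 0 ≤ h ∧ (h : ℝ) ≤ H ∧ ρ ∣ h}.ncard := by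
    rw [← h1]
    refine Set.ncard_le_ncard ?_ ?_
    · rintro _ ⟨i, hi, rfl⟩
      rw [Finset.mem_coe, Finset.mem_range] at hi
      refine ⟨by positivity, ?_, ((dvd_abs ρ ρ).2 (dvd_refl ρ)).mul_right _⟩
      have e1 : (i : ℝ) ≤ J := by
        have : i ≤ J := by omega
        exact_mod_cast this
      have e2 : (i : ℝ) ≤ H / |(ρ : ℝ)| := e1.trans hJ0
      rw [le_div_iff₀ hρ1] at e2
      push_cast
      linarith
    · refine (Set.finite_Icc (0 : ℤ) ⌊H⌋).subset fun h hh => ?_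
      exact ⟨hh.1, Int.le_floor.2 hh.2.1⟩
  have h3 : H / |(ρ : ℝ)| ≤ (J : ℝ) + 1 := (Nat.lt_floor_add_one _).le
  refine h3.trans ?_
  exact_mod_cast h2

/-- Small exponents. -/
private theorem small75 {c : ℝ} (hc : c ≤ 0) {n h : ℤ} (hn : Real.exp 16 ≤ n)
    (hh : (h : ℝ) ≤ Real.exp (Real.log n ^ c)) : (h : ℝ) ≤ Real.log n ^ (1 / 4 : ℝ) := by
  have hn0 : (0 : ℝ) < n := (Real.exp_pos _).trans_le hn
  have hl : 16 ≤ Real.log n := (Real.le_log_iff_exp_le hn0).2 hn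
  have h1 : Real.log n ^ c ≤ 1 := Real.rpow_le_one_of_one_le_of_nonpos (by linarith) hc
  have h2 : (h : ℝ) < 3 := by
    have := Real.exp_le_exp.2 h1
    have := Real.exp_one_lt_d9
    linarith
  have h3 : h ≤ 2 := by
    have : h < 3 := by exact_mod_cast h2
    omega
  have h4 : (h : ℝ) ≤ 2 := by exact_mod_cast h3
  have h5 : (16 : ℝ) ^ (1 / 4 : ℝ) ≤ Real.log n ^ (1 / 4 : ℝ) :=
    Real.rpow_le_rpow (by norm_num) hl (by norm_num)
  have h6 : (16 : ℝ) ^ (1 / 4 : ℝ) = 2 := by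
    rw [show (16 : ℝ) = 2 ^ (4 : ℝ) by norm_num, ← Real.rpow_mul (by norm_num)]
    norm_num
  linarith

theorem exc_dens_iff {r : ℤ → ℤ} (hr : Admissible 2 3 r) {c : ℝ} (hc : c < 1) :
    (E 2 3 r).Finite ↔ ∃ B δ N : ℝ, 0 < δ ∧ ∀ n : ℤ, N ≤ n →
      δ * Real.exp (Real.log n ^ c) ≤ ({h : ℤ | 0 ≤ h ∧ (h : ℝ) ≤ Real.exp (Real.log n ^ c) ∧
        r 1 ∣ h ∧ ∃ t : ℕ, ((T 2 3 r)^[t] (n + h) : ℝ) ≤ B}.ncard : ℝ) := by
  have hr0 : r 1 ≠ 0 := by
    intro h0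
    have := odd_of_adm hr
    rw [h0] at this
    exact absurd this (by decide)
  constructor
  · intro hfin
    obtain ⟨B, hB⟩ := PRE.stay_empty (le_refl 2) hr hfin
    refine ⟨B, 1 / |((r 1 : ℤ) : ℝ)|, 3, ?_, fun n hn => ?_⟩
    · have : (0 : ℝ) < |((r 1 : ℤ) : ℝ)| := abs_pos.2 (by exact_mod_cast hr0)
      positivity
    have h1 := mult_count75 hr0 (H := Real.exp (Real.log n ^ c))
    have h2 : {h : ℤ | 0 ≤ h ∧ (h : ℝ) ≤ Real.exp (Real.log n ^ c) ∧ r 1 ∣ h} =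
        {h : ℤ | 0 ≤ h ∧ (h : ℝ) ≤ Real.exp (Real.log n ^ c) ∧
        r 1 ∣ h ∧ ∃ t : ℕ, ((T 2 3 r)^[t] (n + h) : ℝ) ≤ B} := by
      ext h
      simp only [Set.mem_setOf_eq]
      refine ⟨fun ⟨a1, a2, a3⟩ => ⟨a1, a2, a3, ?_⟩, fun ⟨a1, a2, a3, _⟩ => ⟨a1, a2, a3⟩⟩
      have h1 := hB (n + h)
      push Not at h1
      obtain ⟨t, -, ht⟩ := h1 0
      exact ⟨t, ht⟩
    rw [← h2]
    calc 1 / |((r 1 : ℤ) : ℝ)| * Real.exp (Real.log n ^ c) =
          Real.exp (Real.log n ^ c) / |((r 1 : ℤ) : ℝ)| := by ring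
      _ ≤ _ := h1
  · rintro ⟨B, δ, N, hδ, hBN⟩
    rcases le_or_gt c 0 with hc0 | hc0
    · refine (exc_iff hr (c := 1 / 4) (by norm_num)).2 ⟨B, max N (Real.exp 16), fun n hn => ?_⟩
      have h1 := hBN n ((le_max_left _ _).trans hn)
      have h2 : 0 < δ * Real.exp (Real.log n ^ c) := by positivity
      have h3 : 0 < {h : ℤ | 0 ≤ h ∧ (h : ℝ) ≤ Real.exp (Real.log n ^ c) ∧
        r 1 ∣ h ∧ ∃ t : ℕ, ((T 2 3 r)^[t] (n + h) : ℝ) ≤ B}.ncard := by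
        exact_mod_cast h2.trans_le h1
      obtain ⟨h, hh0, hh1, hh2, t, ht⟩ := Set.nonempty_of_ncard_ne_zero h3.ne'
      exact ⟨h, t, hh0, hh2, small75 hc0 ((le_max_right _ _).trans hn) hh1, ht⟩
    · by_contra hinf
      have hstd : POSB.Std 2 3 r :=
        ⟨le_refl 2, by norm_num, by norm_num, POS.three_hyp.1, hr⟩
      obtain ⟨β, hβ, hE⟩ := POSB.above hstd
      have hβ0 : β (max B 0) ≠ 0 := fun h0 => hinf (hE.2 ⟨_, h0⟩)
      have hβ1 : 0 < β (max B 0) := by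
        refine lt_of_le_of_ne (ge_of_tendsto (hβ (max B 0)) ?_) hβ0.symm
        filter_upwards [eventually_gt_atTop 0] with x hx
        exact div_nonneg (cN_nonneg _ x) hx.le
      obtain ⟨n, k, hnA, hnN, hn3, hnk, hM⟩ := good_dens (odd_of_adm hr) hβ1 (hβ (max B 0))
        hc0 hc (le_max_right B 0) (half_pos hδ) N
      have h1 := hBN n hnN
      have h2 : {h : ℤ | 0 ≤ h ∧ (h : ℝ) ≤ Real.exp (Real.log n ^ c) ∧
          r 1 ∣ h ∧ ∃ t : ℕ, ((T 2 3 r)^[t] (n + h) : ℝ) ≤ B} ⊆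
          {h : ℤ | 0 ≤ h ∧ (h : ℝ) ≤ Real.exp (Real.log n ^ c) ∧ r 1 ∣ h ∧
            ¬ MM (r 1) k 0 n (n + h)} := by
        rintro h ⟨a1, a2, a3, t, ht⟩
        refine ⟨a1, a2, a3, fun hMM => ?_⟩
        have h2 : ((T 2 3 (fun _ => r 1))^[t] (n + h) : ℝ) ≤ max B 0 := by
          rw [← T_eq]
          exact ht.trans (le_max_left _ _)
        have h3 := no_low75 (odd_of_adm hr) (le_max_right B 0) hnk a1 hMM h2
        have h4 := hnA t
        rw [T_eq, h3] at h4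
        linarith
      have h3 := Set.ncard_le_ncard h2 ((Set.finite_Icc (0 : ℤ)
        ⌊Real.exp (Real.log n ^ c)⌋).subset fun h hh => ⟨hh.1, Int.le_floor.2 hh.2.1⟩)
      have h4 : 0 < δ * Real.exp (Real.log n ^ c) := by positivity
      have h5 := h1.trans ((Nat.cast_le.2 h3).trans hM)
      linarith

theorem three_dens_iff {c : ℝ} (hc : c < 1) :
    (∀ n : ℤ, 0 < n → ∃ t : ℕ, (T 2 3 (fun _ => -1))^[t] n = 1) ↔
      ∃ δ N : ℝ, 0 < δ ∧ ∀ n : ℤ, N ≤ n →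
        δ * Real.exp (Real.log n ^ c) ≤ ({h : ℤ | 0 ≤ h ∧ (h : ℝ) ≤ Real.exp (Real.log n ^ c) ∧
          ∃ t : ℕ, (T 2 3 (fun _ => -1))^[t] (n + h) = 1}.ncard : ℝ) := by
  constructor
  · intro hall
    refine ⟨1, 1, one_pos, fun n hn => ?_⟩
    have hn1 : (1 : ℤ) ≤ n := by exact_mod_cast hn
    have h1 := mult_count75 (one_ne_zero (α := ℤ)) (H := Real.exp (Real.log n ^ c))
    have h2 : {h : ℤ | 0 ≤ h ∧ (h : ℝ) ≤ Real.exp (Real.log n ^ c) ∧ (1 : ℤ) ∣ h} =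
        {h : ℤ | 0 ≤ h ∧ (h : ℝ) ≤ Real.exp (Real.log n ^ c) ∧
          ∃ t : ℕ, (T 2 3 (fun _ => -1))^[t] (n + h) = 1} := by
      ext h
      simp only [Set.mem_setOf_eq]
      exact ⟨fun ⟨a1, a2, _⟩ => ⟨a1, a2, hall (n + h) (by omega)⟩,
        fun ⟨a1, a2, _⟩ => ⟨a1, a2, one_dvd _⟩⟩
    rw [← h2]
    simp only [Int.cast_one, abs_one, div_one] at h1
    linarith
  · rintro ⟨δ, N, hδ, hN⟩
    rcases le_or_gt c 0 with hc0 | hc0
    · refine (three_iff (c := 1 / 4) (by norm_num)).2 ⟨max N (Real.exp 16), fun n hn => ?_⟩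
      have h1 := hN n ((le_max_left _ _).trans hn)
      have h2 : 0 < δ * Real.exp (Real.log n ^ c) := by positivity
      have h3 : 0 < {h : ℤ | 0 ≤ h ∧ (h : ℝ) ≤ Real.exp (Real.log n ^ c) ∧
          ∃ t : ℕ, (T 2 3 (fun _ => -1))^[t] (n + h) = 1}.ncard := by
        exact_mod_cast h2.trans_le h1
      obtain ⟨h, hh0, hh1, t, ht⟩ := Set.nonempty_of_ncard_ne_zero h3.ne'
      exact ⟨h, t, hh0, small75 hc0 ((le_max_right _ _).trans hn) hh1, ht⟩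
    · obtain ⟨p, hp0, hp, hp1⟩ := POSB.three
      by_contra hcon
      set G : Set ℤ := {n : ℤ | ∃ t : ℕ, (T 2 3 (fun _ => -1))^[t] n = 1} with hG
      have hpne : p ≠ 1 := fun h => hcon (hp1.1 h)
      have hple : p ≤ 1 := by
        refine le_of_tendsto hp ?_
        filter_upwards [eventually_gt_atTop 0] with x hx
        rw [div_le_one hx]
        exact cN_le G hx.le
      have hplt : 0 < 1 - p := by
        have := lt_of_le_of_ne hple hpne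
        linarith
      have hA : Tendsto (fun x : ℝ => cN Gᶜ x / x) atTop (𝓝 (1 - p)) := by
        have h1 := (POSB.cN_univ_tendsto (G := G ∪ Gᶜ) fun n _ => by
          rw [Set.union_compl_self]
          exact Set.mem_univ n).sub hp
        refine h1.congr fun x => ?_
        rw [POSB.cN_union disjoint_compl_right]
        ring
      have hodd : Odd (-1 : ℤ) := by decide
      obtain ⟨n, k, hnA, hnN, hn3, hnk, hM⟩ := good_dens hodd hplt hA hc0 hc zero_le_one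
        (half_pos hδ) N
      have h1 := hN n hnN
      have h2 : {h : ℤ | 0 ≤ h ∧ (h : ℝ) ≤ Real.exp (Real.log n ^ c) ∧
          ∃ t : ℕ, (T 2 3 (fun _ => -1))^[t] (n + h) = 1} ⊆
          {h : ℤ | 0 ≤ h ∧ (h : ℝ) ≤ Real.exp (Real.log n ^ c) ∧ (-1 : ℤ) ∣ h ∧
            ¬ MM (-1) k 0 n (n + h)} := by
        rintro h ⟨a1, a2, t, ht⟩
        refine ⟨a1, a2, by norm_num, fun hMM => ?_⟩
        have h2 : ((T 2 3 (fun _ => (-1 : ℤ)))^[t] (n + h) : ℝ) ≤ 1 := by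
          rw [ht]
          norm_num
        have h3 := no_low75 hodd zero_le_one hnk a1 hMM h2
        exact hnA ⟨t, h3.trans ht⟩
      have h3 := Set.ncard_le_ncard h2 ((Set.finite_Icc (0 : ℤ)
        ⌊Real.exp (Real.log n ^ c)⌋).subset fun h hh => ⟨hh.1, Int.le_floor.2 hh.2.1⟩)
      have h4 : 0 < δ * Real.exp (Real.log n ^ c) := by positivity
      have h5 := h1.trans ((Nat.cast_le.2 h3).trans hM)
      linarith

end Pool.Agent.Helper8.CO
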