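import Pool.Agent.Helper8.CO.Wt

/-!
# CO-EX: the function for the exit time

`Fx M W (c, β) = G c * (1 + ℓ wt)`, `G c = max (1 - c ^ 2 / (2 M ^ 2)) 0`, `ℓ = 1 / (4 M ^ 2 W)`, so `ℓ W = 1 / (4 M ^ 2) ≤ 1 / 4`.
For `c ≤ M`: `G c = 1 - c ^ 2 / (2 M ^ 2) ≥ 1 / 2`. Claim: `av Fx x ≤ (1 - ℓ / 2) Fx x` for `x = (c, β) ≠ (0, 0)`, `c < M`, if `wt ≤ W` at
`x` and at its two successors.

* `β` even: `c` does not change, `av Fx x = G c (1 + ℓ av wt x) ≤ G c (1 + ℓ (wt x - 1)) = Fx x - ℓ G c` (`wt_step`), and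
  `ℓ G c ≥ ℓ / 2 * G c (1 + ℓ wt x)` because `ℓ wt x ≤ 1`.
* `β` odd: `wt x = 0`, `Fx x = G c`. `c ≥ 1`: levels `c + 1 ≤ M` and `c - 1`: `(G (c + 1) + G (c - 1)) / 2 = G c - 1 / (2 M ^ 2)
  ≤ G c (1 - 1 / (2 M ^ 2))` (as `G c ≤ 1`); `c = 0`: both levels are `1`: `G 1 = 1 - 1 / (2 M ^ 2)`. So
  `av Fx x ≤ G c (1 - 1 / (2 M ^ 2)) (1 + 1 / (4 M ^ 2)) ≤ G c (1 - 1 / (4 M ^ 2)) ≤ G c (1 - ℓ / 2)`.
-/

set_option autoImplicit false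

namespace Pool.Agent.Helper8.CO

open Finset

private theorem den65 {M : ℕ} {W : ℝ} (hM : 1 ≤ M) (hW : 1 ≤ W) : 1 ≤ 4 * (M : ℝ) ^ 2 * W := by
  have h1 : (1 : ℝ) ≤ M := by exact_mod_cast hM
  have h2 : (1 : ℝ) ≤ (M : ℝ) ^ 2 := by nlinarith
  nlinarith

theorem Fx_nonneg {M : ℕ} {W : ℝ} (hW : 1 ≤ W) (x : ℕ × ℤ) : 0 ≤ Fx M W x := by
  unfold Fx
  have h1 : 0 ≤ wt x / (4 * (M : ℝ) ^ 2 * W) := div_nonneg (wt_nonneg x) (by positivity)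
  exact mul_nonneg (le_max_right _ _) (by linarith)

/-- The first factor. -/
private theorem G65 {M c : ℕ} (hM : 1 ≤ M) (hc : c ≤ M) :
    max (1 - (c : ℝ) ^ 2 / (2 * (M : ℝ) ^ 2)) 0 = 1 - 2 * (1 / (4 * (M : ℝ) ^ 2)) * (c : ℝ) ^ 2 ∧
      1 / 2 ≤ 1 - 2 * (1 / (4 * (M : ℝ) ^ 2)) * (c : ℝ) ^ 2 := by
  have h1 : (1 : ℝ) ≤ M := by exact_mod_cast hM
  have h2 : (c : ℝ) ≤ M := by exact_mod_cast hc
  have h3 : (c : ℝ) ^ 2 ≤ (M : ℝ) ^ 2 := pow_le_pow_left₀ (Nat.cast_nonneg _) h2 2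
  have h4 : (0 : ℝ) < (M : ℝ) ^ 2 := by positivity
  have h5 : 2 * (1 / (4 * (M : ℝ) ^ 2)) * (c : ℝ) ^ 2 = (c : ℝ) ^ 2 / (2 * (M : ℝ) ^ 2) := by
    field_simp
    norm_num
  have h6 : (c : ℝ) ^ 2 / (2 * (M : ℝ) ^ 2) ≤ 1 / 2 := by
    rw [div_le_div_iff₀ (by positivity) (by norm_num)]
    linarith
  rw [h5]
  exact ⟨max_eq_left (by linarith), by linarith⟩

theorem Fx_ge {M : ℕ} {W : ℝ} (hM : 1 ≤ M) (hW : 1 ≤ W) {x : ℕ × ℤ} (hx : x.1 < M) :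
    1 / 2 ≤ Fx M W x := by
  unfold Fx
  obtain ⟨h1, h2⟩ := G65 hM hx.le
  rw [h1]
  have h3 : 0 ≤ wt x / (4 * (M : ℝ) ^ 2 * W) := div_nonneg (wt_nonneg x) (by positivity)
  nlinarith

theorem Fx_le {M : ℕ} {W : ℝ} (hM : 1 ≤ M) (hW : 1 ≤ W) (x : ℕ × ℤ) : Fx M W x ≤ 1 + wt x := by
  unfold Fx
  have h1 := den65 hM hW
  have h2 : wt x / (4 * (M : ℝ) ^ 2 * W) ≤ wt x := div_le_self (wt_nonneg x) h1
  have h3 : 0 ≤ wt x / (4 * (M : ℝ) ^ 2 * W) := div_nonneg (wt_nonneg x) (by positivity)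
  have h4 : max (1 - (x.1 : ℝ) ^ 2 / (2 * (M : ℝ) ^ 2)) 0 ≤ 1 := by
    apply max_le _ zero_le_one
    have : (0 : ℝ) ≤ (x.1 : ℝ) ^ 2 / (2 * (M : ℝ) ^ 2) := by positivity
    linarith
  calc max (1 - (x.1 : ℝ) ^ 2 / (2 * (M : ℝ) ^ 2)) 0 * (1 + wt x / (4 * (M : ℝ) ^ 2 * W))
      ≤ 1 * (1 + wt x / (4 * (M : ℝ) ^ 2 * W)) := mul_le_mul_of_nonneg_right h4 (by linarith)
    _ ≤ 1 + wt x := by linarith

private theorem half_nn65 : (0 : ℝ) ≤ 1 / 2 := by norm_num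

/-- Odd `β`. -/
private theorem odd65 {A B W g w0 w1 : ℝ} {c : ℝ} (hA : 0 < A) (hB : 0 < B) (hBA : B ≤ A)
    (hBW : B * W = A) (hg : g = 1 - 2 * A * c ^ 2) (hg2 : 1 / 2 ≤ g) {g0 g1 : ℝ}
    (h0 : 0 ≤ g0) (h1 : 0 ≤ g1) (hs : g0 + g1 = 2 * (g - 2 * A)) (hw0 : w0 ≤ W) (hw1 : w1 ≤ W) :
    (g0 * (1 + B * w0) + g1 * (1 + B * w1)) / 2 ≤ (1 - B / 2) * g := by
  have e0 : g0 * (1 + B * w0) ≤ g0 * (1 + A) := by
    apply mul_le_mul_of_nonneg_left _ h0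
    have := mul_le_mul_of_nonneg_left hw0 hB.le
    linarith
  have e1 : g1 * (1 + B * w1) ≤ g1 * (1 + A) := by
    apply mul_le_mul_of_nonneg_left _ h1
    have := mul_le_mul_of_nonneg_left hw1 hB.le
    linarith
  have e2 : g ≤ 1 := by
    rw [hg]
    have : 0 ≤ 2 * A * c ^ 2 := by positivity
    linarith
  have e3 : g0 * (1 + A) + g1 * (1 + A) = 2 * (g - 2 * A) * (1 + A) := by rw [← hs]; ring
  have e4 : (g - 2 * A) * (1 + A) ≤ (g - 2 * A * g) * (1 + A) := by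
    apply mul_le_mul_of_nonneg_right _ (by linarith)
    nlinarith
  nlinarith [mul_pos hA hA, mul_pos (mul_pos hA hA) (by linarith : 0 < g)]

theorem Fx_drift {M : ℕ} {W : ℝ} (hM : 1 ≤ M) (hW : 1 ≤ W) {x : ℕ × ℤ} (h0 : x ≠ (0, 0))
    (hx : x.1 < M) (h : wt x ≤ W) (h1 : wt (nx0 x) ≤ W) (h2 : wt (nx1 x) ≤ W) :
    av (Fx M W) x ≤ (1 - 1 / (8 * (M : ℝ) ^ 2 * W)) * Fx M W x := by
  obtain ⟨A, hAd⟩ : ∃ A : ℝ, A = 1 / (4 * (M : ℝ) ^ 2) := ⟨_, rfl⟩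
  obtain ⟨B, hBd⟩ : ∃ B : ℝ, B = A / W := ⟨_, rfl⟩
  have hMr : (1 : ℝ) ≤ M := by exact_mod_cast hM
  have hM2 : (1 : ℝ) ≤ (M : ℝ) ^ 2 := by nlinarith
  have hA : 0 < A := by rw [hAd]; positivity
  have hA4 : A ≤ 1 / 4 := by
    rw [hAd]
    exact one_div_le_one_div_of_le (by norm_num) (by linarith)
  have hB : 0 < B := by rw [hBd]; positivity
  have hBW : B * W = A := by rw [hBd]; exact div_mul_cancel₀ _ (by positivity)
  have hBA : B ≤ A := by rw [hBd]; exact div_le_self hA.le hW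
  have hF : ∀ y : ℕ × ℤ, y.1 ≤ M → Fx M W y = (1 - 2 * A * (y.1 : ℝ) ^ 2) * (1 + B * wt y) := by
    intro y hy
    unfold Fx
    rw [(G65 hM hy).1, ← hAd]
    congr 2
    rw [hBd, hAd]
    field_simp
  have hg2 : ∀ c : ℕ, c ≤ M → 1 / 2 ≤ 1 - 2 * A * (c : ℝ) ^ 2 := by
    intro c hc
    rw [hAd]
    exact (G65 hM hc).2
  have h8 : 1 / (8 * (M : ℝ) ^ 2 * W) = B / 2 := by
    rw [hBd, hAd]
    field_simp
    norm_num
  rw [h8, hF x hx.le]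
  obtain ⟨c, b⟩ := x
  simp only at hx ⊢
  by_cases hb : Even b
  · have hst := wt_step (s := (c, b)) hb h0
    rw [av, nx0_even hb, nx1_even hb] at hst
    rw [av, nx0_even hb, nx1_even hb, hF _ hx.le, hF _ hx.le]
    simp only
    have hgc := hg2 c hx.le
    have k1 : B * wt (c, b) ≤ 1 / 4 := by
      have := mul_le_mul_of_nonneg_left h hB.le
      linarith
    obtain ⟨g, hg⟩ : ∃ g : ℝ, g = 1 - 2 * A * (c : ℝ) ^ 2 := ⟨_, rfl⟩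
    rw [← hg] at hgc ⊢
    have k2 : B * ((wt (c, b / 2) + wt (c, (3 * b + (3 : ℤ) ^ c - 1) / 2)) / 2) ≤
        B * (wt (c, b) - 1) := mul_le_mul_of_nonneg_left hst hB.le
    have k3 : (1 + B * wt (c, b) - B) ≤ (1 - B / 2) * (1 + B * wt (c, b)) := by
      nlinarith
    have k4 : g * (1 + B * wt (c, b) - B) ≤ g * ((1 - B / 2) * (1 + B * wt (c, b))) :=
      mul_le_mul_of_nonneg_left k3 (by linarith)
    have k5 : g * (1 + B * ((wt (c, b / 2) + wt (c, (3 * b + (3 : ℤ) ^ c - 1) / 2)) / 2)) ≤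
        g * (1 + B * wt (c, b) - B) := mul_le_mul_of_nonneg_left (by linarith) (by linarith)
    linarith
  · have hwt := wt_odd (s := (c, b)) hb
    have hgc := hg2 c hx.le
    have hg0 := hg2 (c + 1) hx
    rw [hwt, mul_zero, add_zero, mul_one]
    rcases Nat.eq_zero_or_pos c with hc | hc
    · subst hc
      rw [nx0_odd hb] at h1
      rw [nx1_odd_zero hb] at h2
      rw [av, nx0_odd hb, nx1_odd_zero hb, hF (0 + 1, _) (by change 0 + 1 ≤ M; omega),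
        hF (1, _) (by change 1 ≤ M; exact hM)]
      simp only at hg0 ⊢
      refine odd65 hA hB hBA hBW rfl hgc (half_nn65.trans hg0) (half_nn65.trans (hg2 1 hM)) ?_ h1 h2
      · push_cast
        ring
    · rw [nx0_odd hb] at h1
      rw [nx1_odd hb (by omega)] at h2
      rw [av, nx0_odd hb, nx1_odd hb (by omega), hF (c + 1, _) (by change c + 1 ≤ M; omega),
        hF (c - 1, _) (by change c - 1 ≤ M; omega)]
      simp only at hg0 ⊢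
      refine odd65 hA hB hBA hBW rfl hgc (half_nn65.trans hg0)
        (half_nn65.trans (hg2 (c - 1) (by omega))) ?_ h1 h2
      · rw [Nat.cast_sub hc]
        push_cast
        ring

end Pool.Agent.Helper8.CO
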