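import Pool.Agent.Helper8.CO.Def

/-!
# CO-FF: the concave function `ff s c = ∑_{j < c} (j + 1) ^ (-s)`

* `ff_ge`: each term is `≥ c ^ (-s)` (for `c ≥ 1`), so `ff s c ≥ c * c ^ (-s) = c ^ (1 - s)`.
* `ff_le`: each term is `≤ 1`.
* `ff_drift`: `ff (c + 1) + ff (c - 1) - 2 ff c = (c + 1) ^ (-s) - c ^ (-s)` (`ff_succ` twice), and
  `c ^ (-s) = (c + 1) ^ (-s) (1 - 1 / (c + 1)) ^ (-s) ≥ (c + 1) ^ (-s) (1 + s / (c + 1))`, because
  `(1 - v) ^ s ≤ 1 - s v` for `0 ≤ s ≤ 1`, `0 ≤ v ≤ 1` (`Real.rpow_one_add_le_one_add_mul_self`) and `1 / (1 - s v) ≥ 1 + s v`;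
  finally `(c + 1) ^ (-s) / (c + 1) = (c + 1) ^ (-s - 1)`.
* `gg_succ_le`, `gg_pred_le`: `gg` is decreasing and `gg (c - 1) ≤ 1.0101 gg c` for `c ≥ 1`: `((c + 200) / (c + 199)) ^ 2 ≤
  (201 / 200) ^ 2`.
* `gg_sqrt`: `gg c * √(c + 1) ≤ (c + 1) ^ (-s - 1)` for `s ≤ 1 / 2`: `gg c ≤ (c + 1) ^ (-2)` and `-3 / 2 ≤ -s - 1`.
-/

set_option autoImplicit false

namespace Pool.Agent.Helper8.CO

open Finset

theorem ff_nonneg (s : ℝ) (c : ℕ) : 0 ≤ ff s c := by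
  unfold ff
  exact Finset.sum_nonneg fun j _ => by positivity

theorem ff_ge {s : ℝ} (hs : 0 < s) (hs1 : s < 1) (c : ℕ) : (c : ℝ) ^ (1 - s) ≤ ff s c := by
  rcases Nat.eq_zero_or_pos c with h | h
  · subst h
    rw [ff_zero, Nat.cast_zero, Real.zero_rpow (by linarith)]
  · have hc : (0 : ℝ) < c := by exact_mod_cast h
    have h1 : (c : ℝ) ^ (1 - s) = ∑ _j ∈ range c, (c : ℝ) ^ (-s) := by
      rw [Finset.sum_const, Finset.card_range, nsmul_eq_mul, sub_eq_add_neg, Real.rpow_add hc,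
        Real.rpow_one]
    rw [h1, ff]
    refine Finset.sum_le_sum fun j hj => ?_
    have hj1 : (j : ℝ) + 1 ≤ c := by
      have := Finset.mem_range.1 hj
      exact_mod_cast this
    exact Real.rpow_le_rpow_of_nonpos (by positivity) hj1 (by linarith)

theorem ff_le {s : ℝ} (hs : 0 < s) (c : ℕ) : ff s c ≤ c := by
  unfold ff
  have h1 : (c : ℝ) = ∑ _j ∈ range c, (1 : ℝ) := by simp
  rw [h1]
  refine Finset.sum_le_sum fun j _ => ?_
  refine Real.rpow_le_one_of_one_le_of_nonpos ?_ (by linarith)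
  have : (0 : ℝ) ≤ j := Nat.cast_nonneg j
  linarith

theorem ff_drift {s : ℝ} (hs : 0 < s) (hs1 : s ≤ 1) {c : ℕ} (hc : 1 ≤ c) :
    ff s (c + 1) + ff s (c - 1) ≤ 2 * ff s c - s * ((c : ℝ) + 1) ^ (-s - 1) := by
  obtain ⟨d, rfl⟩ : ∃ d, c = d + 1 := ⟨c - 1, by omega⟩
  rw [Nat.add_sub_cancel, ff_succ s (d + 1), ff_succ s d]
  push_cast
  set a : ℝ := (d : ℝ) + 1 + 1 with ha
  have hd : (0 : ℝ) ≤ d := Nat.cast_nonneg d
  have ha2 : 2 ≤ a := by rw [ha]; linarith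
  have ha0 : 0 < a := by linarith
  have hv0 : 0 < 1 / a := by positivity
  have hv1 : 1 / a ≤ 1 / 2 := by
    rw [div_le_div_iff₀ ha0 two_pos]; linarith
  have e1 : (d : ℝ) + 1 = a * (1 + -(1 / a)) := by
    field_simp
    rw [ha]; ring
  have h1 : (1 + -(1 / a)) ^ s ≤ 1 + s * -(1 / a) :=
    rpow_one_add_le_one_add_mul_self (by linarith) hs.le hs1
  have hb : 0 < 1 + -(1 / a) := by linarith
  have h2 : 0 < (1 + -(1 / a)) ^ s := Real.rpow_pos_of_pos hb s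
  have h3 : 1 + s * (1 / a) ≤ (1 + -(1 / a)) ^ (-s) := by
    rw [Real.rpow_neg hb.le, le_inv_comm₀ (by positivity) h2]
    refine h1.trans ?_
    rw [← one_div, le_div_iff₀ (by positivity)]
    nlinarith [sq_nonneg (s * (1 / a))]
  have h4 : ((d : ℝ) + 1) ^ (-s) = a ^ (-s) * (1 + -(1 / a)) ^ (-s) := by
    rw [e1, Real.mul_rpow ha0.le hb.le]
  have h5 : a ^ (-s - 1) = a ^ (-s) * (1 / a) := by
    rw [Real.rpow_sub ha0, Real.rpow_one]; ring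
  have h6 : 0 < a ^ (-s) := Real.rpow_pos_of_pos ha0 _
  have h7 := mul_le_mul_of_nonneg_left h3 h6.le
  rw [← h4] at h7
  rw [h5]
  nlinarith

theorem gg_succ_le (c : ℕ) : gg (c + 1) ≤ gg c := by
  unfold gg
  have hc : (0 : ℝ) ≤ c := Nat.cast_nonneg c
  push_cast
  refine one_div_le_one_div_of_le (by positivity) ?_
  nlinarith

theorem gg_pred_le {c : ℕ} (hc : 1 ≤ c) : gg (c - 1) ≤ 10101 / 10000 * gg c := by
  obtain ⟨d, rfl⟩ : ∃ d, c = d + 1 := ⟨c - 1, by omega⟩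
  rw [Nat.add_sub_cancel]
  unfold gg
  have hd : (0 : ℝ) ≤ d := Nat.cast_nonneg d
  push_cast
  rw [mul_one_div, div_le_div_iff₀ (by positivity) (by positivity)]
  nlinarith

theorem gg_sqrt {s : ℝ} (hs : 0 < s) (hs1 : s ≤ 1 / 2) (c : ℕ) :
    gg c * Real.sqrt (c + 1) ≤ ((c : ℝ) + 1) ^ (-s - 1) := by
  have hc : (0 : ℝ) ≤ c := Nat.cast_nonneg c
  have hc1 : (0 : ℝ) < (c : ℝ) + 1 := by linarith
  have h1 : gg c ≤ ((c : ℝ) + 1) ^ (-2 : ℝ) := by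
    rw [Real.rpow_neg hc1.le, Real.rpow_two, ← one_div]
    unfold gg
    refine one_div_le_one_div_of_le (by positivity) ?_
    nlinarith
  have h2 : Real.sqrt ((c : ℝ) + 1) = ((c : ℝ) + 1) ^ (1 / 2 : ℝ) := Real.sqrt_eq_rpow _
  have h3 := mul_le_mul_of_nonneg_right h1 (Real.sqrt_nonneg ((c : ℝ) + 1))
  refine h3.trans ?_
  rw [h2, ← Real.rpow_add hc1]
  exact Real.rpow_le_rpow_of_exponent_le (by linarith) (by linarith)

end Pool.Agent.Helper8.CO
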