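import Pool.Agent.Helper8.CO.Def

/-!
# CO-ZZ: the size of the difference after one step

`Zs (c, β) = |β| / 3 ^ c`, `qq = √Zs`. From the definition of the successors (all divisions by `2` are exact):
* `Zs (nx0 s) ≤ Zs s / 2 + 1 / 6` (`β` even: `Zs s / 2`; `β` odd: `|3 β - 1| / (2 * 3 ^ (c + 1)) ≤ Zs s / 2 + 1 / 6`).
* `Zs (nx1 s) ≤ 3 / 2 * Zs s + 1 / 2` (`β` even: `|3 β + 3 ^ c - 1| / (2 * 3 ^ c)`; `β` odd, `c ≥ 1`:
  `|β + 3 ^ (c - 1)| / (2 * 3 ^ (c - 1))`; `β` odd, `c = 0`: `|3 β + 1| / 6`, which is even `≤ Zs s / 2 + 1 / 6`).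
* `c = 0`, `β` even: `Zs (nx0 s) = Zs s / 2`, `Zs (nx1 s) = 3 / 2 * Zs s`.
Then `√(a + b) ≤ √a + √b`, `√(1 / 2) ≤ 0.71`, `√(1 / 6) ≤ 1 / 2`, `√(3 / 2) ≤ 1.23`, `√(1 / 2) ≤ 3 / 4`.
-/

set_option autoImplicit false

namespace Pool.Agent.Helper8.CO

open Finset

private theorem zz_odd26 (b : ℤ) (hb : ¬ Even b) : Zs (nx1 (0, b)) ≤ Zs (0, b) / 2 + 1 / 6 := by
  rw [nx1_odd_zero hb]
  have ho : Odd b := Int.not_even_iff_odd.1 hb
  have h2 : (2 : ℤ) ∣ 3 * b + 1 := by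
    obtain ⟨k, rfl⟩ := ho
    exact ⟨3 * k + 2, by ring⟩
  unfold Zs
  simp only [Int.cast_neg, abs_neg]
  rw [Int.cast_div_charZero h2, abs_div]
  push_cast
  rw [abs_of_pos (show (0 : ℝ) < 2 by norm_num)]
  have h3 : |3 * (b : ℝ) + 1| ≤ 3 * |(b : ℝ)| + 1 := by
    calc |3 * (b : ℝ) + 1| ≤ |3 * (b : ℝ)| + |1| := abs_add_le _ _
      _ = 3 * |(b : ℝ)| + 1 := by
          rw [abs_mul, abs_one, abs_of_pos (show (0 : ℝ) < 3 by norm_num)]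
  rw [pow_zero, pow_one, div_one]
  linarith

theorem Zs_nx0 (s : ℕ × ℤ) : Zs (nx0 s) ≤ Zs s / 2 + 1 / 6 := by
  obtain ⟨c, b⟩ := s
  by_cases h : Even b
  · rw [nx0_even h]
    unfold Zs
    rw [Int.cast_div_charZero h.two_dvd, abs_div]
    push_cast
    rw [abs_of_pos (show (0 : ℝ) < 2 by norm_num)]
    have : |(b : ℝ)| / 2 / 3 ^ c = |(b : ℝ)| / 3 ^ c / 2 := by ring
    rw [this]
    linarith
  · rw [nx0_odd h]
    have ho : Odd b := Int.not_even_iff_odd.1 h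
    have h2 : (2 : ℤ) ∣ 3 * b - 1 := by
      obtain ⟨k, rfl⟩ := ho
      exact ⟨3 * k + 1, by ring⟩
    unfold Zs
    rw [Int.cast_div_charZero h2, abs_div]
    push_cast
    rw [abs_of_pos (show (0 : ℝ) < 2 by norm_num)]
    have h3 : |3 * (b : ℝ) - 1| ≤ 3 * |(b : ℝ)| + 1 := by
      calc |3 * (b : ℝ) - 1| ≤ |3 * (b : ℝ)| + |1| := abs_sub _ _
        _ = 3 * |(b : ℝ)| + 1 := by
            rw [abs_mul, abs_one, abs_of_pos (show (0 : ℝ) < 3 by norm_num)]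
    have h4 : (1 : ℝ) ≤ 3 ^ c := one_le_pow₀ (by norm_num)
    have h5 : (0 : ℝ) < 3 ^ c := by positivity
    rw [pow_succ, div_le_iff₀ (by positivity)]
    have h6 : (|(b : ℝ)| / 3 ^ c / 2 + 1 / 6) * (3 ^ c * 3) = 3 / 2 * |(b : ℝ)| + 3 ^ c / 2 := by
      field_simp
      ring
    rw [h6]
    linarith

theorem Zs_nx1 (s : ℕ × ℤ) : Zs (nx1 s) ≤ 3 / 2 * Zs s + 1 / 2 := by
  obtain ⟨c, b⟩ := s
  by_cases h : Even b
  · rw [nx1_even h]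
    have h2 : (2 : ℤ) ∣ 3 * b + (3 : ℤ) ^ c - 1 := by
      obtain ⟨k, rfl⟩ := h
      have ho : Odd ((3 : ℤ) ^ c) := Odd.pow (by decide)
      obtain ⟨m, hm⟩ := ho
      exact ⟨3 * k + m, by rw [hm]; ring⟩
    unfold Zs
    rw [Int.cast_div_charZero h2, abs_div]
    push_cast
    rw [abs_of_pos (show (0 : ℝ) < 2 by norm_num)]
    have h4 : (1 : ℝ) ≤ 3 ^ c := one_le_pow₀ (by norm_num)
    have h5 : (0 : ℝ) < 3 ^ c := by positivity
    have h3 : |3 * (b : ℝ) + 3 ^ c - 1| ≤ 3 * |(b : ℝ)| + (3 ^ c - 1) := by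
      calc |3 * (b : ℝ) + 3 ^ c - 1| = |3 * (b : ℝ) + (3 ^ c - 1)| := by rw [add_sub_assoc]
        _ ≤ |3 * (b : ℝ)| + |3 ^ c - 1| := abs_add_le _ _
        _ = 3 * |(b : ℝ)| + (3 ^ c - 1) := by
            rw [abs_mul, abs_of_pos (show (0 : ℝ) < 3 by norm_num), abs_of_nonneg (show (0 : ℝ) ≤ 3 ^ c - 1 by linarith)]
    rw [div_le_iff₀ h5]
    have h6 : (3 / 2 * (|(b : ℝ)| / 3 ^ c) + 1 / 2) * 3 ^ c = 3 / 2 * |(b : ℝ)| + 3 ^ c / 2 := by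
      field_simp
    rw [h6]
    linarith
  · have ho : Odd b := Int.not_even_iff_odd.1 h
    rcases Nat.eq_zero_or_pos c with rfl | hc
    · have h0 := zz_odd26 b h
      have h1 : (0 : ℝ) ≤ Zs (0, b) := Zs_nonneg _
      linarith
    · obtain ⟨c, rfl⟩ := Nat.exists_eq_succ_of_ne_zero hc.ne'
      rw [nx1_odd h (Nat.succ_ne_zero c)]
      have h2 : (2 : ℤ) ∣ b + (3 : ℤ) ^ c := by
        have ho' : Odd ((3 : ℤ) ^ c) := Odd.pow (by decide)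
        exact (ho.add_odd ho').two_dvd
      unfold Zs
      simp only [Nat.succ_eq_add_one, Nat.add_sub_cancel]
      rw [Int.cast_div_charZero h2, abs_div]
      push_cast
      rw [abs_of_pos (show (0 : ℝ) < 2 by norm_num)]
      have h5 : (0 : ℝ) < 3 ^ c := by positivity
      have h3 : |(b : ℝ) + 3 ^ c| ≤ |(b : ℝ)| + 3 ^ c := by
        calc |(b : ℝ) + 3 ^ c| ≤ |(b : ℝ)| + |3 ^ c| := abs_add_le _ _
          _ = |(b : ℝ)| + 3 ^ c := by rw [abs_of_pos h5]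
      rw [div_le_iff₀ h5]
      have h6 : (3 / 2 * (|(b : ℝ)| / 3 ^ (c + 1)) + 1 / 2) * 3 ^ c = |(b : ℝ)| / 2 + 3 ^ c / 2 := by
        rw [pow_succ]
        field_simp
      rw [h6]
      linarith

theorem qq_nx0 (s : ℕ × ℤ) : qq (nx0 s) ≤ 71 / 100 * qq s + 1 / 2 := by
  have h := Zs_nx0 s
  have hq : qq s ^ 2 = Zs s := Real.sq_sqrt (Zs_nonneg s)
  have h0 := qq_nonneg s
  refine Real.sqrt_le_iff.2 ⟨by positivity, h.trans ?_⟩
  rw [← hq]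
  nlinarith

theorem qq_nx1 (s : ℕ × ℤ) : qq (nx1 s) ≤ 123 / 100 * qq s + 3 / 4 := by
  have h := Zs_nx1 s
  have hq : qq s ^ 2 = Zs s := Real.sq_sqrt (Zs_nonneg s)
  have h0 := qq_nonneg s
  refine Real.sqrt_le_iff.2 ⟨by positivity, h.trans ?_⟩
  rw [← hq]
  nlinarith

/-- At `c = 0`, `β` odd. -/
theorem qq_nx1_odd (b : ℤ) (hb : ¬ Even b) : qq (nx1 (0, b)) ≤ 71 / 100 * qq (0, b) + 1 / 2 := by
  have h := zz_odd26 b hb
  have hq : qq (0, b) ^ 2 = Zs (0, b) := Real.sq_sqrt (Zs_nonneg _)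
  have h0 := qq_nonneg (0, b)
  refine Real.sqrt_le_iff.2 ⟨by positivity, h.trans ?_⟩
  rw [← hq]
  nlinarith

/-- At `c = 0`, `β` even. -/
theorem qq_nx_even (b : ℤ) (hb : Even b) : qq (nx0 (0, b)) ≤ 71 / 100 * qq (0, b) ∧
    qq (nx1 (0, b)) ≤ 123 / 100 * qq (0, b) := by
  have hq : qq (0, b) ^ 2 = Zs (0, b) := Real.sq_sqrt (Zs_nonneg _)
  have h0 := qq_nonneg (0, b)
  have h1 : Zs (nx0 (0, b)) = Zs (0, b) / 2 := by
    rw [nx0_even hb]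
    unfold Zs
    rw [Int.cast_div_charZero hb.two_dvd, abs_div]
    push_cast
    rw [abs_of_pos (show (0 : ℝ) < 2 by norm_num)]
    ring
  have h2 : Zs (nx1 (0, b)) = 3 / 2 * Zs (0, b) := by
    rw [nx1_even hb]
    unfold Zs
    have e : 3 * b + (3 : ℤ) ^ 0 - 1 = 3 * b := by ring
    rw [e, Int.cast_div_charZero (hb.two_dvd.mul_left 3), abs_div]
    push_cast
    rw [abs_mul, abs_of_pos (show (0 : ℝ) < 2 by norm_num), abs_of_pos (show (0 : ℝ) < 3 by norm_num)]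
    ring
  constructor
  · refine Real.sqrt_le_iff.2 ⟨by positivity, ?_⟩
    rw [h1, ← hq]
    nlinarith
  · refine Real.sqrt_le_iff.2 ⟨by positivity, ?_⟩
    rw [h2, ← hq]
    nlinarith

theorem av_qq (s : ℕ × ℤ) : av qq s ≤ 97 / 100 * qq s + 5 / 8 := by
  unfold av
  linarith [qq_nx0 s, qq_nx1 s]

end Pool.Agent.Helper8.CO
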