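import Pool.Agent.Helper8.CO.Ex
import Pool.Agent.Helper8.CO.Zz
import Pool.Agent.Helper8.CO.Ff

/-!
# CO-IND: the main induction

`U k x = V x / M ^ (1 - s) + (qq x + k) / q + 2 (1 - λ) ^ k Fx M W x`, `λ = 1 / (8 M ^ 2 W) ∈ (0, 1 / 8]`; all three terms are `≥ 0`
(`V ≥ ff ≥ 0`). Claim: `uu k x ≤ U k x`, by induction on `k`.
* `x = (0, 0)`: `uu_merged`.
* `x.1 ≥ M`: `V x ≥ ff s x.1 ≥ x.1 ^ (1 - s) ≥ M ^ (1 - s)`, so `U k x ≥ 1 ≥ uu k x` (`uu_le_one`).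
* `qq x > q`: the second term is `≥ 1`.
* `x.1 < M`, `qq x ≤ q`, `k = 0`: `Fx ≥ 1 / 2`, the third term is `≥ 1`.
* `x.1 < M`, `qq x ≤ q`, `k + 1`: `uu (k + 1) x = av (uu k) x ≤ av (U k) x`, and `av V ≤ V`, `av qq ≤ 0.97 qq + 5 / 8 ≤ qq + 1`,
  `av Fx ≤ (1 - λ) Fx` (`Fx_drift`).
-/

set_option autoImplicit false

namespace Pool.Agent.Helper8.CO

open Finset

theorem uu_le_U {s : ℝ} (hs : 0 < s) (hs1 : s ≤ 1 / 4) {V : ℕ × ℤ → ℝ}
    (hV : ∀ x : ℕ × ℤ, ff s x.1 ≤ V x) (hV' : ∀ x : ℕ × ℤ, av V x ≤ V x) {M : ℕ} (hM : 1 ≤ M)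
    {W q : ℝ} (hW : 1 ≤ W) (hq : 0 < q)
    (hw : ∀ x : ℕ × ℤ, x.1 < M → qq x ≤ q → wt x ≤ W ∧ wt (nx0 x) ≤ W ∧ wt (nx1 x) ≤ W)
    (k : ℕ) (x : ℕ × ℤ) :
    uu k x ≤ V x / (M : ℝ) ^ (1 - s) + (qq x + k) / q +
      2 * (1 - 1 / (8 * (M : ℝ) ^ 2 * W)) ^ k * Fx M W x := by
  have hM0 : (1 : ℝ) ≤ M := by exact_mod_cast hM
  have hMp : (0 : ℝ) < (M : ℝ) ^ (1 - s) := Real.rpow_pos_of_pos (by linarith) _
  have hden : (1 : ℝ) ≤ 8 * (M : ℝ) ^ 2 * W := by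
    have h1 : (1 : ℝ) ≤ (M : ℝ) ^ 2 := one_le_pow₀ hM0
    nlinarith
  set r : ℝ := 1 - 1 / (8 * (M : ℝ) ^ 2 * W) with hr
  have hr0 : 0 ≤ r := by
    rw [hr, sub_nonneg, div_le_one (by linarith)]
    exact hden
  have hVn : ∀ x, 0 ≤ V x := fun x => (ff_nonneg s x.1).trans (hV x)
  have hA : ∀ x, 0 ≤ V x / (M : ℝ) ^ (1 - s) := fun x => div_nonneg (hVn x) hMp.le
  have hB : ∀ (k : ℕ) x, 0 ≤ (qq x + k) / q := fun k x =>
    div_nonneg (add_nonneg (qq_nonneg x) (Nat.cast_nonneg k)) hq.le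
  have hC : ∀ (k : ℕ) x, 0 ≤ 2 * r ^ k * Fx M W x := fun k x =>
    mul_nonneg (mul_nonneg (by norm_num) (pow_nonneg hr0 k)) (Fx_nonneg hW x)
  induction k generalizing x with
  | zero =>
    by_cases h0 : x = (0, 0)
    · subst h0
      rw [uu_merged]
      linarith [hA (0, 0), hB 0 (0, 0), hC 0 (0, 0)]
    by_cases hx : x.1 < M
    · have h1 := Fx_ge hM hW hx
      have h2 := uu_le_one 0 x
      have h3 : (1 : ℝ) ≤ 2 * r ^ 0 * Fx M W x := by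
        rw [pow_zero]
        linarith
      linarith [hA x, hB 0 x]
    · push Not at hx
      have h2 := uu_le_one 0 x
      have h3 : (1 : ℝ) ≤ V x / (M : ℝ) ^ (1 - s) := by
        rw [le_div_iff₀ hMp, one_mul]
        have h4 : (M : ℝ) ^ (1 - s) ≤ (x.1 : ℝ) ^ (1 - s) :=
          Real.rpow_le_rpow (by linarith) (by exact_mod_cast hx) (by linarith)
        exact (h4.trans (ff_ge hs (by linarith) x.1)).trans (hV x)
      linarith [hC 0 x, hB 0 x]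
  | succ k ih =>
    by_cases h0 : x = (0, 0)
    · subst h0
      rw [uu_merged]
      linarith [hA (0, 0), hB (k + 1) (0, 0), hC (k + 1) (0, 0)]
    have h2 := uu_le_one (k + 1) x
    by_cases hx : x.1 < M
    swap
    · push Not at hx
      have h3 : (1 : ℝ) ≤ V x / (M : ℝ) ^ (1 - s) := by
        rw [le_div_iff₀ hMp, one_mul]
        have h4 : (M : ℝ) ^ (1 - s) ≤ (x.1 : ℝ) ^ (1 - s) :=
          Real.rpow_le_rpow (by linarith) (by exact_mod_cast hx) (by linarith)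
        exact (h4.trans (ff_ge hs (by linarith) x.1)).trans (hV x)
      linarith [hC (k + 1) x, hB (k + 1) x]
    by_cases hqx : qq x ≤ q
    swap
    · push Not at hqx
      have h3 : (1 : ℝ) ≤ (qq x + (k + 1 : ℕ)) / q := by
        rw [le_div_iff₀ hq, one_mul]
        have : (0 : ℝ) ≤ ((k + 1 : ℕ) : ℝ) := Nat.cast_nonneg _
        linarith
      linarith [hC (k + 1) x, hA x]
    obtain ⟨hw1, hw2, hw3⟩ := hw x hx hqx
    have hd := Fx_drift hM hW h0 hx hw1 hw2 hw3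
    rw [← hr] at hd
    have hVd := hV' x
    have hqd := av_qq x
    have hqx0 := qq_nonneg x
    rw [uu_succ]
    have e1 : av (uu k) x ≤ av V x / (M : ℝ) ^ (1 - s) + (av qq x + k) / q +
        2 * r ^ k * av (Fx M W) x := by
      unfold av
      have i0 := ih (nx0 x)
      have i1 := ih (nx1 x)
      have e : (V (nx0 x) + V (nx1 x)) / 2 / (M : ℝ) ^ (1 - s) +
          ((qq (nx0 x) + qq (nx1 x)) / 2 + k) / q + 2 * r ^ k * ((Fx M W (nx0 x) + Fx M W (nx1 x)) / 2) =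
          ((V (nx0 x) / (M : ℝ) ^ (1 - s) + (qq (nx0 x) + k) / q + 2 * r ^ k * Fx M W (nx0 x)) +
          (V (nx1 x) / (M : ℝ) ^ (1 - s) + (qq (nx1 x) + k) / q + 2 * r ^ k * Fx M W (nx1 x))) / 2 := by
        ring
      rw [e]
      linarith
    have e2 : av V x / (M : ℝ) ^ (1 - s) ≤ V x / (M : ℝ) ^ (1 - s) :=
      div_le_div_of_nonneg_right hVd hMp.le
    have e3 : (av qq x + k) / q ≤ (qq x + ((k + 1 : ℕ) : ℝ)) / q := by
      refine div_le_div_of_nonneg_right ?_ hq.le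
      push_cast
      linarith
    have e4 : 2 * r ^ k * av (Fx M W) x ≤ 2 * r ^ (k + 1) * Fx M W x := by
      have h5 : 2 * r ^ (k + 1) * Fx M W x = 2 * r ^ k * (r * Fx M W x) := by ring
      rw [h5]
      exact mul_le_mul_of_nonneg_left hd (mul_nonneg (by norm_num) (pow_nonneg hr0 k))
    linarith

end Pool.Agent.Helper8.CO
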