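import Pool.Agent.Helper8.CO.Zz
import Pool.Agent.Helper8.CO.Wt
import Pool.Agent.Helper8.CO.Ff

/-!
# CO-LY: the Lyapunov function

`Phi s (c, β) = ff s c + s / 12 * gg c * (qq + [c ≠ 0] wt)`, `0 < s ≤ 1 / 4`. One step from `x = (c, β)`; write `A = s / 12`.

(E+) `β` even, `c ≥ 1`: `c` does not change; `av qq x ≤ 0.97 qq x + 5 / 8`, `av wt x ≤ wt x - 1`: `av Phi ≤ Phi`.
(E0) `β` even, `c = 0`: `av qq x ≤ 0.97 qq x` (`qq_nx_even`): `av Phi ≤ Phi`.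
(O+) `β` odd, `c ≥ 1`: `nx0 = (c + 1, _)`, `nx1 = (c - 1, _)`, `wt x = 0`. The `ff` part gives `- s / 2 * (c + 1) ^ (-s - 1)`
  (`ff_drift`). The other part is at most
  `A / 2 * gg c * ((0.71 qq + 0.5 + 5 √(c + 1)) + 1.0101 (1.23 qq + 0.75 + 5 √(c - 1)))`
  (`gg_succ_le`, `gg_pred_le`, `wt_le_sqrt` at the levels `c + 1`, `c - 1`; at the level `0` the term `wt` is absent), and
  `0.71 + 1.0101 * 1.23 ≤ 2`, so the increase is at most `A / 2 * gg c * (1.26 + 10.06 √(c + 1)) ≤ A / 2 * gg c * 12 √(c + 1)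
  = s / 2 * gg c √(c + 1) ≤ s / 2 * (c + 1) ^ (-s - 1)` (`gg_sqrt`). So `av Phi ≤ Phi`.
(O0) `β` odd, `c = 0`: both successors have the level `1`, `ff s 1 = 1`, `wt ≤ vv 1 + 1 = 2`, `qq ≤ 0.71 qq + 0.5`:
  `av Phi ≤ 1 + A gg 1 (0.71 qq x + 2.5) ≤ 1 + A gg 0 (0.71 qq x + 2.5)`, and `Phi x = A gg 0 qq x`. So `av Phi ≤ Phi + 2`
  always, and `av Phi ≤ Phi` if `0.29 A gg 0 qq x ≥ 1 + 2.5 A gg 0`, i.e. if `qq x ≥ (2.5 + 1 / (A gg 0)) / 0.29 =: κ`; here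
  `qq x = √|β|`, so `K = κ ^ 2`.
-/

set_option autoImplicit false

namespace Pool.Agent.Helper8.CO

open Finset

private theorem Phi_zero56 (s : ℝ) (b : ℤ) : Phi s (0, b) = s / 12 * gg 0 * qq (0, b) := by
  have h : Phi s (0, b) = ff s 0 + s / 12 * gg 0 * (qq (0, b) + if (0 : ℕ) = 0 then 0 else wt (0, b)) :=
    rfl
  rw [h, if_pos rfl, ff_zero]
  ring

private theorem Phi_pos56 (s : ℝ) {c : ℕ} (hc : c ≠ 0) (b : ℤ) :
    Phi s (c, b) = ff s c + s / 12 * gg c * (qq (c, b) + wt (c, b)) := by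
  have h : Phi s (c, b) = ff s c + s / 12 * gg c * (qq (c, b) + if c = 0 then 0 else wt (c, b)) :=
    rfl
  rw [h, if_neg hc]

private theorem Phi_up56 {s : ℝ} (hs : 0 < s) (c : ℕ) (b : ℤ) {q w : ℝ} (hw : 0 ≤ w)
    (hq : qq (c, b) ≤ q) (h : c ≠ 0 → wt (c, b) ≤ w) :
    Phi s (c, b) ≤ ff s c + s / 12 * gg c * (q + w) := by
  have hA : 0 ≤ s / 12 * gg c := mul_nonneg (by linarith) (gg_pos c).le
  by_cases hc : c = 0
  · subst hc
    rw [Phi_zero56, ff_zero, zero_add]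
    exact mul_le_mul_of_nonneg_left (by linarith) hA
  · rw [Phi_pos56 s hc]
    have := mul_le_mul_of_nonneg_left (add_le_add hq (h hc)) hA
    linarith

private theorem ff_one56 (s : ℝ) : ff s 1 = 1 := by
  have h := ff_succ s 0
  rw [zero_add, ff_zero] at h
  rw [h]
  simp

private theorem odd_zero56 {s : ℝ} (hs : 0 < s) {b : ℤ} (hb : ¬ Even b) :
    av (Phi s) (0, b) ≤ 1 + s / 12 * gg 0 * (71 / 100 * qq (0, b) + 5 / 2) := by
  have hv : ∀ b' : ℤ, (1 : ℕ) ≠ 0 → wt (1, b') ≤ 2 := by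
    intro b' _
    have h := wt_le_vv (s := (1, b')) le_rfl
    have h2 : (vv ((1 : ℕ), b').1 : ℝ) = 1 := by
      show ((vv 1 : ℕ) : ℝ) = 1
      rw [vv_one, Nat.cast_one]
    rw [h2] at h
    linarith
  have e0 : nx0 (0, b) = (1, (3 * b - 1) / 2) := by rw [nx0_odd hb]
  have e1 : nx1 (0, b) = (1, -((3 * b + 1) / 2)) := nx1_odd_zero hb
  have q0 := qq_nx0 (0, b)
  have q1 := qq_nx1_odd b hb
  rw [e0] at q0
  rw [e1] at q1
  have p0 := Phi_up56 hs 1 ((3 * b - 1) / 2) (by norm_num : (0 : ℝ) ≤ 2) q0 (hv _)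
  have p1 := Phi_up56 hs 1 (-((3 * b + 1) / 2)) (by norm_num : (0 : ℝ) ≤ 2) q1 (hv _)
  rw [ff_one56] at p0 p1
  have hg : gg 1 ≤ gg 0 := by simpa using gg_succ_le 0
  have hq := qq_nonneg (0, b)
  have h2 : s / 12 * gg 1 * (71 / 100 * qq (0, b) + 1 / 2 + 2) ≤
      s / 12 * gg 0 * (71 / 100 * qq (0, b) + 5 / 2) := by
    have h3 : s / 12 * gg 1 ≤ s / 12 * gg 0 := mul_le_mul_of_nonneg_left hg (by linarith)
    have h4 : (71 / 100 * qq (0, b) + 1 / 2 + 2) = 71 / 100 * qq (0, b) + 5 / 2 := by ring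
    rw [h4]
    exact mul_le_mul_of_nonneg_right h3 (by linarith)
  unfold av
  rw [e0, e1]
  linarith

private theorem even56 {s : ℝ} (hs : 0 < s) (c : ℕ) {b : ℤ} (hb : Even b) :
    av (Phi s) (c, b) ≤ Phi s (c, b) := by
  have hA : 0 ≤ s / 12 * gg c := mul_nonneg (by linarith) (gg_pos c).le
  have hq := qq_nonneg (c, b)
  by_cases hc : c = 0
  · subst hc
    obtain ⟨q0, q1⟩ := qq_nx_even b hb
    have e0 : nx0 (0, b) = (0, b / 2) := nx0_even hb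
    have e1 : nx1 (0, b) = (0, (3 * b + (3 : ℤ) ^ 0 - 1) / 2) := nx1_even hb
    rw [e0] at q0
    rw [e1] at q1
    unfold av
    rw [e0, e1, Phi_zero56, Phi_zero56, Phi_zero56]
    have h1 := mul_le_mul_of_nonneg_left q0 hA
    have h2 := mul_le_mul_of_nonneg_left q1 hA
    have h3 := mul_nonneg hA hq
    linarith
  · have e0 : nx0 (c, b) = (c, b / 2) := nx0_even hb
    have e1 : nx1 (c, b) = (c, (3 * b + (3 : ℤ) ^ c - 1) / 2) := nx1_even hb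
    have hq1 := av_qq (c, b)
    have hw1 := wt_step (s := (c, b)) hb (fun h => hc (congrArg Prod.fst h))
    unfold av at hq1 hw1 ⊢
    rw [e0, e1] at hq1 hw1 ⊢
    rw [Phi_pos56 s hc, Phi_pos56 s hc, Phi_pos56 s hc]
    have h1 : (qq (c, b / 2) + wt (c, b / 2)) +
        (qq (c, (3 * b + (3 : ℤ) ^ c - 1) / 2) + wt (c, (3 * b + (3 : ℤ) ^ c - 1) / 2)) ≤
        2 * (qq (c, b) + wt (c, b)) := by linarith
    have h2 := mul_le_mul_of_nonneg_left h1 hA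
    linarith

private theorem odd_pos56 {s : ℝ} (hs : 0 < s) (hs1 : s ≤ 1 / 4) {c : ℕ} (hc : c ≠ 0) {b : ℤ}
    (hb : ¬ Even b) : av (Phi s) (c, b) ≤ Phi s (c, b) := by
  have hc1 : 1 ≤ c := Nat.one_le_iff_ne_zero.2 hc
  have hA : 0 ≤ s / 12 * gg c := mul_nonneg (by linarith) (gg_pos c).le
  have hq := qq_nonneg (c, b)
  have hcR : (1 : ℝ) ≤ c := by exact_mod_cast hc1
  have e0 : nx0 (c, b) = (c + 1, (3 * b - 1) / 2) := nx0_odd hb
  have e1 : nx1 (c, b) = (c - 1, (b + (3 : ℤ) ^ (c - 1)) / 2) := nx1_odd hb hc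
  have q0 := qq_nx0 (c, b)
  have q1 := qq_nx1 (c, b)
  rw [e0] at q0
  rw [e1] at q1
  have hS1 : 1 ≤ Real.sqrt ((c : ℝ) + 1) := Real.one_le_sqrt.2 (by linarith)
  have w0 : c + 1 ≠ 0 → wt (c + 1, (3 * b - 1) / 2) ≤ 5 * Real.sqrt ((c : ℝ) + 1) := by
    intro _
    have h := wt_le_sqrt (s := (c + 1, (3 * b - 1) / 2)) (by show 1 ≤ c + 1; omega)
    have h2 : (((c + 1, (3 * b - 1) / 2) : ℕ × ℤ).1 : ℝ) = (c : ℝ) + 1 := by
      show ((c + 1 : ℕ) : ℝ) = _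
      push_cast
      ring
    rw [h2] at h
    exact h
  have w1 : c - 1 ≠ 0 → wt (c - 1, (b + (3 : ℤ) ^ (c - 1)) / 2) ≤
      5 * Real.sqrt ((c : ℝ) + 1) := by
    intro h0
    have h := wt_le_sqrt (s := (c - 1, (b + (3 : ℤ) ^ (c - 1)) / 2)) (by show 1 ≤ c - 1; omega)
    have h2 : (((c - 1, (b + (3 : ℤ) ^ (c - 1)) / 2) : ℕ × ℤ).1 : ℝ) ≤ (c : ℝ) + 1 := by
      show ((c - 1 : ℕ) : ℝ) ≤ _
      rw [Nat.cast_sub hc1]
      push_cast
      linarith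
    have h3 := Real.sqrt_le_sqrt h2
    linarith
  have p0 := Phi_up56 hs (c + 1) ((3 * b - 1) / 2) (by linarith : (0 : ℝ) ≤ 5 * Real.sqrt ((c : ℝ) + 1))
    q0 w0
  have p1 := Phi_up56 hs (c - 1) ((b + (3 : ℤ) ^ (c - 1)) / 2)
    (by linarith : (0 : ℝ) ≤ 5 * Real.sqrt ((c : ℝ) + 1)) q1 w1
  have hf := ff_drift hs (by linarith) hc1
  have hwx : wt (c, b) = 0 := wt_odd hb
  have hg0 := gg_succ_le c
  have hg1 := gg_pred_le hc1
  have hgs := gg_sqrt hs (by linarith) c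
  have a0 : s / 12 * gg (c + 1) * (71 / 100 * qq (c, b) + 1 / 2 + 5 * Real.sqrt ((c : ℝ) + 1)) ≤
      s / 12 * gg c * (71 / 100 * qq (c, b) + 1 / 2 + 5 * Real.sqrt ((c : ℝ) + 1)) :=
    mul_le_mul_of_nonneg_right (mul_le_mul_of_nonneg_left hg0 (by linarith)) (by linarith)
  have a1 : s / 12 * gg (c - 1) * (123 / 100 * qq (c, b) + 3 / 4 + 5 * Real.sqrt ((c : ℝ) + 1)) ≤
      s / 12 * (10101 / 10000 * gg c) *
        (123 / 100 * qq (c, b) + 3 / 4 + 5 * Real.sqrt ((c : ℝ) + 1)) :=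
    mul_le_mul_of_nonneg_right (mul_le_mul_of_nonneg_left hg1 (by linarith)) (by linarith)
  have a2 : (71 / 100 * qq (c, b) + 1 / 2 + 5 * Real.sqrt ((c : ℝ) + 1)) + 10101 / 10000 *
      (123 / 100 * qq (c, b) + 3 / 4 + 5 * Real.sqrt ((c : ℝ) + 1)) ≤
      2 * qq (c, b) + 12 * Real.sqrt ((c : ℝ) + 1) := by linarith
  have a3 := mul_le_mul_of_nonneg_left a2 hA
  have a4 := mul_le_mul_of_nonneg_left hgs hs.le
  unfold av
  rw [e0, e1, Phi_pos56 s hc, hwx]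
  have a5 : s / 12 * gg c * (2 * qq (c, b) + 12 * Real.sqrt ((c : ℝ) + 1)) =
      2 * (s / 12 * gg c * (qq (c, b) + 0)) + s * (gg c * Real.sqrt ((c : ℝ) + 1)) := by ring
  have a6 : s / 12 * gg c * ((71 / 100 * qq (c, b) + 1 / 2 + 5 * Real.sqrt ((c : ℝ) + 1)) +
      10101 / 10000 * (123 / 100 * qq (c, b) + 3 / 4 + 5 * Real.sqrt ((c : ℝ) + 1))) =
      s / 12 * gg c * (71 / 100 * qq (c, b) + 1 / 2 + 5 * Real.sqrt ((c : ℝ) + 1)) +
      s / 12 * (10101 / 10000 * gg c) *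
        (123 / 100 * qq (c, b) + 3 / 4 + 5 * Real.sqrt ((c : ℝ) + 1)) := by ring
  rw [a5, a6] at a3
  linarith

private theorem gg_zero56 : gg 0 ≤ 1 / 40000 := by
  unfold gg
  norm_num

private theorem qq_zero56 (b : ℤ) : qq (0, b) = Real.sqrt |(b : ℝ)| := by
  have h : qq (0, b) = Real.sqrt (|(b : ℝ)| / 3 ^ 0) := rfl
  rw [h, pow_zero, div_one]

theorem Phi_drift {s : ℝ} (hs : 0 < s) (hs1 : s ≤ 1 / 4) : ∃ K : ℝ, ∀ x : ℕ × ℤ,
    (x.1 = 0 ∧ |(x.2 : ℝ)| ≤ K) ∨ av (Phi s) x ≤ Phi s x := by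
  have hA : 0 < s / 12 * gg 0 := mul_pos (by linarith) (gg_pos 0)
  obtain ⟨κ, hκ⟩ : ∃ κ : ℝ, κ = (5 / 2 + 1 / (s / 12 * gg 0)) / (29 / 100) := ⟨_, rfl⟩
  have hκ0 : 0 ≤ κ := by
    rw [hκ]
    positivity
  refine ⟨κ ^ 2, ?_⟩
  rintro ⟨c, b⟩
  by_cases hb : Even b
  · exact Or.inr (even56 hs c hb)
  · by_cases hc : c = 0
    · subst hc
      by_cases hK : |(b : ℝ)| ≤ κ ^ 2
      · exact Or.inl ⟨rfl, hK⟩
      · right
        refine (odd_zero56 hs hb).trans ?_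
        rw [Phi_zero56]
        have h1 : κ ≤ qq (0, b) := by
          rw [qq_zero56]
          exact Real.le_sqrt_of_sq_le (le_of_not_ge hK)
        have h2 : 29 / 100 * κ = 5 / 2 + 1 / (s / 12 * gg 0) := by
          rw [hκ]
          ring
        have h3 : s / 12 * gg 0 * (29 / 100 * κ) = s / 12 * gg 0 * (5 / 2) + 1 := by
          rw [h2, mul_add, mul_one_div_cancel hA.ne']
        have h4 := mul_le_mul_of_nonneg_left (mul_le_mul_of_nonneg_left h1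
          (by norm_num : (0 : ℝ) ≤ 29 / 100)) hA.le
        rw [h3] at h4
        linarith
    · exact Or.inr (odd_pos56 hs hs1 hc hb)

theorem Phi_add_two {s : ℝ} (hs : 0 < s) (hs1 : s ≤ 1 / 4) (x : ℕ × ℤ) :
    av (Phi s) x ≤ Phi s x + 2 := by
  obtain ⟨c, b⟩ := x
  by_cases hb : Even b
  · linarith [even56 hs c hb]
  · by_cases hc : c = 0
    · subst hc
      have h1 := odd_zero56 hs hb
      rw [Phi_zero56]
      have hA : 0 ≤ s / 12 * gg 0 := mul_nonneg (by linarith) (gg_pos 0).le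
      have h2 := mul_nonneg hA (qq_nonneg (0, b))
      have h3 : s / 12 * gg 0 ≤ 1 / 48 * (1 / 40000) :=
        mul_le_mul (by linarith) gg_zero56 (gg_pos 0).le (by norm_num)
      linarith
    · linarith [odd_pos56 hs hs1 hc hb]

theorem Phi_ge {s : ℝ} (hs : 0 < s) (x : ℕ × ℤ) : ff s x.1 ≤ Phi s x := by
  have hA : 0 ≤ s / 12 * gg x.1 := mul_nonneg (by linarith) (gg_pos x.1).le
  have h1 : 0 ≤ qq x + if x.1 = 0 then 0 else wt x := by
    refine add_nonneg (qq_nonneg x) ?_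
    split_ifs
    · exact le_rfl
    · exact wt_nonneg x
  have h2 := mul_nonneg hA h1
  unfold Phi
  linarith

/-- `s / 12 * gg c ≤ 1` and `s / 12 * gg c * wt ≤ 5 √c / (c + 200) ^ 2 ≤ 1` for `c ≥ 1`. -/
theorem Phi_le {s : ℝ} (hs : 0 < s) (hs1 : s ≤ 1 / 4) (x : ℕ × ℤ) : Phi s x ≤ x.1 + qq x + 1 := by
  obtain ⟨c, b⟩ := x
  have hc0 : (0 : ℝ) ≤ c := Nat.cast_nonneg c
  have hg1 : gg c * ((c : ℝ) + 200) ≤ 1 := by
    unfold gg
    rw [one_div, inv_mul_le_iff₀ (by positivity)]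
    nlinarith
  have hg := gg_pos c
  have hA0 : 0 ≤ s / 12 * gg c := mul_nonneg (by linarith) hg.le
  have hA1 : s / 12 * gg c ≤ gg c := by nlinarith
  have hgle : gg c ≤ 1 := by nlinarith
  have hq := qq_nonneg (c, b)
  have hff := ff_le hs c
  have h1 : s / 12 * gg c * qq (c, b) ≤ qq (c, b) := by
    have := mul_le_mul_of_nonneg_right (hA1.trans hgle) hq
    linarith
  have hS : Real.sqrt (c : ℝ) ≤ (c : ℝ) + 1 := by
    rw [Real.sqrt_le_left (by linarith)]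
    nlinarith
  have h2 : s / 12 * gg c * (5 * Real.sqrt (c : ℝ)) ≤ 1 := by
    have h3 := mul_le_mul_of_nonneg_right hA1 (by positivity : 0 ≤ 5 * Real.sqrt (c : ℝ))
    have h4 : gg c * (5 * Real.sqrt (c : ℝ)) ≤ gg c * (5 * ((c : ℝ) + 1)) :=
      mul_le_mul_of_nonneg_left (by linarith) hg.le
    nlinarith
  have h5 := Phi_up56 hs c b (by positivity : 0 ≤ 5 * Real.sqrt (c : ℝ)) (le_refl (qq (c, b)))
    (fun hc => wt_le_sqrt (s := (c, b)) (Nat.one_le_iff_ne_zero.2 hc))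
  show Phi s (c, b) ≤ (c : ℝ) + qq (c, b) + 1
  rw [mul_add] at h5
  linarith

end Pool.Agent.Helper8.CO
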