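import Pool.Agent.Helper8.CO.Def

/-!
# CO-RCH: from every state the merged state `(0, 0)` can be reached

`uu_lt_of0`, `uu_lt_of1`: `uu (k + 1) s = (uu k (nx0 s) + uu k (nx1 s)) / 2`, all values are `≤ 1`: if `uu k` of one successor is `< 1`
then `uu (k + 1) s < 1`. Say that `s` is good if `∃ k, uu k s < 1`; `(0, 0)` is good.

* `(0, -1)`, `(0, 1)` are good: `nx0 (0, -1) = (1, -2)`, `nx1 (0, 1) = (1, -2)`, `nx0 (1, -2) = (1, -1)`,
  `nx1 (1, -1) = (0, (-1 + 1) / 2) = (0, 0)`.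
* `(0, D)`, `D ≠ 0`, strong induction on `|D|`. `D` even: `nx0 (0, D) = (0, D / 2)`. `D` odd, `|D| > 1`:
  if `D % 4 = 1` then `nx0 (0, D) = (1, (3 D - 1) / 2)`, `(3 D - 1) / 2` is odd, and `nx1` of it is `(0, (3 D + 1) / 4)`;
  if `D % 4 = 3` then `nx1 (0, D) = (1, -((3 D + 1) / 2))`, `(3 D + 1) / 2` is odd, and `nx1` of it is `(0, (1 - 3 D) / 4)`.
  In both cases the new `|D'| ≤ (3 |D| + 1) / 4 < |D|`, and `D' ≠ 0` (`D' = 0` would be fine anyway).
* `(c, β)` with `c ≥ 1`: induction on `c`; for fixed `c` strong induction on `|β|` for `β ≠ 0`: `β` odd: `nx1 (c, β) = (c - 1, _)`;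
  `β ≠ 0` even: `nx0 (c, β) = (c, β / 2)`. `β = 0`: `nx1 (c, 0) = (c, (3 ^ c - 1) / 2)`, which is not `0`.
-/

set_option autoImplicit false

namespace Pool.Agent.Helper8.CO

open Finset

private theorem of0_h44 {s : ℕ × ℤ} (h : ∃ k : ℕ, uu k (nx0 s) < 1) : ∃ k : ℕ, uu k s < 1 := by
  obtain ⟨k, hk⟩ := h
  refine ⟨k + 1, ?_⟩
  rw [uu_succ, av]
  linarith [uu_le_one k (nx1 s)]

private theorem of1_h44 {s : ℕ × ℤ} (h : ∃ k : ℕ, uu k (nx1 s) < 1) : ∃ k : ℕ, uu k s < 1 := by
  obtain ⟨k, hk⟩ := h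
  refine ⟨k + 1, ?_⟩
  rw [uu_succ, av]
  linarith [uu_le_one k (nx0 s)]

private theorem good_zero_h44 : ∃ k : ℕ, uu k (0, 0) < 1 := ⟨0, by rw [uu_merged]; norm_num⟩

private theorem good_m2_h44 : ∃ k : ℕ, uu k (1, -2) < 1 := by
  apply of0_h44
  rw [nx0_even (by decide)]
  have e1 : ((-2 : ℤ) / 2) = -1 := by norm_num
  rw [e1]
  apply of1_h44
  rw [nx1_odd (by decide) (by norm_num)]
  have e2 : ((1 : ℕ) - 1, ((-1 : ℤ) + 3 ^ (1 - 1)) / 2) = (0, 0) := by norm_num
  rw [e2]
  exact good_zero_h44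

private theorem good_c0_h44 (n : ℕ) : ∀ D : ℤ, D.natAbs = n → ∃ k : ℕ, uu k (0, D) < 1 := by
  induction n using Nat.strong_induction_on with
  | _ n ih =>
    intro D hD
    by_cases h0 : D = 0
    · rw [h0]; exact good_zero_h44
    by_cases hev : Even D
    · apply of0_h44
      rw [nx0_even hev]
      have h2 : D % 2 = 0 := Int.even_iff.1 hev
      exact ih (D / 2).natAbs (by omega) _ rfl
    · have h2 : D % 2 = 1 := Int.not_even_iff.1 hev
      have h4 : D % 4 = 1 ∨ D % 4 = 3 := by omega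
      rcases h4 with h4 | h4
      · obtain ⟨m, hm⟩ : ∃ m : ℤ, D = 4 * m + 1 := ⟨D / 4, by omega⟩
        by_cases hm0 : m = 0
        · have : D = 1 := by omega
          rw [this]
          apply of1_h44
          rw [nx1_odd_zero (by decide)]
          have e : -((3 * (1 : ℤ) + 1) / 2) = -2 := by norm_num
          rw [e]
          exact good_m2_h44
        · apply of0_h44
          rw [nx0_odd hev]
          have e : (3 * D - 1) / 2 = 6 * m + 1 := by omega
          rw [e]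
          apply of1_h44
          rw [nx1_odd (by rw [Int.not_even_iff]; omega) (by omega)]
          have e2 : (6 * m + 1 + (3 : ℤ) ^ (0 + 1 - 1)) / 2 = 3 * m + 1 := by
            rw [show (0 + 1 - 1 : ℕ) = 0 from rfl, pow_zero]; omega
          rw [e2]
          exact ih (3 * m + 1).natAbs (by omega) _ rfl
      · obtain ⟨m, hm⟩ : ∃ m : ℤ, D = 4 * m + 3 := ⟨D / 4, by omega⟩
        by_cases hm0 : m = -1
        · have : D = -1 := by omega
          rw [this]
          apply of0_h44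
          rw [nx0_odd (by decide)]
          have e : (3 * (-1 : ℤ) - 1) / 2 = -2 := by norm_num
          rw [e]
          exact good_m2_h44
        · apply of1_h44
          rw [nx1_odd_zero hev]
          have e : -((3 * D + 1) / 2) = -6 * m - 5 := by omega
          rw [e]
          apply of1_h44
          rw [nx1_odd (by rw [Int.not_even_iff]; omega) (by omega)]
          have e2 : (-6 * m - 5 + (3 : ℤ) ^ (1 - 1)) / 2 = -3 * m - 2 := by
            rw [show (1 - 1 : ℕ) = 0 from rfl, pow_zero]; omega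
          rw [e2]
          exact ih (-3 * m - 2).natAbs (by omega) _ rfl

private theorem good_c_h44 (c : ℕ) (hc : ∀ D : ℤ, ∃ k : ℕ, uu k (c, D) < 1) (n : ℕ) :
    ∀ D : ℤ, D ≠ 0 → D.natAbs = n → ∃ k : ℕ, uu k (c + 1, D) < 1 := by
  induction n using Nat.strong_induction_on with
  | _ n ih =>
    intro D h0 hD
    by_cases hev : Even D
    · apply of0_h44
      rw [nx0_even hev]
      have h2 : D % 2 = 0 := Int.even_iff.1 hev
      exact ih (D / 2).natAbs (by omega) _ (by omega) rfl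
    · apply of1_h44
      rw [nx1_odd hev (by omega)]
      exact hc _

private theorem good_h44 (c : ℕ) : ∀ D : ℤ, ∃ k : ℕ, uu k (c, D) < 1 := by
  induction c with
  | zero => exact fun D => good_c0_h44 _ D rfl
  | succ c ih =>
    intro D
    by_cases h0 : D = 0
    · rw [h0]
      apply of1_h44
      rw [nx1_even (by decide)]
      have h3 : ∀ m : ℕ, (3 : ℤ) ^ m % 2 = 1 := by
        intro m
        rw [← Int.odd_iff]
        exact Odd.pow (by decide)
      have h1 : (3 : ℤ) ≤ 3 ^ (c + 1) := by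
        rw [pow_succ]
        have : (1 : ℤ) ≤ 3 ^ c := one_le_pow₀ (by norm_num)
        linarith
      refine good_c_h44 c ih _ _ ?_ rfl
      have := h3 (c + 1)
      omega
    · exact good_c_h44 c ih _ D h0 rfl

theorem uu_lt_one (s : ℕ × ℤ) : ∃ k : ℕ, uu k s < 1 := good_h44 s.1 s.2

/-- Uniformly on the states `(0, β)`, `|β| ≤ K`: a finite set; take the maximum of the `k` and use `uu_anti`. -/
theorem uu_lt_unif (K : ℝ) : ∃ (k : ℕ) (p : ℝ), 0 < p ∧ ∀ s : ℕ × ℤ, s.1 = 0 → |(s.2 : ℝ)| ≤ K →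
    uu k s ≤ 1 - p := by
  choose k hk using fun D : ℤ => uu_lt_one (0, D)
  set N : ℤ := ((⌈K⌉₊ : ℕ) : ℤ) with hN
  have hNn : (Icc (-N) N).Nonempty := ⟨0, by rw [mem_Icc]; omega⟩
  set M : ℕ := (Icc (-N) N).sup k with hM
  set q : ℝ := (Icc (-N) N).sup' hNn (fun D => uu M (0, D)) with hq
  have hq1 : q < 1 := by
    rw [hq, Finset.sup'_lt_iff]
    intro D hD
    exact lt_of_le_of_lt (uu_anti (Finset.le_sup hD) _) (hk D)
  refine ⟨M, 1 - q, by linarith, ?_⟩
  rintro ⟨c, D⟩ hc hD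
  simp only at hc hD
  subst hc
  have h1 : |(D : ℝ)| ≤ (N : ℝ) := by
    refine hD.trans ?_
    rw [hN]
    push_cast
    exact Nat.le_ceil K
  have h2 : |D| ≤ N := by
    have : ((|D| : ℤ) : ℝ) ≤ (N : ℝ) := by rw [Int.cast_abs]; exact h1
    exact_mod_cast this
  have h3 : D ∈ Icc (-N) N := by
    rw [mem_Icc]
    exact abs_le.1 h2
  have h4 : uu M (0, D) ≤ q := Finset.le_sup' (fun D => uu M (0, D)) h3
  linarith

end Pool.Agent.Helper8.CO
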