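import Pool.Agent.Helper8.CO.Ly
import Pool.Agent.Helper8.CO.Rch

/-!
# CO-VV: a superharmonic function

`K` from `Phi_drift`, `k`, `p` from `uu_lt_unif K`. `Q = ∑_{j < k} uu j`, `0 ≤ Q ≤ k`. `av Q x = ∑_{j < k} uu (j + 1) x =
Q x - uu 0 x + uu k x` (`av_sum`, `uu_succ`, `sum_range_succ`), so for `x ≠ (0, 0)`: `av Q x = Q x - (1 - uu k x) ≤ Q x`, and
`av Q x ≤ Q x - p` if `x.1 = 0`, `|x.2| ≤ K`. `V = Phi s + 2 / p * Q`: if `x.1 = 0`, `|x.2| ≤ K`: `av V ≤ Phi + 2 + 2 / p (Q - p) = V`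
(`Phi_add_two`); otherwise `av Phi ≤ Phi`, `av Q ≤ Q`. At `(0, 0)`: `av_zero`. Bounds: `Phi_ge`, `Phi_le`, `C = 1 + 2 k / p`.
-/

set_option autoImplicit false

namespace Pool.Agent.Helper8.CO

open Finset

theorem exists_V {s : ℝ} (hs : 0 < s) (hs1 : s ≤ 1 / 4) : ∃ (V : ℕ × ℤ → ℝ) (C : ℝ), 0 < C ∧
    ∀ x : ℕ × ℤ, ff s x.1 ≤ V x ∧ V x ≤ x.1 + qq x + C ∧ av V x ≤ V x := by
  obtain ⟨K, hK⟩ := Phi_drift hs hs1
  obtain ⟨k, p, hp, hkp⟩ := uu_lt_unif K
  have hp2 : 0 < 2 / p := by positivity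
  refine ⟨fun x => Phi s x + 2 / p * ∑ j ∈ range k, uu j x, 1 + 2 / p * k, by positivity, ?_⟩
  intro x
  have hQ0 : 0 ≤ ∑ j ∈ range k, uu j x := sum_nonneg fun j _ => uu_nonneg j x
  have hQ1 : ∑ j ∈ range k, uu j x ≤ k := by
    calc ∑ j ∈ range k, uu j x ≤ ∑ _j ∈ range k, (1 : ℝ) := sum_le_sum fun j _ => uu_le_one j x
      _ = k := by rw [sum_const, card_range, nsmul_eq_mul, mul_one]
  refine ⟨?_, ?_, ?_⟩
  · show ff s x.1 ≤ Phi s x + 2 / p * ∑ j ∈ range k, uu j x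
    have h1 := Phi_ge hs x
    have h2 : 0 ≤ 2 / p * ∑ j ∈ range k, uu j x := mul_nonneg hp2.le hQ0
    linarith
  · show Phi s x + 2 / p * ∑ j ∈ range k, uu j x ≤ x.1 + qq x + (1 + 2 / p * k)
    have h1 := Phi_le hs hs1 x
    have h2 : 2 / p * ∑ j ∈ range k, uu j x ≤ 2 / p * k := mul_le_mul_of_nonneg_left hQ1 hp2.le
    linarith
  · show av (fun x => Phi s x + 2 / p * ∑ j ∈ range k, uu j x) x ≤
      Phi s x + 2 / p * ∑ j ∈ range k, uu j x
    rw [av_add (Phi s) (fun t => 2 / p * ∑ j ∈ range k, uu j t) x,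
      av_smul (2 / p) (fun t => ∑ j ∈ range k, uu j t) x, av_sum (range k) uu x]
    by_cases hx : x = (0, 0)
    · subst hx
      rw [av_zero]
      refine add_le_add le_rfl (mul_le_mul_of_nonneg_left (sum_le_sum fun j _ => ?_) hp2.le)
      rw [av_zero]
    · have h1 : ∑ j ∈ range k, av (uu j) x = ∑ j ∈ range k, uu j x - 1 + uu k x := by
        have h2 : ∑ j ∈ range k, av (uu j) x = ∑ j ∈ range k, uu (j + 1) x :=
          sum_congr rfl fun j _ => (uu_succ j x).symm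
        have h3 := sum_range_succ (fun j => uu j x) k
        have h4 := sum_range_succ' (fun j => uu j x) k
        have h5 : uu 0 x = 1 := uu_zero_ne hx
        rw [h2]
        linarith
      rw [h1]
      have h6 := uu_le_one k x
      rcases hK x with h | h
      · have h7 := hkp x h.1 h.2
        have h8 := Phi_add_two hs hs1 x
        have h9 : 2 / p * (∑ j ∈ range k, uu j x - 1 + uu k x) ≤
            2 / p * (∑ j ∈ range k, uu j x - p) :=
          mul_le_mul_of_nonneg_left (by linarith) hp2.le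
        have h10 : 2 / p * (∑ j ∈ range k, uu j x - p) = 2 / p * ∑ j ∈ range k, uu j x - 2 := by
          field_simp
        linarith
      · have h9 : 2 / p * (∑ j ∈ range k, uu j x - 1 + uu k x) ≤ 2 / p * ∑ j ∈ range k, uu j x :=
          mul_le_mul_of_nonneg_left (by linarith) hp2.le
        linarith

end Pool.Agent.Helper8.CO
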