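import Pool.Agent.Helper8.CO.Ind
import Pool.Agent.Helper8.CO.Vv
import Pool.Agent.Helper8.CO.Wt

/-!
# CO-PARA: choice of the parameters

For `c < 1 / 2` there is `D` with `uu k x ≤ D k ^ (-c) (x.1 + qq x + 1)` for all `k ≥ 1`, `x`.

We may assume `c ≥ 0` (`k ^ (-c)` decreases in `c` for `k ≥ 1`). Let `s = min (1 / 4) (1 / 2 - c)`, so `0 < s ≤ 1 / 4` and
`e := (1 - s) / 2 - c > 0`. `V`, `C` from `exists_V`. For small `k` (`k < k₀(c)`) the bound is trivial with a large `D`, because `uu ≤ 1`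
(`uu_le_one`) and `k ^ (-c) ≥ k₀ ^ (-c)`. For large `k` put `L = log k ≥ 2`, `W = 20 L`, `q = k ^ 2`, `M = ⌊√k / (13 L)⌋₊`
(`M ≥ 1` and `M ≥ √k / (26 L)` for large `k`; `M ≤ k`). Hypothesis `hw` of `uu_le_U`: by `wt_log`, for `y ∈ {x, nx0 x, nx1 x}`, `x.1 < M`,
`qq x ≤ q`: `y.1 ≤ M ≤ k`, `Zs y ≤ 3 / 2 Zs x + 1 / 2 ≤ 3 / 2 k ^ 4 + 1 / 2` (`Zs_nx0`, `Zs_nx1`, `Zs x = qq x ^ 2`), so
`wt y ≤ 4 + 2 log (k + 1) + 2 log (4 k ^ 4) ≤ 4 + 4 L + 12 L ≤ 20 L`. Then `1 / (8 M ^ 2 W) ≥ 169 L ^ 2 / (160 k L) ≥ L / k`, so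
`(1 - 1 / (8 M ^ 2 W)) ^ k ≤ exp (-L) = 1 / k` (`Real.one_sub_le_exp_neg`-type bound, `1 - t ≤ exp (-t)`). With `Fx ≤ 1 + wt ≤
1 + 5 x.1 + 2 qq x` (`Fx_le`, `wt_le_lin`), `V ≤ x.1 + qq x + C`, `(qq x + k) / k ^ 2 ≤ (qq x + 1) / k`, `1 / k ≤ k ^ (-c)` and
`M ^ (-(1 - s)) ≤ (26 L) ^ (1 - s) k ^ (-(1 - s) / 2) ≤ 26 L k ^ (-e) k ^ (-c) ≤ D' k ^ (-c)` (`L k ^ (-e)` is bounded:
`Real.log_le_rpow_div` or `isLittleO_log_rpow_atTop`).
-/

set_option autoImplicit false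

namespace Pool.Agent.Helper8.CO

open Finset

private theorem nx0_fst63 (x : ℕ × ℤ) : (nx0 x).1 ≤ x.1 + 1 := by
  unfold nx0
  split_ifs
  · exact Nat.le_succ _
  · exact le_refl _

private theorem nx1_fst63 (x : ℕ × ℤ) : (nx1 x).1 ≤ x.1 + 1 := by
  unfold nx1
  split_ifs with h1 h2
  · exact Nat.le_succ _
  · change 1 ≤ x.1 + 1
    omega
  · change x.1 - 1 ≤ x.1 + 1
    omega

private theorem log_ge_two63 {k : ℕ} (hk : 8 ≤ k) : 2 ≤ Real.log k := by
  have h1 : Real.log 8 ≤ Real.log k := Real.log_le_log (by norm_num) (by exact_mod_cast hk)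
  have h2 : Real.log 8 = 3 * Real.log 2 := by
    rw [show (8 : ℝ) = 2 ^ 3 by norm_num, Real.log_pow]
    norm_num
  have h3 := Real.log_two_gt_d9
  linarith

private theorem wt_bd63 {k : ℕ} (hk : 8 ≤ k) {y : ℕ × ℤ} (h1 : y.1 ≤ k)
    (h2 : Zs y ≤ 3 / 2 * (k : ℝ) ^ 4 + 1 / 2) : wt y ≤ 20 * Real.log k := by
  have hk' : (8 : ℝ) ≤ k := by exact_mod_cast hk
  have h1' : (y.1 : ℝ) ≤ k := by exact_mod_cast h1
  have hL := log_ge_two63 hk
  have h3 := wt_log y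
  have h4 : Real.log ((y.1 : ℝ) + 1) ≤ 2 * Real.log k := by
    have h5 : Real.log ((k : ℝ) ^ 2) = 2 * Real.log k := by
      rw [Real.log_pow]
      norm_num
    rw [← h5]
    refine Real.log_le_log (by positivity) ?_
    nlinarith
  have h6 : Real.log (Zs y + 1) ≤ 5 * Real.log k := by
    have h5 : Real.log ((k : ℝ) ^ 5) = 5 * Real.log k := by
      rw [Real.log_pow]
      norm_num
    rw [← h5]
    refine Real.log_le_log (by linarith [Zs_nonneg y]) ?_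
    have h7 : (1 : ℝ) ≤ (k : ℝ) ^ 4 := one_le_pow₀ (by linarith)
    nlinarith
  linarith

/-- The large values of `k`. -/
private theorem large63 {s c C : ℝ} (hs : 0 < s) (hs1 : s ≤ 1 / 4) (hc : c < 1 / 2)
    (he : 0 < (1 - s) / 2 - c) (hC : 0 < C) {V : ℕ × ℤ → ℝ}
    (hV : ∀ x : ℕ × ℤ, ff s x.1 ≤ V x ∧ V x ≤ x.1 + qq x + C ∧ av V x ≤ V x) {k : ℕ} (hk : 52 ^ 4 ≤ k)
    (x : ℕ × ℤ) :
    uu k x ≤ ((1 + C) * (26 / ((1 - s) / 2 - c)) + 11) * (k : ℝ) ^ (-c) * (x.1 + qq x + 1) := by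
  have hk8 : 8 ≤ k := le_trans (by norm_num) hk
  have hL := log_ge_two63 hk8
  set L : ℝ := Real.log k with hLdef
  set K : ℝ := (k : ℝ) with hK
  have hK8 : (8 : ℝ) ≤ K := by rw [hK]; exact_mod_cast hk8
  have hK0 : 0 < K := by linarith
  -- the square root
  have hr2 : Real.sqrt K ^ 2 = K := Real.sq_sqrt hK0.le
  have hsq0 : 0 < Real.sqrt K := Real.sqrt_pos.2 hK0
  have hr4 : Real.sqrt (Real.sqrt K) ^ 2 = Real.sqrt K := Real.sq_sqrt hsq0.le
  have hr0 : 0 < Real.sqrt (Real.sqrt K) := Real.sqrt_pos.2 hsq0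
  have hr52 : 52 ≤ Real.sqrt (Real.sqrt K) := by
    apply Real.le_sqrt_of_sq_le
    apply Real.le_sqrt_of_sq_le
    have h1 : ((52 ^ 4 : ℕ) : ℝ) ≤ K := by rw [hK]; exact_mod_cast hk
    push_cast at h1
    linarith
  have hLr : L ≤ 4 * Real.sqrt (Real.sqrt K) := by
    have h1 : L = 4 * Real.log (Real.sqrt (Real.sqrt K)) := by
      rw [Real.log_sqrt hsq0.le, Real.log_sqrt hK0.le]
      ring
    rw [h1]
    have h2 := Real.log_le_sub_one_of_pos hr0
    linarith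
  have h13 : 13 * L ≤ Real.sqrt K := by nlinarith
  have h13p : 0 < 13 * L := by linarith
  set M : ℕ := ⌊Real.sqrt K / (13 * L)⌋₊ with hM
  have hq1 : 1 ≤ Real.sqrt K / (13 * L) := by rwa [one_le_div h13p]
  have hM1 : 1 ≤ M := by
    rw [hM]
    exact Nat.le_floor (by exact_mod_cast hq1)
  have hMle : (M : ℝ) ≤ Real.sqrt K / (13 * L) := Nat.floor_le (by positivity)
  have hMge : Real.sqrt K / (26 * L) ≤ M := by
    have h1 := Nat.lt_floor_add_one (Real.sqrt K / (13 * L))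
    rw [← hM] at h1
    have h2 : (1 : ℝ) ≤ M := by exact_mod_cast hM1
    have h3 : Real.sqrt K / (26 * L) = Real.sqrt K / (13 * L) / 2 := by
      field_simp
      norm_num
    rw [h3]
    linarith
  have hM0 : (0 : ℝ) < M := by exact_mod_cast hM1
  have hMk : M ≤ k := by
    have h1 : (M : ℝ) ≤ K := by
      refine hMle.trans ?_
      rw [div_le_iff₀ h13p]
      nlinarith
    rw [hK] at h1
    exact_mod_cast h1
  -- the waiting times
  have hqK : (0 : ℝ) < K ^ 2 := by positivity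
  have hW : (1 : ℝ) ≤ 20 * L := by linarith
  have hw : ∀ x : ℕ × ℤ, x.1 < M → qq x ≤ K ^ 2 →
      wt x ≤ 20 * L ∧ wt (nx0 x) ≤ 20 * L ∧ wt (nx1 x) ≤ 20 * L := by
    intro x hx hqx
    have hZ : Zs x ≤ K ^ 4 := by
      have h1 : qq x ^ 2 = Zs x := Real.sq_sqrt (Zs_nonneg x)
      rw [← h1]
      have h2 := pow_le_pow_left₀ (qq_nonneg x) hqx 2
      calc qq x ^ 2 ≤ (K ^ 2) ^ 2 := h2
        _ = K ^ 4 := by ring
    have hZ0 := Zs_nonneg x
    have e0 := nx0_fst63 x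
    have e1 := nx1_fst63 x
    have z0 := Zs_nx0 x
    have z1 := Zs_nx1 x
    refine ⟨wt_bd63 hk8 (by omega) ?_, wt_bd63 hk8 (by omega) ?_, wt_bd63 hk8 (by omega) ?_⟩
    · linarith
    · linarith
    · linarith
  have hmain := uu_le_U hs hs1 (V := V) (fun x => (hV x).1) (fun x => (hV x).2.2) hM1 hW hqK hw k x
  -- the exponential factor
  have hlam : L / K ≤ 1 / (8 * (M : ℝ) ^ 2 * (20 * L)) := by
    have h1 : (M : ℝ) ^ 2 ≤ K / (13 * L) ^ 2 := by
      have h2 := pow_le_pow_left₀ hM0.le hMle 2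
      rwa [div_pow, hr2] at h2
    have h3 : 8 * (M : ℝ) ^ 2 * (20 * L) ≤ K / L := by
      have h4 : 8 * (M : ℝ) ^ 2 * (20 * L) ≤ 8 * (K / (13 * L) ^ 2) * (20 * L) := by
        have : (0 : ℝ) ≤ 20 * L := by linarith
        nlinarith [h1]
      have h5 : 8 * (K / (13 * L) ^ 2) * (20 * L) = 160 / 169 * (K / L) := by
        field_simp
        norm_num
      have h6 : 0 ≤ K / L := by positivity
      linarith
    have h7 : L / K = 1 / (K / L) := by
      rw [one_div_div]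
    rw [h7]
    exact one_div_le_one_div_of_le (by positivity) h3
  have hlam1 : 1 / (8 * (M : ℝ) ^ 2 * (20 * L)) ≤ 1 := by
    rw [div_le_one (by positivity)]
    have h2 : (1 : ℝ) ≤ M := by exact_mod_cast hM1
    nlinarith [mul_self_nonneg ((M : ℝ) - 1)]
  have hpow : (1 - 1 / (8 * (M : ℝ) ^ 2 * (20 * L))) ^ k ≤ 1 / K := by
    have h1 : 1 - 1 / (8 * (M : ℝ) ^ 2 * (20 * L)) ≤ Real.exp (-(L / K)) := by
      have h2 := Real.add_one_le_exp (-(L / K))
      linarith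
    have h3 := pow_le_pow_left₀ (by linarith) h1 k
    refine h3.trans ?_
    rw [← Real.exp_nat_mul]
    have h4 : (k : ℝ) * -(L / K) = -L := by
      rw [← hK]
      field_simp
    rw [h4, Real.exp_neg, hLdef, Real.exp_log hK0, one_div]
  have hpow0 : 0 ≤ (1 - 1 / (8 * (M : ℝ) ^ 2 * (20 * L))) ^ k := pow_nonneg (by linarith) k
  -- the three terms
  have hq0 := qq_nonneg x
  have hx0 : (0 : ℝ) ≤ x.1 := Nat.cast_nonneg _
  have hKc : 1 / K ≤ K ^ (-c) := by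
    rw [one_div, ← Real.rpow_neg_one]
    exact Real.rpow_le_rpow_of_exponent_le (by linarith) (by linarith)
  have hKc0 : 0 < K ^ (-c) := Real.rpow_pos_of_pos hK0 _
  set y : ℝ := x.1 + qq x + 1 with hy
  have hy1 : 1 ≤ y := by rw [hy]; linarith
  have t3 : 2 * (1 - 1 / (8 * (M : ℝ) ^ 2 * (20 * L))) ^ k * Fx M (20 * L) x ≤ 10 * (K ^ (-c) * y) := by
    have h1 := Fx_le hM1 hW x
    have h2 := wt_le_lin x
    have h3 := Fx_nonneg (M := M) hW x
    have h4 : Fx M (20 * L) x ≤ 5 * y := by rw [hy]; linarith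
    calc 2 * (1 - 1 / (8 * (M : ℝ) ^ 2 * (20 * L))) ^ k * Fx M (20 * L) x
        ≤ 2 * K ^ (-c) * (5 * y) := by
          refine mul_le_mul ?_ h4 h3 (by positivity)
          linarith [hpow.trans hKc]
      _ = 10 * (K ^ (-c) * y) := by ring
  have t2 : (qq x + k) / K ^ 2 ≤ K ^ (-c) * y := by
    have h1 : (qq x + k) / K ^ 2 ≤ 1 / K * y := by
      rw [← hK, div_le_iff₀ hqK]
      have h2 : 1 / K * y * K ^ 2 = y * K := by
        field_simp
      rw [h2, hy]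
      nlinarith
    refine h1.trans (mul_le_mul_of_nonneg_right hKc (by linarith))
  have t1 : V x / (M : ℝ) ^ (1 - s) ≤ (1 + C) * (26 / ((1 - s) / 2 - c)) * (K ^ (-c) * y) := by
    have hV1 : V x ≤ (1 + C) * y := by
      have h1 := (hV x).2.1
      rw [hy]
      nlinarith
    have hV0 : 0 ≤ V x := (ff_nonneg s x.1).trans (hV x).1
    have h26 : 0 < 26 * L := by linarith
    have hMs : (M : ℝ) ^ (-(1 - s)) ≤ 26 / ((1 - s) / 2 - c) * K ^ (-c) := by
      have h1 : (M : ℝ) ^ (-(1 - s)) ≤ (Real.sqrt K / (26 * L)) ^ (-(1 - s)) :=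
        Real.rpow_le_rpow_of_nonpos (by positivity) hMge (by linarith)
      have h2 : (Real.sqrt K / (26 * L)) ^ (-(1 - s)) = K ^ (-((1 - s) / 2)) * (26 * L) ^ (1 - s) := by
        rw [Real.div_rpow hsq0.le h26.le, Real.sqrt_eq_rpow, ← Real.rpow_mul hK0.le, Real.rpow_neg h26.le,
          div_inv_eq_mul]
        congr 2
        ring
      have h3 : (26 * L) ^ (1 - s) ≤ 26 * L := by
        have h4 := Real.rpow_le_rpow_of_exponent_le (x := 26 * L) (by linarith) (show 1 - s ≤ 1 by linarith)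
        rwa [Real.rpow_one] at h4
      have h5 : L ≤ K ^ ((1 - s) / 2 - c) / ((1 - s) / 2 - c) := Real.log_le_rpow_div hK0.le he
      have h6 : K ^ (-((1 - s) / 2)) * K ^ ((1 - s) / 2 - c) = K ^ (-c) := by
        rw [← Real.rpow_add hK0]
        congr 1
        ring
      calc (M : ℝ) ^ (-(1 - s)) ≤ K ^ (-((1 - s) / 2)) * (26 * L) ^ (1 - s) := h1.trans (le_of_eq h2)
        _ ≤ K ^ (-((1 - s) / 2)) * (26 * (K ^ ((1 - s) / 2 - c) / ((1 - s) / 2 - c))) := by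
            refine mul_le_mul_of_nonneg_left (h3.trans ?_) (Real.rpow_nonneg hK0.le _)
            linarith
        _ = 26 / ((1 - s) / 2 - c) * (K ^ (-((1 - s) / 2)) * K ^ ((1 - s) / 2 - c)) := by ring
        _ = 26 / ((1 - s) / 2 - c) * K ^ (-c) := by rw [h6]
    have h7 : V x / (M : ℝ) ^ (1 - s) = V x * (M : ℝ) ^ (-(1 - s)) := by
      rw [Real.rpow_neg hM0.le, div_eq_mul_inv]
    rw [h7]
    calc V x * (M : ℝ) ^ (-(1 - s)) ≤ (1 + C) * y * (26 / ((1 - s) / 2 - c) * K ^ (-c)) :=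
          mul_le_mul hV1 hMs (Real.rpow_nonneg hM0.le _) (by positivity)
      _ = _ := by ring
  calc uu k x ≤ (1 + C) * (26 / ((1 - s) / 2 - c)) * (K ^ (-c) * y) + K ^ (-c) * y + 10 * (K ^ (-c) * y) := by
        linarith
    _ = _ := by ring

theorem uu_rate_all {c : ℝ} (hc : c < 1 / 2) : ∃ D : ℝ, 0 < D ∧ ∀ (k : ℕ) (x : ℕ × ℤ), 1 ≤ k →
    uu k x ≤ D * (k : ℝ) ^ (-c) * (x.1 + qq x + 1) := by
  rcases lt_or_ge c 0 with hc0 | hc0
  · refine ⟨1, one_pos, fun k x hk => ?_⟩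
    have h1 : (1 : ℝ) ≤ (k : ℝ) ^ (-c) := Real.one_le_rpow (by exact_mod_cast hk) (by linarith)
    have h2 := uu_le_one k x
    have h3 := qq_nonneg x
    have h4 : (0 : ℝ) ≤ x.1 := Nat.cast_nonneg _
    nlinarith
  · set s : ℝ := min (1 / 4) (1 / 2 - c) with hs
    have hs0 : 0 < s := lt_min (by norm_num) (by linarith)
    have hs1 : s ≤ 1 / 4 := min_le_left _ _
    have hs2 : s ≤ 1 / 2 - c := min_le_right _ _
    have he : 0 < (1 - s) / 2 - c := by linarith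
    obtain ⟨V, C, hC, hV⟩ := exists_V hs0 hs1
    set D1 : ℝ := (1 + C) * (26 / ((1 - s) / 2 - c)) + 11 with hD1
    have hD10 : 0 < D1 := by positivity
    set D2 : ℝ := ((52 ^ 4 : ℕ) : ℝ) ^ c with hD2
    have hD20 : 0 < D2 := Real.rpow_pos_of_pos (by norm_num) _
    refine ⟨D1 + D2, by positivity, fun k x hk => ?_⟩
    have hk0 : (0 : ℝ) < k := by exact_mod_cast hk
    have hkc : 0 < (k : ℝ) ^ (-c) := Real.rpow_pos_of_pos hk0 _
    have h3 := qq_nonneg x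
    have h4 : (0 : ℝ) ≤ x.1 := Nat.cast_nonneg _
    have hy : (1 : ℝ) ≤ x.1 + qq x + 1 := by linarith
    rcases le_or_gt (52 ^ 4) k with hk1 | hk1
    · refine (large63 hs0 hs1 hc he hC hV hk1 x).trans ?_
      rw [← hD1]
      refine mul_le_mul_of_nonneg_right (mul_le_mul_of_nonneg_right ?_ hkc.le) (by linarith)
      linarith
    · refine (uu_le_one k x).trans ?_
      have h5 : 1 ≤ D2 * (k : ℝ) ^ (-c) := by
        rw [Real.rpow_neg hk0.le, hD2, ← div_eq_mul_inv, one_le_div (Real.rpow_pos_of_pos hk0 _)]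
        refine Real.rpow_le_rpow hk0.le ?_ hc0
        exact_mod_cast hk1.le
      have h6 : 1 ≤ (D1 + D2) * (k : ℝ) ^ (-c) := by nlinarith
      nlinarith

end Pool.Agent.Helper8.CO
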