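import Pool.Agent.Helper8.CO.Prt

/-!
# CO-REF: reference particles

`ref ρ t κ n` is an integer at distance at most `|ρ|` from `3 ^ κ n / 2 ^ t`, in the residue class modulo `ρ` of the particles of the
level `κ`.

Let `u = Int.gcdA ρ (2 ^ t)`, so `ρ u ≡ 1 (mod 2 ^ t)` (`Int.gcd_eq_gcd_ab`, `ρ` odd), `a = (3 ^ κ n u) % 2 ^ t ∈ [0, 2 ^ t)`. Then
`2 ^ t ∣ 3 ^ κ n - ρ a`, and `ref = (3 ^ κ n - ρ a) / 2 ^ t`.
* `two_pow_mul_ref`: `2 ^ t ref = 3 ^ κ n - ρ a`.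
* `ref_near`: `|ref - 3 ^ κ n / 2 ^ t| = |ρ| a / 2 ^ t ≤ |ρ|`.
* `ref_shift`: `ref (n + 2 ^ t j) = ref n + 3 ^ κ j` (`a` does not change).
* `iter_dvd`: for every `x`: `2 ^ t T^[t] x ≡ 3 ^ (cnt t x) x (mod ρ)` (induction on `t`: `2 T y ≡ 3 ^ [y odd] y (mod ρ)`).
* `ref_dvd_part`: if `(κ, v) ∈ Part ρ J t n` then `ρ ∣ v - ref ρ t κ n`: `2 ^ t v ≡ 3 ^ κ (n + ρ j) ≡ 3 ^ κ n ≡ 2 ^ t ref (mod ρ)`, and `2 ^ t` is
  invertible modulo `ρ`.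
* `ref_dvd_succ`: `ρ ∣ ref ρ t (κ + 1) n - 3 ref ρ t κ n` (the same), and the quotient has absolute value at most `4`
  (`ref_near` twice, `|ρ| ≥ 1`).
-/

set_option autoImplicit false

namespace Pool.Agent.Helper8.CO

open Pool.Agent.Helper68.Moeller Finset Classical

variable {ρ : ℤ}

/-- The reference particle of the level `κ`. -/
def ref (ρ : ℤ) (t κ : ℕ) (n : ℤ) : ℤ :=
  (3 ^ κ * n - ρ * ((3 ^ κ * n * Int.gcdA ρ (2 ^ t)) % 2 ^ t)) / 2 ^ t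

/-- the representative -/
private def aa46 (ρ : ℤ) (t κ : ℕ) (n : ℤ) : ℤ := (3 ^ κ * n * Int.gcdA ρ (2 ^ t)) % 2 ^ t

private theorem aa_nonneg46 (t κ : ℕ) (n : ℤ) : 0 ≤ aa46 ρ t κ n :=
  Int.emod_nonneg _ (by positivity)

private theorem aa_lt46 (t κ : ℕ) (n : ℤ) : aa46 ρ t κ n < 2 ^ t :=
  Int.emod_lt_of_pos _ (by positivity)

private theorem cop46 (hρ : Odd ρ) (t : ℕ) : IsCoprime ((2 : ℤ) ^ t) ρ := by
  apply IsCoprime.pow_left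
  obtain ⟨w, hw⟩ := hρ
  exact ⟨-w, 1, by rw [hw]; ring⟩

private theorem bez46 (hρ : Odd ρ) (t : ℕ) :
    ρ * Int.gcdA ρ (2 ^ t) + 2 ^ t * Int.gcdB ρ (2 ^ t) = 1 := by
  rw [← Int.gcd_eq_gcd_ab, Int.isCoprime_iff_gcd_eq_one.1 (cop46 hρ t).symm]
  rfl

private theorem two_pow_mul_ref46 (hρ : Odd ρ) (t κ : ℕ) (n : ℤ) :
    2 ^ t * ref ρ t κ n = 3 ^ κ * n - ρ * aa46 ρ t κ n := by
  unfold ref
  rw [show (3 ^ κ * n * Int.gcdA ρ (2 ^ t)) % 2 ^ t = aa46 ρ t κ n from rfl]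
  apply Int.mul_ediv_cancel'
  obtain ⟨q, hq⟩ : ∃ q, 3 ^ κ * n * Int.gcdA ρ (2 ^ t) = aa46 ρ t κ n + 2 ^ t * q :=
    ⟨(3 ^ κ * n * Int.gcdA ρ (2 ^ t)) / 2 ^ t, (Int.emod_add_mul_ediv _ _).symm⟩
  have h := bez46 hρ t
  refine ⟨3 ^ κ * n * Int.gcdB ρ (2 ^ t) + ρ * q, ?_⟩
  linear_combination ρ * hq - (3 ^ κ * n) * h

theorem ref_near (hρ : Odd ρ) (t κ : ℕ) (n : ℤ) :
    |(ref ρ t κ n : ℝ) - 3 ^ κ * (n : ℝ) / 2 ^ t| ≤ |(ρ : ℝ)| := by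
  have h1 : (2 : ℝ) ^ t * (ref ρ t κ n : ℝ) = 3 ^ κ * (n : ℝ) - ρ * (aa46 ρ t κ n : ℝ) := by
    exact_mod_cast two_pow_mul_ref46 hρ t κ n
  have h2 : (0 : ℝ) ≤ (aa46 ρ t κ n : ℝ) := by exact_mod_cast aa_nonneg46 t κ n
  have h3 : (aa46 ρ t κ n : ℝ) < 2 ^ t := by exact_mod_cast aa_lt46 t κ n
  have hp : (0 : ℝ) < 2 ^ t := by positivity
  have e : (ref ρ t κ n : ℝ) - 3 ^ κ * (n : ℝ) / 2 ^ t = -(ρ * ((aa46 ρ t κ n : ℝ) / 2 ^ t)) := by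
    field_simp
    linear_combination h1
  rw [e, abs_neg, abs_mul]
  have h4 : |(aa46 ρ t κ n : ℝ) / 2 ^ t| ≤ 1 := by
    rw [abs_of_nonneg (by positivity), div_le_one hp]
    exact h3.le
  calc |(ρ : ℝ)| * |(aa46 ρ t κ n : ℝ) / 2 ^ t| ≤ |(ρ : ℝ)| * 1 :=
        mul_le_mul_of_nonneg_left h4 (abs_nonneg _)
    _ = _ := mul_one _

theorem ref_shift (hρ : Odd ρ) (t κ : ℕ) (n j : ℤ) :
    ref ρ t κ (n + 2 ^ t * j) = ref ρ t κ n + 3 ^ κ * j := by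
  have h1 := two_pow_mul_ref46 hρ t κ n
  have h2 := two_pow_mul_ref46 hρ t κ (n + 2 ^ t * j)
  have h3 : aa46 ρ t κ (n + 2 ^ t * j) = aa46 ρ t κ n := by
    unfold aa46
    have e : 3 ^ κ * (n + 2 ^ t * j) * Int.gcdA ρ (2 ^ t) =
        3 ^ κ * n * Int.gcdA ρ (2 ^ t) + 2 ^ t * (3 ^ κ * j * Int.gcdA ρ (2 ^ t)) := by ring
    rw [e, Int.add_mul_emod_self_left]
  rw [h3] at h2
  have hp : (2 : ℤ) ^ t ≠ 0 := by positivity
  apply mul_left_cancel₀ hp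
  linear_combination h2 - h1

private theorem iter_dvd46 (hρ : Odd ρ) (t : ℕ) (x : ℤ) :
    ρ ∣ 2 ^ t * (T 2 3 (fun _ => ρ))^[t] x - 3 ^ (cnt 2 3 (fun _ => ρ) t x) * x := by
  obtain ⟨r, hr⟩ := id hρ
  induction t generalizing x with
  | zero => simp [cnt]
  | succ t ih =>
    rw [Function.iterate_succ_apply, cnt]
    obtain ⟨q, hq⟩ := ih (T 2 3 (fun _ => ρ) x)
    rcases Int.even_or_odd' x with ⟨z, hz | hz⟩
    · have h2 : (((2 : ℕ) : ℤ)) ∣ x := ⟨z, hz⟩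
      have h3 : T 2 3 (fun _ => ρ) x = z := by
        unfold T
        rw [if_pos h2, hz]
        exact Int.mul_ediv_cancel_left z (by norm_num)
      rw [h3] at hq ⊢
      rw [if_pos h2, zero_add]
      refine ⟨2 * q, ?_⟩
      rw [hz, pow_succ]
      linear_combination 2 * hq
    · have h2 : ¬ (((2 : ℕ) : ℤ)) ∣ x := by
        intro h
        have : (2 : ℤ) ∣ x := h
        omega
      have h3 : T 2 3 (fun _ => ρ) x = 3 * z + (1 - r) := by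
        unfold T
        rw [if_neg h2, hz]
        push_cast
        rw [hr]
        omega
      rw [h3] at hq ⊢
      rw [if_neg h2]
      refine ⟨2 * q - 3 ^ (cnt 2 3 (fun _ => ρ) t (3 * z + (1 - r))), ?_⟩
      have h4 : (2 : ℤ) * (3 * z + (1 - r)) = 3 * x - ρ := by
        rw [hz, hr]
        ring
      rw [pow_succ, pow_add, pow_one]
      linear_combination 2 * hq + 3 ^ (cnt 2 3 (fun _ => ρ) t (3 * z + (1 - r))) * h4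

theorem ref_dvd_part (hρ : Odd ρ) {J t : ℕ} {n : ℤ} {p : ℕ × ℤ} (hp : p ∈ Part ρ J t n) :
    ρ ∣ p.2 - ref ρ t p.1 n := by
  unfold Part at hp
  obtain ⟨j, -, rfl⟩ := mem_image.1 hp
  obtain ⟨q, hq⟩ := iter_dvd46 hρ t (n + ρ * j)
  have h1 := two_pow_mul_ref46 hρ t (cnt 2 3 (fun _ => ρ) t (n + ρ * j)) n
  apply (cop46 hρ t).symm.dvd_of_dvd_mul_left
  dsimp only
  refine ⟨q + 3 ^ (cnt 2 3 (fun _ => ρ) t (n + ρ * j)) * j + aa46 ρ t (cnt 2 3 (fun _ => ρ) t (n + ρ * j)) n, ?_⟩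
  linear_combination hq - h1

theorem ref_succ (hρ : Odd ρ) (t κ : ℕ) (n : ℤ) :
    ∃ β : ℤ, ref ρ t (κ + 1) n = 3 * ref ρ t κ n + ρ * β ∧ |β| ≤ 4 := by
  have h1 := two_pow_mul_ref46 hρ t κ n
  have h2 := two_pow_mul_ref46 hρ t (κ + 1) n
  have hρ0 : ρ ≠ 0 := by
    rintro rfl
    exact absurd hρ (by decide)
  have hd : ρ ∣ ref ρ t (κ + 1) n - 3 * ref ρ t κ n := by
    apply (cop46 hρ t).symm.dvd_of_dvd_mul_left
    refine ⟨3 * aa46 ρ t κ n - aa46 ρ t (κ + 1) n, ?_⟩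
    rw [pow_succ] at h2
    linear_combination h2 - 3 * h1
  obtain ⟨β, hβ⟩ := hd
  refine ⟨β, by linear_combination hβ, ?_⟩
  have h3 : 2 ^ t * β = 3 * aa46 ρ t κ n - aa46 ρ t (κ + 1) n := by
    apply mul_left_cancel₀ hρ0
    rw [pow_succ] at h2
    linear_combination h2 - 3 * h1 - 2 ^ t * hβ
  have a1 := aa_nonneg46 (ρ := ρ) t κ n
  have a2 := aa_lt46 (ρ := ρ) t κ n
  have a3 := aa_nonneg46 (ρ := ρ) t (κ + 1) n
  have a4 := aa_lt46 (ρ := ρ) t (κ + 1) n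
  have hp : (0 : ℤ) < 2 ^ t := by positivity
  rw [abs_le]
  constructor
  · by_contra hcon
    push Not at hcon
    nlinarith
  · by_contra hcon
    push Not at hcon
    nlinarith

end Pool.Agent.Helper8.CO
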