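import Pool.Agent.Helper8.CO.Win
import Pool.Agent.Helper8.ND.Density

/-!
# CO-RES: invariant sets are equidistributed in the residue classes

`cN G x` (`Helper8.ND.Density`) is the number of the positive elements `≤ x` of `G`. `G` is invariant in the positive integers,
`cN G x / x → δ`.

* `shift`: for `ε > 0` and large `x`, at most `ε x` of the `0 < n ≤ x` have not (`n ∈ G ↔ n + ρ ∈ G`): if `n` and `n + ρ` are
  `≥ 2 ^ kk x (|ρ| + 1)` and `MM ρ (kk x) 0 n (n + ρ)` then `MM_mem`; the other `n` are `≤ √x (2 |ρ| + 1)` (`two_pow_kk_le`) or belong to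
  the set of `win` for `c = 1 / 4` (`|ρ| ≤ (log x) ^ c` for large `x`).
* `res`: let `G_a = {n ∈ G | n ≡ a [ZMOD N]}`. `n ↦ n + ρ` maps the elements of `G_a` up to `x` into those of `G_(a + ρ)` up to `x + |ρ|`, with at most
  `ε x + |ρ|` exceptions, so `|cN G_(a + ρ) x - cN G_a x| ≤ ε x + 2 |ρ| + ...= o(x)` (the same for the inverse map; or use only one inequality,
  which gives the other after `N` steps because `G_a` is periodic in `a`). As `ρ` is invertible modulo `N`, all the `cN G_a x`,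
  `a mod N`, differ by `o(x)`, and their sum over `a` modulo `N` is `cN G x ~ δ x`.
-/

set_option autoImplicit false

namespace Pool.Agent.Helper8.CO

open Pool.Agent.Helper68.Moeller Finset Filter Topology Pool.Agent.Helper8.ND

variable {ρ : ℤ}

theorem shift (hρ : Odd ρ) {G : Set ℤ}
    (hG : ∀ n : ℤ, 0 < n → (n ∈ G ↔ T 2 3 (fun _ => ρ) n ∈ G)) {ε : ℝ} (hε : 0 < ε) :
    ∃ X : ℝ, ∀ x : ℝ, X ≤ x →
    ({n : ℤ | 0 < n ∧ (n : ℝ) ≤ x ∧ ¬ (n ∈ G ↔ n + ρ ∈ G)}.ncard : ℝ) ≤ ε * x := by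
  obtain ⟨X, hX⟩ := win hρ (c := 1 / 4) (by norm_num) (by norm_num) (half_pos hε)
  have hlim1 : ∀ᶠ x : ℝ in atTop, |(ρ : ℝ)| ≤ Real.log x ^ (1 / 4 : ℝ) :=
    ((tendsto_rpow_atTop (by norm_num : (0 : ℝ) < 1 / 4)).comp
      Real.tendsto_log_atTop).eventually_ge_atTop _
  have hlim2 : ∀ᶠ x : ℝ in atTop, 2 * (2 * |(ρ : ℝ)| + 1) / ε ≤ Real.sqrt x :=
    Real.tendsto_sqrt_atTop.eventually_ge_atTop _
  obtain ⟨X', hX'⟩ := Filter.eventually_atTop.1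
    (hlim1.and (hlim2.and ((eventually_ge_atTop X).and (eventually_ge_atTop (1 : ℝ)))))
  refine ⟨X', fun x hx => ?_⟩
  obtain ⟨h1, h2, h3, h4⟩ := hX' x hx
  have hwin := hX x h3
  set W : Set ℤ := {n : ℤ | 0 < n ∧ (n : ℝ) ≤ x ∧ ∃ h : ℤ, ρ ∣ h ∧ |(h : ℝ)| ≤ Real.log x ^ (1 / 4 : ℝ) ∧
      ¬ MM ρ (kk x) 0 n (n + h)} with hW
  have hWfin : W.Finite := by
    refine (Finset.finite_toSet (Finset.Icc (1 : ℤ) ⌊x⌋)).subset ?_
    rintro n ⟨a1, a2, _⟩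
    rw [Finset.mem_coe, Finset.mem_Icc]
    exact ⟨a1, Int.le_floor.2 a2⟩
  have hs0 : 0 ≤ Real.sqrt x := Real.sqrt_nonneg x
  have hs1 : 1 ≤ Real.sqrt x := Real.one_le_sqrt.2 h4
  have hr0 : 0 ≤ |(ρ : ℝ)| := abs_nonneg _
  set B : ℝ := Real.sqrt x * (2 * |(ρ : ℝ)| + 1) with hB
  have hB0 : 0 ≤ B := by positivity
  have hsub : {n : ℤ | 0 < n ∧ (n : ℝ) ≤ x ∧ ¬ (n ∈ G ↔ n + ρ ∈ G)} ⊆
      W ∪ ((Finset.Icc (1 : ℤ) ⌊B⌋ : Finset ℤ) : Set ℤ) := by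
    rintro n ⟨hn0, hnx, hnG⟩
    by_cases hMM : MM ρ (kk x) 0 n (n + ρ)
    · right
      rw [Finset.mem_coe, Finset.mem_Icc]
      refine ⟨hn0, Int.le_floor.2 ?_⟩
      by_contra hcon
      push Not at hcon
      apply hnG
      have hk := two_pow_kk_le h4
      have hk0 : (0 : ℝ) ≤ 2 ^ kk x := by positivity
      have e1 : (2 : ℝ) ^ kk x * (|(ρ : ℝ)| + 1) ≤ Real.sqrt x * (|(ρ : ℝ)| + 1) :=
        mul_le_mul_of_nonneg_right hk (by linarith)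
      have e2 : Real.sqrt x * (|(ρ : ℝ)| + 1) + |(ρ : ℝ)| ≤ B := by
        have : 1 * |(ρ : ℝ)| ≤ Real.sqrt x * |(ρ : ℝ)| := mul_le_mul_of_nonneg_right hs1 hr0
        rw [hB]
        nlinarith
      have e3 : -|(ρ : ℝ)| ≤ (ρ : ℝ) := neg_abs_le _
      refine MM_mem hρ hG (by linarith) ?_ hMM
      push_cast
      linarith
    · left
      exact ⟨hn0, hnx, ρ, dvd_rfl, h1, hMM⟩
  have hcard : (({n : ℤ | 0 < n ∧ (n : ℝ) ≤ x ∧ ¬ (n ∈ G ↔ n + ρ ∈ G)}).ncard : ℝ) ≤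
      (W.ncard : ℝ) + B := by
    have c1 := Set.ncard_le_ncard hsub (hWfin.union (Finset.finite_toSet _))
    have c2 := Set.ncard_union_le W ((Finset.Icc (1 : ℤ) ⌊B⌋ : Finset ℤ) : Set ℤ)
    rw [Set.ncard_coe_finset, Int.card_Icc] at c2
    have c3 : ((⌊B⌋ + 1 - 1).toNat : ℤ) = ⌊B⌋ := by
      rw [add_sub_cancel_right]
      exact Int.toNat_of_nonneg (Int.floor_nonneg.2 hB0)
    have c4 : ((⌊B⌋ + 1 - 1).toNat : ℝ) ≤ B := by
      have : ((⌊B⌋ + 1 - 1).toNat : ℝ) = ((((⌊B⌋ + 1 - 1).toNat : ℤ)) : ℝ) := by push_cast; rfl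
      rw [this, c3]
      exact Int.floor_le B
    have c5 : (({n : ℤ | 0 < n ∧ (n : ℝ) ≤ x ∧ ¬ (n ∈ G ↔ n + ρ ∈ G)}).ncard : ℝ) ≤
        ((W.ncard + (⌊B⌋ + 1 - 1).toNat : ℕ) : ℝ) := by exact_mod_cast c1.trans c2
    push_cast at c5
    linarith
  have hBx : B ≤ ε / 2 * x := by
    have e1 : Real.sqrt x * Real.sqrt x = x := Real.mul_self_sqrt (by linarith)
    have e2 : 2 * (2 * |(ρ : ℝ)| + 1) ≤ ε * Real.sqrt x := by
      rw [div_le_iff₀ hε] at h2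
      linarith
    have e3 : Real.sqrt x * (2 * (2 * |(ρ : ℝ)| + 1)) ≤ Real.sqrt x * (ε * Real.sqrt x) :=
      mul_le_mul_of_nonneg_left e2 hs0
    have e4 : Real.sqrt x * (ε * Real.sqrt x) = ε * x := by
      calc Real.sqrt x * (ε * Real.sqrt x) = ε * (Real.sqrt x * Real.sqrt x) := by ring
        _ = ε * x := by rw [e1]
    rw [hB]
    linarith
  linarith

/-- the number of exceptions -/
private noncomputable def h99_Ex (ρ : ℤ) (G : Set ℤ) (x : ℝ) : ℝ :=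
  ({n : ℤ | 0 < n ∧ (n : ℝ) ≤ x ∧ ¬ (n ∈ G ↔ n + ρ ∈ G)}.ncard : ℝ)

private theorem h99_step (G : Set ℤ) (N : ℕ) (b : ℤ) (x : ℝ) :
    cN {n : ℤ | n ∈ G ∧ n ≡ b [ZMOD N]} x ≤
      cN {n : ℤ | n ∈ G ∧ n ≡ b + ρ [ZMOD N]} x + (h99_Ex ρ G x + 2 * |(ρ : ℝ)|) := by
  set A : Set ℤ := {n : ℤ | n ∈ {n : ℤ | n ∈ G ∧ n ≡ b [ZMOD N]} ∧ 0 < n ∧ (n : ℝ) ≤ x} with hA
  set A' : Set ℤ := {n : ℤ | n ∈ {n : ℤ | n ∈ G ∧ n ≡ b + ρ [ZMOD N]} ∧ 0 < n ∧ (n : ℝ) ≤ x} with hA'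
  set E : Set ℤ := {n : ℤ | 0 < n ∧ (n : ℝ) ≤ x ∧ ¬ (n ∈ G ↔ n + ρ ∈ G)} with hE
  set B : Finset ℤ := Finset.Icc 1 |ρ| ∪ Finset.Icc (⌊x⌋ + 1 - |ρ|) ⌊x⌋ with hB
  have hEfin : E.Finite := by
    refine (Finset.finite_toSet (Finset.Icc (1 : ℤ) ⌊x⌋)).subset ?_
    rintro n ⟨a1, a2, _⟩
    rw [Finset.mem_coe, Finset.mem_Icc]
    exact ⟨a1, Int.le_floor.2 a2⟩
  have hA'fin : A'.Finite := finite_cN _ x
  have hsub : A ⊆ (E ∪ (fun m => m - ρ) '' A') ∪ (B : Set ℤ) := by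
    rintro n ⟨⟨hnG, hnb⟩, hn0, hnx⟩
    by_cases h1 : n ∈ G ↔ n + ρ ∈ G
    · by_cases h2 : 0 < n + ρ ∧ ((n + ρ : ℤ) : ℝ) ≤ x
      · left; right
        exact ⟨n + ρ, ⟨⟨h1.1 hnG, Int.ModEq.add_right ρ hnb⟩, h2.1, h2.2⟩, by ring⟩
      · right
        rw [Finset.mem_coe, hB, Finset.mem_union, Finset.mem_Icc, Finset.mem_Icc]
        rw [not_and_or] at h2
        rcases h2 with h2 | h2
        · left
          have := neg_abs_le ρ
          constructor <;> omega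
        · right
          have e1 : ⌊x⌋ < n + ρ := by
            rw [not_le] at h2
            exact Int.floor_lt.2 h2
          have e2 : n ≤ ⌊x⌋ := Int.le_floor.2 hnx
          have := le_abs_self ρ
          constructor <;> omega
    · left; left
      exact ⟨hn0, hnx, h1⟩
  have c1 := Set.ncard_le_ncard hsub ((hEfin.union (hA'fin.image _)).union (Finset.finite_toSet _))
  have c2 := Set.ncard_union_le (E ∪ (fun m => m - ρ) '' A') (B : Set ℤ)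
  have c3 := Set.ncard_union_le E ((fun m => m - ρ) '' A')
  have c4 := Set.ncard_image_le (f := fun m => m - ρ) hA'fin
  have c5 : B.card ≤ 2 * ρ.natAbs := by
    have d1 := Finset.card_union_le (Finset.Icc (1 : ℤ) |ρ|) (Finset.Icc (⌊x⌋ + 1 - |ρ|) ⌊x⌋)
    rw [Int.card_Icc, Int.card_Icc] at d1
    rw [hB]
    refine d1.trans (le_of_eq ?_)
    have e0 := Int.abs_eq_natAbs ρ
    omega
  rw [Set.ncard_coe_finset] at c2
  have c6 : A.ncard ≤ A'.ncard + (E.ncard + 2 * ρ.natAbs) := by omega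
  have c7 : (A.ncard : ℝ) ≤ ((A'.ncard + (E.ncard + 2 * ρ.natAbs) : ℕ) : ℝ) := by exact_mod_cast c6
  have c8 : ((ρ.natAbs : ℕ) : ℝ) = |(ρ : ℝ)| := by
    rw [Nat.cast_natAbs, Int.cast_abs]
  push_cast at c7
  rw [← c8]
  unfold cN h99_Ex
  rw [← hA, ← hA', ← hE]
  linarith

private theorem h99_iter (G : Set ℤ) (N : ℕ) (b : ℤ) (x : ℝ) (j : ℕ) :
    cN {n : ℤ | n ∈ G ∧ n ≡ b [ZMOD N]} x ≤
      cN {n : ℤ | n ∈ G ∧ n ≡ b + j * ρ [ZMOD N]} x + j * (h99_Ex ρ G x + 2 * |(ρ : ℝ)|) := by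
  induction j with
  | zero => simp
  | succ j ih =>
    have h1 := h99_step (ρ := ρ) G N (b + j * ρ) x
    have e1 : b + (j : ℤ) * ρ + ρ = b + ((j + 1 : ℕ) : ℤ) * ρ := by push_cast; ring
    rw [e1] at h1
    have e2 : ((j + 1 : ℕ) : ℝ) * (h99_Ex ρ G x + 2 * |(ρ : ℝ)|) =
        j * (h99_Ex ρ G x + 2 * |(ρ : ℝ)|) + (h99_Ex ρ G x + 2 * |(ρ : ℝ)|) := by
      push_cast; ring
    rw [e2]
    linarith

private theorem h99_Ex_nonneg (G : Set ℤ) (x : ℝ) : 0 ≤ h99_Ex ρ G x := by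
  unfold h99_Ex
  positivity

private theorem h99_all (G : Set ℤ) {N : ℕ} (hN : 0 < N) (hco : Nat.Coprime N ρ.natAbs) (b a : ℤ)
    (x : ℝ) :
    cN {n : ℤ | n ∈ G ∧ n ≡ b [ZMOD N]} x ≤
      cN {n : ℤ | n ∈ G ∧ n ≡ a [ZMOD N]} x + N * (h99_Ex ρ G x + 2 * |(ρ : ℝ)|) := by
  have hcop : IsCoprime ρ (N : ℤ) := by
    rw [Int.isCoprime_iff_gcd_eq_one, Int.gcd_comm]
    simpa [Int.gcd] using hco
  obtain ⟨u, v, huv⟩ := hcop
  have hN' : (0 : ℤ) < N := by exact_mod_cast hN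
  set j : ℕ := (((a - b) * u) % N).toNat with hj
  have hj0 : (j : ℤ) = ((a - b) * u) % N := by
    rw [hj]
    exact Int.toNat_of_nonneg (Int.emod_nonneg _ hN'.ne')
  have hjN : (j : ℤ) < N := by
    rw [hj0]
    exact Int.emod_lt_of_pos _ hN'
  have hmod : b + (j : ℤ) * ρ ≡ a [ZMOD N] := by
    have h1 : (j : ℤ) ≡ (a - b) * u [ZMOD N] := by
      rw [hj0]
      exact Int.mod_modEq _ _
    have h2 : b + (j : ℤ) * ρ ≡ b + (a - b) * u * ρ [ZMOD N] :=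
      Int.ModEq.add_left b (Int.ModEq.mul_right ρ h1)
    refine h2.trans ?_
    have h3 : b + (a - b) * u * ρ = a + (N : ℤ) * (-(a - b) * v) := by
      have : u * ρ = 1 - v * N := by linarith
      calc b + (a - b) * u * ρ = b + (a - b) * (u * ρ) := by ring
        _ = b + (a - b) * (1 - v * N) := by rw [this]
        _ = _ := by ring
    rw [h3]
    exact (Int.modEq_iff_dvd.2 ⟨-(-(a - b) * v), by ring⟩)
  have hset : {n : ℤ | n ∈ G ∧ n ≡ b + (j : ℤ) * ρ [ZMOD N]} = {n : ℤ | n ∈ G ∧ n ≡ a [ZMOD N]} := by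
    ext n
    exact ⟨fun h => ⟨h.1, h.2.trans hmod⟩, fun h => ⟨h.1, h.2.trans hmod.symm⟩⟩
  have h1 := h99_iter (ρ := ρ) G N b x j
  rw [hset] at h1
  have h2 : (j : ℝ) ≤ N := by exact_mod_cast hjN.le
  have h3 : 0 ≤ h99_Ex ρ G x + 2 * |(ρ : ℝ)| := by
    have := h99_Ex_nonneg (ρ := ρ) G x
    positivity
  have h4 := mul_le_mul_of_nonneg_right h2 h3
  linarith

private theorem h99_cN_eq (G : Set ℤ) [DecidablePred (· ∈ G)] (x : ℝ) :
    cN G x = (((Finset.Icc (1 : ℤ) ⌊x⌋).filter (fun n => n ∈ G)).card : ℝ) := by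
  unfold cN
  rw [← Set.ncard_coe_finset]
  congr 2
  ext n
  rw [Finset.coe_filter]
  simp only [Set.mem_ofPred_eq, Finset.mem_Icc]
  constructor
  · rintro ⟨h1, h2, h3⟩
    exact ⟨⟨h2, Int.le_floor.2 h3⟩, h1⟩
  · rintro ⟨⟨h2, h3⟩, h1⟩
    exact ⟨h1, h2, Int.le_floor.1 h3⟩

private theorem h99_sum (G : Set ℤ) {N : ℕ} (hN : 0 < N) (x : ℝ) :
    cN G x = ∑ b ∈ Finset.range N, cN {n : ℤ | n ∈ G ∧ n ≡ (b : ℤ) [ZMOD N]} x := by
  classical
  have hN' : (0 : ℤ) < N := by exact_mod_cast hN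
  rw [h99_cN_eq]
  have h1 : ((Finset.Icc (1 : ℤ) ⌊x⌋).filter (fun n => n ∈ G)).card =
      ∑ b ∈ Finset.range N, (((Finset.Icc (1 : ℤ) ⌊x⌋).filter (fun n => n ∈ G)).filter
        (fun n => (n % (N : ℤ)).toNat = b)).card := by
    refine Finset.card_eq_sum_card_fiberwise fun n _ => ?_
    rw [Finset.mem_coe, Finset.mem_range]
    have e1 := Int.emod_nonneg n hN'.ne'
    have e2 := Int.emod_lt_of_pos n hN'
    omega
  rw [h1]
  push_cast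
  refine Finset.sum_congr rfl fun b hb => ?_
  rw [h99_cN_eq, Finset.filter_filter]
  congr 2
  ext n
  simp only [Finset.mem_filter, Set.mem_ofPred_eq]
  have hbN : (b : ℤ) < N := by exact_mod_cast Finset.mem_range.1 hb
  have e3 : (b : ℤ) % (N : ℤ) = b := Int.emod_eq_of_lt (by positivity) hbN
  have e1 := Int.emod_nonneg n hN'.ne'
  have e4 : (n % (N : ℤ)).toNat = b ↔ n ≡ (b : ℤ) [ZMOD N] := by
    unfold Int.ModEq
    rw [e3]
    omega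
  rw [e4]

theorem res (hρ : Odd ρ) {G : Set ℤ}
    (hG : ∀ n : ℤ, 0 < n → (n ∈ G ↔ T 2 3 (fun _ => ρ) n ∈ G)) {δ : ℝ}
    (hδ : Tendsto (fun x : ℝ => cN G x / x) atTop (𝓝 δ)) {N : ℕ} (hN : 0 < N)
    (hco : Nat.Coprime N ρ.natAbs) (a : ℤ) :
    Tendsto (fun x : ℝ => cN {n : ℤ | n ∈ G ∧ n ≡ a [ZMOD N]} x / x) atTop (𝓝 (δ / N)) := by
  have hN' : (0 : ℝ) < N := by exact_mod_cast hN
  have hE : Tendsto (fun x : ℝ => h99_Ex ρ G x / x) atTop (𝓝 0) := by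
    rw [Metric.tendsto_atTop]
    intro ε hε
    obtain ⟨X, hX⟩ := shift hρ hG (half_pos hε)
    refine ⟨max X 1, fun x hx => ?_⟩
    have hx1 : X ≤ x := (le_max_left _ _).trans hx
    have hx0 : (0 : ℝ) < x := lt_of_lt_of_le one_pos ((le_max_right _ _).trans hx)
    have h1 : h99_Ex ρ G x ≤ ε / 2 * x := hX x hx1
    rw [Real.dist_eq, sub_zero, abs_of_nonneg (div_nonneg (h99_Ex_nonneg G x) hx0.le),
      div_lt_iff₀ hx0]
    nlinarith
  have hR : Tendsto (fun x : ℝ => 2 * |(ρ : ℝ)| / x) atTop (𝓝 0) :=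
    tendsto_const_nhds.div_atTop tendsto_id
  have hbd : Tendsto (fun x : ℝ => (N : ℝ) * (h99_Ex ρ G x / x + 2 * |(ρ : ℝ)| / x)) atTop (𝓝 0) := by
    have := (hE.add hR).const_mul (N : ℝ)
    simpa using this
  have hdiff : Tendsto (fun x : ℝ => cN {n : ℤ | n ∈ G ∧ n ≡ a [ZMOD N]} x / x - cN G x / x / N)
      atTop (𝓝 0) := by
    refine squeeze_zero_norm' ?_ hbd
    filter_upwards [eventually_ge_atTop (1 : ℝ)] with x hx
    have hx0 : (0 : ℝ) < x := lt_of_lt_of_le one_pos hx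
    set e := h99_Ex ρ G x + 2 * |(ρ : ℝ)| with he
    have h1 : cN G x ≤ N * cN {n : ℤ | n ∈ G ∧ n ≡ a [ZMOD N]} x + N * (N * e) := by
      rw [h99_sum G hN x]
      have h3 : ∑ b ∈ Finset.range N, cN {n : ℤ | n ∈ G ∧ n ≡ (b : ℤ) [ZMOD N]} x ≤
          ∑ b ∈ Finset.range N, (cN {n : ℤ | n ∈ G ∧ n ≡ a [ZMOD N]} x + N * e) :=
        Finset.sum_le_sum fun b _ => h99_all (ρ := ρ) G hN hco (b : ℤ) a x
      rw [Finset.sum_const, Finset.card_range, nsmul_eq_mul] at h3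
      linarith
    have h2 : N * cN {n : ℤ | n ∈ G ∧ n ≡ a [ZMOD N]} x ≤ cN G x + N * (N * e) := by
      rw [h99_sum G hN x]
      have h3 : ∑ b ∈ Finset.range N, cN {n : ℤ | n ∈ G ∧ n ≡ a [ZMOD N]} x ≤
          ∑ b ∈ Finset.range N, (cN {n : ℤ | n ∈ G ∧ n ≡ (b : ℤ) [ZMOD N]} x + N * e) :=
        Finset.sum_le_sum fun b _ => h99_all (ρ := ρ) G hN hco a (b : ℤ) x
      rw [Finset.sum_const, Finset.card_range, nsmul_eq_mul, Finset.sum_add_distrib,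
        Finset.sum_const, Finset.card_range, nsmul_eq_mul] at h3
      exact h3
    have h3 : cN {n : ℤ | n ∈ G ∧ n ≡ a [ZMOD N]} x / x - cN G x / x / N =
        (N * cN {n : ℤ | n ∈ G ∧ n ≡ a [ZMOD N]} x - cN G x) / (N * x) := by
      field_simp
    have h4 : (N : ℝ) * (h99_Ex ρ G x / x + 2 * |(ρ : ℝ)| / x) = (N * (N * e)) / (N * x) := by
      rw [he]
      field_simp
    rw [Real.norm_eq_abs, h3, h4, abs_div, abs_of_pos (mul_pos hN' hx0)]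
    refine div_le_div_of_nonneg_right ?_ (mul_pos hN' hx0).le
    rw [abs_le]
    constructor <;> linarith
  have h5 := hdiff.add (hδ.div_const (N : ℝ))
  simpa using h5

end Pool.Agent.Helper8.CO
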