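import Pool.Agent.Helper8.CO.Res
import Pool.Agent.Helper8.CO.Eqv2
import Pool.Agent.Helper8.CO.Eqd
import Pool.Agent.Helper8.CO.Aa3

/-!
# Coalescence of the orbits of the maps `3x - r`

Let `R = {r}` be admissible for `d = 2`, `m = 3` (`r` any odd integer; `r = -1` is the `3x + 1` map) and `T n = n / 2` for even `n`,
`T n = (3 n - r) / 2` for odd `n`. The orbits of `n` and `n'` meet after `t` steps if `T^[t] n = T^[t] n'` and the first `t` points of both orbits
contain equally many odd integers.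

* Pairs: for every `c < 1 / 2` and every multiple `h` of `r` the orbits of `n` and `n + h` meet after at most `log x / log 2` steps for all but
  at most `C x (1 + log (1 + |h|)) ^ (1 / 2) (log x) ^ (-c)` of the positive integers `n ≤ x`.
* Windows: if `c, c' > 0`, `c + c' < 1 / 2` then for all but at most `C x (log x) ^ (-c')` of the positive integers `n ≤ x` the orbits of all `n + h`,
  `r ∣ h`, `|h| ≤ exp ((log x) ^ c)` meet at one time `t ≤ log x / log 2`. So for almost all `n` the orbits of all `n + h`, `r ∣ h`,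
  `|h| ≤ exp ((log n) ^ c)`, `c < 1 / 2`, meet. For `3x + 1` these are the orbits of all the integers of the interval.
* The invariant sets, which have a natural density, are equidistributed in the residue classes modulo all `N` coprime to `r`.
* The exceptional set `E(2, 3, R)` is finite if and only if for some `B` every interval `[n, n + exp ((log n) ^ c)]`, `n` large, contains a `n + h`,
  `r ∣ h`, such that the orbit of `n + h` has an element `≤ B` (`c < 1 / 2`), and if and only if, for some `B`, a positive proportion of each of these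
  intervals consists of such integers (`c < 1`).
* For `3x + 1`: all positive integers reach `1` if and only if every interval `[n, n + exp ((log n) ^ c)]`, `n` large, contains an integer which
  reaches `1` (`c < 1 / 2`), and if and only if a positive proportion of each interval reaches `1` (`c < 1`).

Proof. A pair `(y, y')`, `y' = 3 ^ c y + r β`, is a Markov chain with the states `(c, β)`, driven by the parity of `y`: `c` is a
symmetric random walk reflected at `0` (lazy: it rests while `β` is even, and the waiting time is bounded by lifting the exponent),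
and `|β| / 3 ^ c` is contracted in the mean. `Helper8/CO`: `Ly`, `Vv`: a positive function which is superharmonic outside the merged
state `(0, 0)` and at least `c ^ (1 - s)`; this bounds the probability to reach the level `c = M` before the orbits merge. `Ex`, `Ind`: exponential
bound for the time spent below the level `M`. `ParA`, `Ph`, `ParB`: the choice of the parameters and the dependence on `h`. `Cnt`, `Den`: from the
chain to integers. `Prt`, `Ref`, `Uni`, `Win2`: after `t` steps the orbits of a window of length `exp (t / 100)` are at `O(t)` points (level `κ`: the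
points with `κ` odd steps), and neighbouring levels merge. `Win`, `Res`, `Eqv`, `Eqd`: the consequences; the last ones use that invariant sets
have positive density or consist of multiples of `3` (`Helper8/POS`, `Helper28/POSB`).
-/

set_option autoImplicit false

namespace Pool.Agent.Results.MP_fd8838_nt.Coalescence

open Pool.Agent.Helper68.Moeller Pool.Agent.Helper8 Pool.Agent.Helper28 Filter Topology

/-- The number of the positive elements `≤ x`. -/
noncomputable def count (A : Set ℤ) (x : ℝ) : ℝ := ({n : ℤ | n ∈ A ∧ 0 < n ∧ (n : ℝ) ≤ x}.ncard : ℝ)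

/-- The natural density (in the positive integers). -/
def HasDensity (A : Set ℤ) (δ : ℝ) : Prop := Tendsto (fun x : ℝ => count A x / x) atTop (𝓝 δ)

/-- The number of the odd integers among the first `t` points of the orbit of `n`. -/
def odds (r : ℤ → ℤ) (t : ℕ) (n : ℤ) : ℕ :=
  ((Finset.range t).filter (fun i => ¬ (2 : ℤ) ∣ (T 2 3 r)^[i] n)).card

/-- The orbits of `n` and `n'` meet after `t` steps, with equally many odd points before. -/
def Meet (r : ℤ → ℤ) (t : ℕ) (n n' : ℤ) : Prop :=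
  (T 2 3 r)^[t] n = (T 2 3 r)^[t] n' ∧ odds r t n = odds r t n'

/-- `G` is invariant under `T`, in the positive integers. -/
def Inv (r : ℤ → ℤ) (G : Set ℤ) : Prop := ∀ n : ℤ, 0 < n → (n ∈ G ↔ T 2 3 r n ∈ G)

/-- The map `(3x + 1) / 2`, `x / 2`. -/
def T3 : ℤ → ℤ := T 2 3 (fun _ => -1)

theorem odds_eq (ρ : ℤ) (t : ℕ) (n : ℤ) : odds (fun _ => ρ) t n = cnt 2 3 (fun _ => ρ) t n := by
  induction t generalizing n with
  | zero => rfl
  | succ t ih =>
    rw [cnt, ← ih]
    unfold odds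
    rw [Finset.card_filter, Finset.card_filter, Finset.sum_range_succ', add_comm]
    congr 1
    rw [Function.iterate_zero, id_eq]
    rcases em ((2 : ℤ) ∣ n) with h | h
    · rw [if_neg (not_not.2 h), if_pos (by exact_mod_cast h)]
    · rw [if_pos h, if_neg (by exact_mod_cast h)]

theorem odds_const (r : ℤ → ℤ) (t : ℕ) (n : ℤ) : odds r t n = odds (fun _ => r 1) t n := by
  unfold odds
  rw [CO.T_eq (r := r)]

theorem meet_iff (r : ℤ → ℤ) (t : ℕ) (n n' : ℤ) : Meet r t n n' ↔ CO.MM (r 1) t 0 n n' := by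
  unfold Meet CO.MM
  rw [odds_const r t n, odds_const r t n', odds_eq, odds_eq, CO.T_eq (r := r), add_zero]

/-- **Coalescence.** -/
theorem result :
    (∀ r : ℤ → ℤ, Admissible 2 3 r →
      -- the orbits of `n` and `n + h`
      (∀ c : ℝ, c < 1 / 2 → ∃ C : ℝ, 0 < C ∧ ∀ (x : ℝ) (h : ℤ), 2 ≤ x → r 1 ∣ h →
        count {n | ¬ ∃ t : ℕ, (2 : ℝ) ^ t ≤ x ∧ Meet r t n (n + h)} x ≤
          C * x * Real.sqrt (1 + Real.log (1 + |(h : ℝ)|)) * Real.log x ^ (-c)) ∧
      -- the orbits of all `n + h`, `|h| ≤ exp ((log x) ^ c)`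
      (∀ c c' : ℝ, 0 < c → 0 < c' → c + c' < 1 / 2 → ∃ C : ℝ, 0 < C ∧ ∀ x : ℝ, 2 ≤ x →
        count {n | ¬ ∃ t : ℕ, (2 : ℝ) ^ t ≤ x ∧ ∀ h : ℤ, r 1 ∣ h →
          |(h : ℝ)| ≤ Real.exp (Real.log x ^ c) → Meet r t n (n + h)} x ≤
          C * x * Real.log x ^ (-c')) ∧
      -- almost all `n`
      (∀ c : ℝ, c < 1 / 2 → HasDensity {n | ∃ t : ℕ, ∀ h : ℤ, r 1 ∣ h →
        |(h : ℝ)| ≤ Real.exp (Real.log n ^ c) → Meet r t n (n + h)} 1) ∧
      -- invariant sets
      (∀ G : Set ℤ, Inv r G → ∃ δ : ℝ, HasDensity G δ ∧ ∀ (N : ℕ) (a : ℤ), 0 < N →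
        Nat.Coprime N (r 1).natAbs → HasDensity {n | n ∈ G ∧ n ≡ a [ZMOD N]} (δ / N)) ∧
      -- the exceptional set
      (∀ c : ℝ, c < 1 / 2 → ((E 2 3 r).Finite ↔ ∃ B N : ℝ, ∀ n : ℤ, N ≤ n → ∃ (h : ℤ) (t : ℕ),
        0 ≤ h ∧ r 1 ∣ h ∧ (h : ℝ) ≤ Real.exp (Real.log n ^ c) ∧ ((T 2 3 r)^[t] (n + h) : ℝ) ≤ B)) ∧
      (∀ c : ℝ, c < 1 → ((E 2 3 r).Finite ↔ ∃ B δ N : ℝ, 0 < δ ∧ ∀ n : ℤ, N ≤ n →
        δ * Real.exp (Real.log n ^ c) ≤ ({h : ℤ | 0 ≤ h ∧ (h : ℝ) ≤ Real.exp (Real.log n ^ c) ∧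
          r 1 ∣ h ∧ ∃ t : ℕ, ((T 2 3 r)^[t] (n + h) : ℝ) ≤ B}.ncard : ℝ)))) ∧
    -- the map `3x + 1`
    (∀ c : ℝ, c < 1 / 2 → ((∀ n : ℤ, 0 < n → ∃ t : ℕ, T3^[t] n = 1) ↔
      ∃ N : ℝ, ∀ n : ℤ, N ≤ n → ∃ (h : ℤ) (t : ℕ), 0 ≤ h ∧ (h : ℝ) ≤ Real.exp (Real.log n ^ c) ∧
        T3^[t] (n + h) = 1)) ∧
    (∀ c : ℝ, c < 1 → ((∀ n : ℤ, 0 < n → ∃ t : ℕ, T3^[t] n = 1) ↔
      ∃ δ N : ℝ, 0 < δ ∧ ∀ n : ℤ, N ≤ n → δ * Real.exp (Real.log n ^ c) ≤
        ({h : ℤ | 0 ≤ h ∧ (h : ℝ) ≤ Real.exp (Real.log n ^ c) ∧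
          ∃ t : ℕ, T3^[t] (n + h) = 1}.ncard : ℝ))) := by
  refine ⟨?_, fun c hc => CO.three_iff2 hc, fun c hc => CO.three_dens_iff hc⟩
  intro r hr
  have hρ : Odd (r 1) := CO.odd_of_adm hr
  have hstd : POSB.Std 2 3 r := ⟨le_refl 2, by norm_num, by norm_num, POS.three_hyp.1, hr⟩
  have hρ1 : (1 : ℝ) ≤ |((r 1 : ℤ) : ℝ)| := by
    have h0 : r 1 ≠ 0 := by
      intro h
      rw [h] at hρ
      exact absurd hρ (by decide)
    exact_mod_cast Int.one_le_abs h0
  refine ⟨?_, ?_, ?_, ?_, fun c hc => CO.exc_iff2 hr hc, fun c hc => CO.exc_dens_iff hr hc⟩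
  · intro c hc
    obtain ⟨C, hC, h1⟩ := CO.main_count hρ hc
    refine ⟨C, hC, ?_⟩
    rintro x h hx ⟨η, rfl⟩
    have h2 := h1 x η hx
    have hlx : 0 ≤ Real.log x ^ (-c) := Real.rpow_nonneg (Real.log_nonneg (by linarith)) _
    have h3 : Real.sqrt (1 + Real.log (1 + |(η : ℝ)|)) ≤
        Real.sqrt (1 + Real.log (1 + |((r 1 * η : ℤ) : ℝ)|)) := by
      apply Real.sqrt_le_sqrt
      have h4 : |(η : ℝ)| ≤ |((r 1 * η : ℤ) : ℝ)| := by
        push_cast
        rw [abs_mul]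
        exact le_mul_of_one_le_left (abs_nonneg _) hρ1
      have h5 := Real.log_le_log (by positivity : (0 : ℝ) < 1 + |(η : ℝ)|)
        (by linarith : 1 + |(η : ℝ)| ≤ 1 + |((r 1 * η : ℤ) : ℝ)|)
      linarith
    have e : {n : ℤ | n ∈ {n : ℤ | ¬ ∃ t : ℕ, (2 : ℝ) ^ t ≤ x ∧ Meet r t n (n + r 1 * η)} ∧ 0 < n ∧
        (n : ℝ) ≤ x} = {n : ℤ | 0 < n ∧ (n : ℝ) ≤ x ∧
          ¬ ∃ k : ℕ, (2 : ℝ) ^ k ≤ x ∧ CO.MM (r 1) k 0 n (n + r 1 * η)} := by
      ext n
      simp only [Set.mem_ofPred_eq, meet_iff]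
      tauto
    unfold count
    rw [e]
    refine h2.trans ?_
    have hx0 : 0 ≤ C * x := by nlinarith
    exact mul_le_mul_of_nonneg_right (mul_le_mul_of_nonneg_left h3 hx0) hlx
  · intro c c' hc hc' hcc
    obtain ⟨C, hC, h1⟩ := CO.window hρ hc hc' hcc
    refine ⟨C, hC, fun x hx => ?_⟩
    have e : {n : ℤ | n ∈ {n : ℤ | ¬ ∃ t : ℕ, (2 : ℝ) ^ t ≤ x ∧ ∀ h : ℤ, r 1 ∣ h →
        |(h : ℝ)| ≤ Real.exp (Real.log x ^ c) → Meet r t n (n + h)} ∧ 0 < n ∧ (n : ℝ) ≤ x} =
        {n : ℤ | 0 < n ∧ (n : ℝ) ≤ x ∧ ¬ ∃ t : ℕ, (2 : ℝ) ^ t ≤ x ∧ ∀ h : ℤ, r 1 ∣ h →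
          |(h : ℝ)| ≤ Real.exp (Real.log x ^ c) → CO.MM (r 1) t 0 n (n + h)} := by
      ext n
      simp only [Set.mem_ofPred_eq, meet_iff]
      tauto
    unfold count
    rw [e]
    exact h1 x hx
  · intro c hc
    have h1 := CO.almost_all3 hρ hc
    have e : {n : ℤ | ∃ t : ℕ, ∀ h : ℤ, r 1 ∣ h → |(h : ℝ)| ≤ Real.exp (Real.log n ^ c) →
        Meet r t n (n + h)} = {n : ℤ | ∃ t : ℕ, ∀ h : ℤ, r 1 ∣ h →
          |(h : ℝ)| ≤ Real.exp (Real.log n ^ c) → CO.MM (r 1) t 0 n (n + h)} := by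
      ext n
      simp only [Set.mem_ofPred_eq, meet_iff]
    rw [e]
    exact h1
  · intro G hG
    refine ⟨_, POSB.tendsto_dens hstd (G := G) (z := 0) ?_, ?_⟩
    · intro n hn
      exact hG n (by exact_mod_cast hn)
    · intro N a hN hco
      refine CO.res hρ (G := G) ?_ (POSB.tendsto_dens hstd (G := G) (z := 0) ?_) hN hco a
      · intro n hn
        have := hG n hn
        rwa [CO.T_eq (r := r)] at this
      · intro n hn
        exact hG n (by exact_mod_cast hn)

end Pool.Agent.Results.MP_fd8838_nt.Coalescence
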