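import Pool.Agent.Helper8.CO.Ref
import Pool.Agent.Helper8.CO.ParA

/-!
# CO-UNI: the whole window merges

`uni`: the number of the `n ∈ (a, a + N]` for which the orbits of `n, n + ρ, …, n + ρ J` are not all at the same point, with the same count,
after `t + k` steps is at most `(N + 2 ^ (t + k)) C k ^ (-c) (t + 1 + (J + 1) ^ 2 (0.98) ^ t)`.

* `iter_cnt`: `T^[t + k] x = T^[k] (T^[t] x)`, `cnt (t + k) x = cnt t x + cnt k (T^[t] x)`.
* `all_of`: suppose that `MM ρ k 1 (ref ρ t κ n) (ref ρ t (κ + 1) n)` for all `κ < t` and `MM ρ k 0 (ref ρ t κ n) v` for all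
  `(κ, v) ∈ Part ρ J t n`. Then `T^[k] (ref κ) = T^[k] (ref 0)` and `cnt k (ref κ) + κ = cnt k (ref 0)` for all `κ ≤ t`, so for all
  `j ≤ J`, with `(κ, v)` the particle of `n + ρ j` (`κ ≤ t`: `fst_le_of_mem`): `T^[t + k] (n + ρ j) = T^[k] v = T^[k] (ref 0)` and
  `cnt (t + k) (n + ρ j) = κ + cnt k v = κ + cnt k (ref κ) = cnt k (ref 0)`. So `MM ρ (t + k) 0 n (n + ρ j)` for all `j ≤ J`.
* `pair_count`: let `y₀`, `β` be integers, `κ`, `c` natural numbers; the number of the `j < 2 ^ k` such that not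
  `MM ρ k c (y₀ + 3 ^ κ j) (3 ^ c (y₀ + 3 ^ κ j) + ρ β)` is at most `2 ^ k uu k (c, β)` (`cnt_le`, `MM_periodic`, `card_affine` with `u = 3 ^ κ`).
* The bad `n < 2 ^ (t + k)`: write `n = n₀ + 2 ^ t j`, `n₀ < 2 ^ t`, `j < 2 ^ k`. By `ref_shift`, `Part_shift` the reference particles and the particles of `n` are
  those of `n₀`, shifted by `3 ^ κ j` at the level `κ`. By `all_of` and `pair_count` (with `c = 1` and `ref_succ`; with `c = 0` and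
  `v = ref κ + ρ β`, `ref_dvd_part`) the number of the bad `j` for given `n₀` is at most
  `2 ^ k (∑_{κ < t} uu k (1, β_κ) + ∑_{(κ, v) ∈ Part n₀} uu k (0, (v - ref κ) / ρ))`, and by `uu_rate_all` this is at most
  `2 ^ k D k ^ (-c) (4 t + ∑_p (1 + √|β_p|))`, `|β_κ| ≤ 4` (`qq (1, β) = √(|β| / 3) ≤ 2`), `|β_p| ≤ (|ξ_p| + |ρ|) / |ρ| ≤ |ξ_p| + 1` (`ref_near`), so
  `1 + √|β_p| ≤ 2 (1 + √|ξ_p|)`. Sum over `n₀`: `≤ 2 ^ (t + k) D k ^ (-c) 4 t + 2 ^ k D k ^ (-c) 2 SS ρ J t`, and `SS_le`.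
* The predicate `∀ j ≤ J, MM ρ (t + k) 0 n (n + ρ j)` is periodic modulo `2 ^ (t + k)` (`MM_periodic`, `c = 0`); `card_Ioc_le`.
-/

set_option autoImplicit false

namespace Pool.Agent.Helper8.CO

open Pool.Agent.Helper68.Moeller Finset Classical

variable {ρ : ℤ}

private theorem cnt_add87 (t k : ℕ) (x : ℤ) :
    cnt 2 3 (fun _ => ρ) (t + k) x =
      cnt 2 3 (fun _ => ρ) t x + cnt 2 3 (fun _ => ρ) k ((T 2 3 (fun _ => ρ))^[t] x) := by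
  induction t generalizing x with
  | zero => simp [cnt]
  | succ t ih =>
    rw [show t + 1 + k = (t + k) + 1 by ring, cnt, cnt, ih, Function.iterate_succ_apply]
    ring

private theorem iter_add87 (t k : ℕ) (x : ℤ) :
    (T 2 3 (fun _ => ρ))^[t + k] x =
      (T 2 3 (fun _ => ρ))^[k] ((T 2 3 (fun _ => ρ))^[t] x) := by
  rw [add_comm t k, Function.iterate_add_apply]

theorem all_of {J t k : ℕ} {n : ℤ}
    (h1 : ∀ κ < t, MM ρ k 1 (ref ρ t κ n) (ref ρ t (κ + 1) n))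
    (h2 : ∀ p ∈ Part ρ J t n, MM ρ k 0 (ref ρ t p.1 n) p.2) (j : ℕ) (hj : j ≤ J) :
    MM ρ (t + k) 0 n (n + ρ * j) := by
  -- all the reference particles merge
  have h3 : ∀ κ ≤ t, (T 2 3 (fun _ => ρ))^[k] (ref ρ t κ n) = (T 2 3 (fun _ => ρ))^[k] (ref ρ t 0 n) ∧
      cnt 2 3 (fun _ => ρ) k (ref ρ t 0 n) = cnt 2 3 (fun _ => ρ) k (ref ρ t κ n) + κ := by
    intro κ
    induction κ with
    | zero => exact fun _ => ⟨rfl, rfl⟩
    | succ κ ih =>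
      intro h
      obtain ⟨h4, h5⟩ := ih (by omega)
      obtain ⟨h6, h7⟩ := h1 κ (by omega)
      exact ⟨by rw [← h6, h4], by omega⟩
  -- the orbit of a point of the window
  have h4 : ∀ i : ℕ, i ≤ J → (T 2 3 (fun _ => ρ))^[t + k] (n + ρ * i) =
        (T 2 3 (fun _ => ρ))^[k] (ref ρ t 0 n) ∧
      cnt 2 3 (fun _ => ρ) (t + k) (n + ρ * i) = cnt 2 3 (fun _ => ρ) k (ref ρ t 0 n) := by
    intro i hi
    have hp : (cnt 2 3 (fun _ => ρ) t (n + ρ * i), (T 2 3 (fun _ => ρ))^[t] (n + ρ * i)) ∈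
        Part ρ J t n := mem_image.2 ⟨i, mem_range.2 (by omega), rfl⟩
    have hκ := fst_le_of_mem hp
    obtain ⟨h5, h6⟩ := h2 _ hp
    obtain ⟨h7, h8⟩ := h3 _ hκ
    simp only at h5 h6 h7 h8
    rw [iter_add87, cnt_add87]
    exact ⟨by rw [← h5, h7], by omega⟩
  obtain ⟨h5, h6⟩ := h4 0 (Nat.zero_le _)
  obtain ⟨h7, h8⟩ := h4 j hj
  rw [Nat.cast_zero, mul_zero, add_zero] at h5 h6
  exact ⟨by rw [h5, h7], by rw [h6, h8, add_zero]⟩

/-- Comparison of two filters with arbitrary decidability instances. -/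
private theorem card_le87 {α : Type} (s : Finset α) (P Q : α → Prop) {_ : DecidablePred P}
    {_ : DecidablePred Q} (h : ∀ y, P y → Q y) : (s.filter P).card ≤ (s.filter Q).card :=
  card_le_card (monotone_filter_right _ fun y _ => h y)

theorem pair_count (hρ : Odd ρ) (k c κ : ℕ) (y β : ℤ) :
    (((range (2 ^ k)).filter (fun j : ℕ =>
      ¬ MM ρ k c (y + 3 ^ κ * j) (3 ^ c * (y + 3 ^ κ * j) + ρ * β))).card : ℝ) ≤
      2 ^ k * uu k (c, β) := by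
  have hper : ∀ x j : ℤ, ¬ MM ρ k c (x + 2 ^ k * j) (3 ^ c * (x + 2 ^ k * j) + ρ * β) ↔
      ¬ MM ρ k c x (3 ^ c * x + ρ * β) := fun x j => not_congr (MM_periodic hρ k c β x j)
  have h1 := card_affine (P := fun x => ¬ MM ρ k c x (3 ^ c * x + ρ * β)) hper
    (u := 3 ^ κ) (Odd.pow (by decide)) y
  refine le_trans (Nat.cast_le.2 ?_) (cnt_le hρ k c β)
  refine le_trans (card_le87 _ _ _ fun j h => ?_) (h1.le.trans (card_le87 _ _ _ fun _ h => h))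
  rw [add_comm y] at h
  exact h

private theorem window_shift87 (hρ : Odd ρ) {J t k : ℕ} (n₀ : ℕ) (j : ℕ)
    (h : ¬ ∀ i : ℕ, i ≤ J → MM ρ (t + k) 0 ((n₀ : ℤ) + 2 ^ t * j) ((n₀ : ℤ) + 2 ^ t * j + ρ * i)) :
    (∃ κ < t, ¬ MM ρ k 1 (ref ρ t κ n₀ + 3 ^ κ * j) (ref ρ t (κ + 1) n₀ + 3 ^ (κ + 1) * j)) ∨
      ∃ p ∈ Part ρ J t (n₀ : ℤ), ¬ MM ρ k 0 (ref ρ t p.1 n₀ + 3 ^ p.1 * j) (p.2 + 3 ^ p.1 * j) := by
  by_contra hcon
  rw [not_or] at hcon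
  obtain ⟨h1, h2⟩ := hcon
  push Not at h1 h2
  apply h
  intro i hi
  refine all_of (J := J) ?_ ?_ i hi
  · intro κ hκ
    rw [ref_shift hρ, ref_shift hρ]
    exact h1 κ hκ
  · intro p hp
    rw [Part_shift hρ, mem_image] at hp
    obtain ⟨q, hq, rfl⟩ := hp
    rw [ref_shift hρ]
    exact h2 q hq

private theorem odd_abs87 (hρ : Odd ρ) : (1 : ℝ) ≤ |(ρ : ℝ)| := by
  have h1 : ρ ≠ 0 := by
    rintro rfl
    exact absurd hρ (by decide)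
  have h2 : (1 : ℤ) ≤ |ρ| := Int.one_le_abs h1
  exact_mod_cast h2

/-- The number of the bad `j` for given `n₀`. -/
private theorem fibre87 (hρ : Odd ρ) {c D : ℝ} (hD : 0 < D)
    (hu : ∀ (k : ℕ) (x : ℕ × ℤ), 1 ≤ k → uu k x ≤ D * (k : ℝ) ^ (-c) * (x.1 + qq x + 1))
    (J t k n₀ : ℕ) (hk : 1 ≤ k) :
    (((range (2 ^ k)).filter (fun j : ℕ => ¬ ∀ i : ℕ, i ≤ J →
      MM ρ (t + k) 0 ((n₀ : ℤ) + 2 ^ t * j) ((n₀ : ℤ) + 2 ^ t * j + ρ * i))).card : ℝ) ≤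
      2 ^ k * (D * (k : ℝ) ^ (-c) * (4 * t + 2 * ∑ p ∈ Part ρ J t (n₀ : ℤ),
        (1 + Real.sqrt |off t (n₀ : ℤ) p|))) := by
  have hkc : 0 ≤ D * (k : ℝ) ^ (-c) := mul_nonneg hD.le (Real.rpow_nonneg (Nat.cast_nonneg _) _)
  have hρ1 := odd_abs87 hρ
  have hex : ∀ κ : ℕ, ∃ β : ℤ, ref ρ t (κ + 1) n₀ = 3 * ref ρ t κ n₀ + ρ * β ∧ |β| ≤ 4 :=
    fun κ => ref_succ hρ t κ n₀
  choose β1 hβ1 hβ1' using hex
  set β2 : ℕ × ℤ → ℤ := fun p => (p.2 - ref ρ t p.1 n₀) / ρ with hβ2def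
  have hβ2 : ∀ p ∈ Part ρ J t (n₀ : ℤ), p.2 = ref ρ t p.1 n₀ + ρ * β2 p := by
    intro p hp
    rw [hβ2def]
    simp only
    rw [Int.mul_ediv_cancel' (ref_dvd_part hρ hp)]
    ring
  have hsub : (range (2 ^ k)).filter (fun j : ℕ => ¬ ∀ i : ℕ, i ≤ J →
      MM ρ (t + k) 0 ((n₀ : ℤ) + 2 ^ t * j) ((n₀ : ℤ) + 2 ^ t * j + ρ * i)) ⊆
      ((range t).biUnion fun κ => (range (2 ^ k)).filter (fun j : ℕ =>
        ¬ MM ρ k 1 (ref ρ t κ n₀ + 3 ^ κ * j) (3 ^ 1 * (ref ρ t κ n₀ + 3 ^ κ * j) + ρ * β1 κ))) ∪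
      ((Part ρ J t (n₀ : ℤ)).biUnion fun p => (range (2 ^ k)).filter (fun j : ℕ =>
        ¬ MM ρ k 0 (ref ρ t p.1 n₀ + 3 ^ p.1 * j)
          (3 ^ 0 * (ref ρ t p.1 n₀ + 3 ^ p.1 * j) + ρ * β2 p))) := by
    intro j hj
    rw [mem_filter] at hj
    rw [mem_union, mem_biUnion, mem_biUnion]
    rcases window_shift87 hρ n₀ j hj.2 with ⟨κ, hκ, h⟩ | ⟨p, hp, h⟩
    · left
      refine ⟨κ, mem_range.2 hκ, mem_filter.2 ⟨hj.1, ?_⟩⟩
      have e : (3 : ℤ) ^ 1 * (ref ρ t κ n₀ + 3 ^ κ * j) + ρ * β1 κ =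
          ref ρ t (κ + 1) n₀ + 3 ^ (κ + 1) * j := by
        rw [hβ1 κ, pow_succ]
        ring
      rw [e]
      exact h
    · right
      refine ⟨p, hp, mem_filter.2 ⟨hj.1, ?_⟩⟩
      have e : (3 : ℤ) ^ 0 * (ref ρ t p.1 n₀ + 3 ^ p.1 * j) + ρ * β2 p = p.2 + 3 ^ p.1 * j := by
        have h1 := hβ2 p hp
        rw [pow_zero, one_mul]
        linarith
      rw [e]
      exact h
  have h1 : (((range (2 ^ k)).filter (fun j : ℕ => ¬ ∀ i : ℕ, i ≤ J →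
      MM ρ (t + k) 0 ((n₀ : ℤ) + 2 ^ t * j) ((n₀ : ℤ) + 2 ^ t * j + ρ * i))).card : ℝ) ≤
      ∑ κ ∈ range t, (2 : ℝ) ^ k * uu k (1, β1 κ) +
        ∑ p ∈ Part ρ J t (n₀ : ℤ), (2 : ℝ) ^ k * uu k (0, β2 p) := by
    have h2 := (card_le_card hsub).trans ((card_union_le _ _).trans
      (Nat.add_le_add card_biUnion_le card_biUnion_le))
    refine (Nat.cast_le.2 h2).trans ?_
    rw [Nat.cast_add, Nat.cast_sum, Nat.cast_sum]
    exact add_le_add (sum_le_sum fun κ _ => pair_count hρ k 1 κ _ _)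
      (sum_le_sum fun p _ => pair_count hρ k 0 p.1 _ _)
  refine h1.trans ?_
  have h2 : ∑ κ ∈ range t, (2 : ℝ) ^ k * uu k (1, β1 κ) ≤
      ∑ _κ ∈ range t, (2 : ℝ) ^ k * (D * (k : ℝ) ^ (-c) * 4) := by
    refine sum_le_sum fun κ _ => mul_le_mul_of_nonneg_left ?_ (by positivity)
    refine (hu k _ hk).trans (mul_le_mul_of_nonneg_left ?_ hkc)
    have h3 : qq (1, β1 κ) ≤ 2 := by
      unfold qq Zs
      rw [show (2 : ℝ) = Real.sqrt 4 by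
        rw [show (4 : ℝ) = 2 ^ 2 by norm_num, Real.sqrt_sq (by norm_num)]]
      refine Real.sqrt_le_sqrt ?_
      simp only
      have h4 : |((β1 κ : ℤ) : ℝ)| ≤ 4 := by exact_mod_cast hβ1' κ
      rw [div_le_iff₀ (by norm_num)]
      linarith
    push_cast
    linarith
  have h3 : ∑ p ∈ Part ρ J t (n₀ : ℤ), (2 : ℝ) ^ k * uu k (0, β2 p) ≤
      ∑ p ∈ Part ρ J t (n₀ : ℤ), (2 : ℝ) ^ k *
        (D * (k : ℝ) ^ (-c) * (2 * (1 + Real.sqrt |off t (n₀ : ℤ) p|))) := by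
    refine sum_le_sum fun p hp => mul_le_mul_of_nonneg_left ?_ (by positivity)
    refine (hu k _ hk).trans (mul_le_mul_of_nonneg_left ?_ hkc)
    have h4 : |((β2 p : ℤ) : ℝ)| ≤ |off t (n₀ : ℤ) p| + 1 := by
      have h5 := ref_near hρ t p.1 (n₀ : ℤ)
      have h6 : (ρ : ℝ) * (β2 p : ℝ) = off t (n₀ : ℤ) p -
          ((ref ρ t p.1 n₀ : ℝ) - 3 ^ p.1 * ((n₀ : ℤ) : ℝ) / 2 ^ t) := by
        have h7 := hβ2 p hp
        have h8 : ((p.2 : ℤ) : ℝ) = (ref ρ t p.1 n₀ : ℝ) + (ρ : ℝ) * (β2 p : ℝ) := by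
          exact_mod_cast h7
        unfold off
        rw [h8]
        ring
      have h7 : |(ρ : ℝ)| * |(β2 p : ℝ)| ≤ |off t (n₀ : ℤ) p| + |(ρ : ℝ)| := by
        rw [← abs_mul, h6]
        exact (abs_sub _ _).trans (by linarith)
      have h8 : 0 ≤ |off t (n₀ : ℤ) p| := abs_nonneg _
      have h9 : 0 ≤ |(β2 p : ℝ)| := abs_nonneg _
      by_contra hcon
      push Not at hcon
      nlinarith
    have h5 : qq (0, β2 p) ≤ 1 + Real.sqrt |off t (n₀ : ℤ) p| := by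
      unfold qq Zs
      simp only [pow_zero, div_one]
      refine (Real.sqrt_le_sqrt h4).trans ?_
      rw [Real.sqrt_le_left (by positivity)]
      have h6 := Real.sq_sqrt (abs_nonneg (off t (n₀ : ℤ) p))
      have h7 := Real.sqrt_nonneg |off t (n₀ : ℤ) p|
      nlinarith
    have h6 := Real.sqrt_nonneg |off t (n₀ : ℤ) p|
    push_cast
    linarith
  refine (add_le_add h2 h3).trans (le_of_eq ?_)
  rw [sum_const, card_range, nsmul_eq_mul, ← mul_sum, ← mul_sum, ← mul_sum]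
  ring

private theorem card_split87 (t k : ℕ) (P : ℤ → Prop) :
    ((range (2 ^ (t + k))).filter (fun n : ℕ => P n)).card ≤
      ∑ n₀ ∈ range (2 ^ t), ((range (2 ^ k)).filter (fun j : ℕ => P ((n₀ : ℤ) + 2 ^ t * j))).card := by
  have hpos : 0 < 2 ^ t := by positivity
  have h1 : ∀ n ∈ (range (2 ^ (t + k))).filter (fun n : ℕ => P n), n % 2 ^ t ∈ range (2 ^ t) :=
    fun n _ => mem_range.2 (Nat.mod_lt _ hpos)
  rw [card_eq_sum_card_fiberwise h1]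
  refine sum_le_sum fun n₀ hn₀ => ?_
  refine card_le_card_of_injOn (fun n => n / 2 ^ t) ?_ ?_
  · intro n hn
    rw [mem_coe, mem_filter, mem_filter, mem_range] at hn
    obtain ⟨⟨h2, h3⟩, h4⟩ := hn
    rw [mem_coe, mem_filter, mem_range]
    refine ⟨?_, ?_⟩
    · rw [Nat.div_lt_iff_lt_mul hpos, mul_comm, ← pow_add]
      exact h2
    · have e : (n₀ : ℤ) + 2 ^ t * ((n / 2 ^ t : ℕ) : ℤ) = n := by
        have h5 := Nat.mod_add_div n (2 ^ t)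
        rw [h4] at h5
        exact_mod_cast h5
      simp only
      rw [e]
      exact h3
  · intro n hn m hm h
    rw [mem_coe, mem_filter] at hn hm
    have h5 := Nat.mod_add_div n (2 ^ t)
    have h6 := Nat.mod_add_div m (2 ^ t)
    simp only at h
    rw [hn.2, h] at h5
    rw [hm.2] at h6
    omega

theorem uni (hρ : Odd ρ) {c : ℝ} (hc : c < 1 / 2) : ∃ C : ℝ, 0 < C ∧
    ∀ (J t k : ℕ) (a : ℤ) (N : ℕ), 1 ≤ k →
    (((Ioc a (a + N)).filter (fun n => ¬ ∀ j : ℕ, j ≤ J → MM ρ (t + k) 0 n (n + ρ * j))).card : ℝ) ≤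
      ((N : ℝ) + 2 ^ (t + k)) * (C * (k : ℝ) ^ (-c) *
        ((t : ℝ) + 1 + ((J : ℝ) + 1) ^ 2 * (98 / 100) ^ t)) := by
  obtain ⟨D, hD, hu⟩ := uu_rate_all hc
  obtain ⟨C', hC', hS⟩ := SS_le hρ
  refine ⟨D * (4 + 2 * C'), by positivity, fun J t k a N hk => ?_⟩
  have hkc : 0 ≤ D * (k : ℝ) ^ (-c) := mul_nonneg hD.le (Real.rpow_nonneg (Nat.cast_nonneg _) _)
  have hper : ∀ x j : ℤ, (¬ ∀ i : ℕ, i ≤ J → MM ρ (t + k) 0 (x + 2 ^ (t + k) * j)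
      (x + 2 ^ (t + k) * j + ρ * i)) ↔ ¬ ∀ i : ℕ, i ≤ J → MM ρ (t + k) 0 x (x + ρ * i) := by
    intro x j
    refine not_congr (forall_congr' fun i => imp_congr_right fun _ => ?_)
    have h := MM_periodic hρ (t + k) 0 (i : ℤ) x j
    simpa only [pow_zero, one_mul] using h
  have h1 := card_Ioc_le (k := t + k)
    (P := fun n => ¬ ∀ i : ℕ, i ≤ J → MM ρ (t + k) 0 n (n + ρ * i)) hper a N
  refine (Nat.cast_le.2 (card_le87 _ _ _ fun _ h => h)).trans (h1.trans ?_)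
  -- the number of the bad classes
  have h2 : (((range (2 ^ (t + k))).filter (fun n : ℕ =>
      ¬ ∀ i : ℕ, i ≤ J → MM ρ (t + k) 0 (n : ℤ) ((n : ℤ) + ρ * i))).card : ℝ) ≤
      2 ^ (t + k) * (D * (4 + 2 * C') * (k : ℝ) ^ (-c) *
        ((t : ℝ) + 1 + ((J : ℝ) + 1) ^ 2 * (98 / 100) ^ t)) := by
    have h3 : ((range (2 ^ (t + k))).filter (fun n : ℕ =>
        ¬ ∀ i : ℕ, i ≤ J → MM ρ (t + k) 0 (n : ℤ) ((n : ℤ) + ρ * i))).card ≤
        ∑ n₀ ∈ range (2 ^ t), ((range (2 ^ k)).filter (fun j : ℕ => ¬ ∀ i : ℕ, i ≤ J →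
          MM ρ (t + k) 0 ((n₀ : ℤ) + 2 ^ t * j) ((n₀ : ℤ) + 2 ^ t * j + ρ * i))).card :=
      (card_le87 _ _ _ fun _ h => h).trans ((card_split87 t k
        (fun n => ¬ ∀ i : ℕ, i ≤ J → MM ρ (t + k) 0 n (n + ρ * i))).trans
        (sum_le_sum fun _ _ => card_le87 _ _ _ fun _ h => h))
    refine (Nat.cast_le.2 h3).trans ?_
    rw [Nat.cast_sum]
    refine (sum_le_sum fun n₀ _ => fibre87 hρ hD hu J t k n₀ hk).trans ?_
    have h4 := hS J t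
    unfold SS at h4
    have h5 : ∑ n₀ ∈ range (2 ^ t), ((4 : ℝ) * t + 2 * ∑ p ∈ Part ρ J t (n₀ : ℤ),
        (1 + Real.sqrt |off t (n₀ : ℤ) p|)) ≤
        2 ^ t * ((4 + 2 * C') * ((t : ℝ) + 1 + ((J : ℝ) + 1) ^ 2 * (98 / 100) ^ t)) := by
      rw [sum_add_distrib, sum_const, card_range, nsmul_eq_mul, ← mul_sum]
      have h6 : (0 : ℝ) ≤ 2 ^ t * (1 + ((J : ℝ) + 1) ^ 2 * (98 / 100) ^ t) := by positivity
      have h7 : (2 : ℝ) ^ t * ((4 + 2 * C') * ((t : ℝ) + 1 + ((J : ℝ) + 1) ^ 2 * (98 / 100) ^ t)) =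
          2 ^ t * (4 * t) + 2 * (2 ^ t * (C' * (t + 1) + C' * ((J : ℝ) + 1) ^ 2 * (98 / 100) ^ t)) +
            4 * (2 ^ t * (1 + ((J : ℝ) + 1) ^ 2 * (98 / 100) ^ t)) := by ring
      rw [h7]
      push_cast
      linarith
    rw [← mul_sum, ← mul_sum]
    refine (mul_le_mul_of_nonneg_left (mul_le_mul_of_nonneg_left h5 hkc) (by positivity)).trans
      (le_of_eq ?_)
    rw [pow_add]
    ring
  have h3 : (0 : ℝ) ≤ (N : ℝ) / 2 ^ (t + k) + 1 := by positivity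
  refine (mul_le_mul_of_nonneg_left ((Nat.cast_le.2 (card_le87 _ _ _ fun _ h => h)).trans h2)
    h3).trans (le_of_eq ?_)
  have h4 : (0 : ℝ) < 2 ^ (t + k) := by positivity
  field_simp

end Pool.Agent.Helper8.CO
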